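import Pool.Agent.Lib.MP_1d770b_lc.Rec

/-! Absoluteness along transitive embeddings (by instance search). -/

set_option synthInstance.maxSize 100000

namespace Pool.Agent.Lib.MP_1d770b_lc

universe u
variable {M N : Type u} {E : M → M → Prop} {E' : N → N → Prop} {j : N → M}

class Emb (j : N → M) (E' : N → N → Prop) (E : M → M → Prop) : Prop where
  inj : ∀ a b, j a = j b → a = b
  mem : ∀ a b, E' a b ↔ E (j a) (j b)

class TEmb (j : N → M) (E' : N → N → Prop) (E : M → M → Prop) : Prop extends Emb j E' E where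
  tr : ∀ a y, E y (j a) → ∃ b, j b = y

class Up (j : N → M) (E' : N → N → Prop) (E : M → M → Prop) (p q : Prop) : Prop where
  out : p → q
class Dn (j : N → M) (E' : N → N → Prop) (E : M → M → Prop) (p q : Prop) : Prop where
  out : q → p
class Bd (j : N → M) (E' : N → N → Prop) (E : M → M → Prop) (x : M) (p : Prop) : Prop where
  out : p → ∃ b, j b = x
class Vac (j : N → M) (E' : N → N → Prop) (E : M → M → Prop) (x : M) (p : Prop) : Prop where
  out : (¬ ∃ b, j b = x) → p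

theorem up (j : N → M) (E' : N → N → Prop) (E : M → M → Prop) {p q : Prop} [h : Up j E' E p q]
    (hp : p) : q := h.out hp
theorem dn (j : N → M) (E' : N → N → Prop) (E : M → M → Prop) {p q : Prop} [h : Dn j E' E p q]
    (hq : q) : p := h.out hq
theorem bd (j : N → M) (E' : N → N → Prop) (E : M → M → Prop) {x : M} {p : Prop}
    [h : Bd j E' E x p] (hp : p) : ∃ b, j b = x := h.out hp

section
variable (p p' q q' : Prop) (P' : N → Prop) (P : M → Prop) (x : M)

instance (priority := 10) Up.refl : Up j E' E p p := ⟨id⟩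
instance (priority := 10) Dn.refl : Dn j E' E p p := ⟨id⟩
instance Up.not [h : Dn j E' E p q] : Up j E' E (¬ p) (¬ q) := ⟨fun h1 h2 => h1 (h.out h2)⟩
instance Dn.not [h : Up j E' E p q] : Dn j E' E (¬ p) (¬ q) := ⟨fun h1 h2 => h1 (h.out h2)⟩
instance Up.and [h : Up j E' E p q] [h' : Up j E' E p' q'] : Up j E' E (p ∧ p') (q ∧ q') :=
  ⟨fun h1 => ⟨h.out h1.1, h'.out h1.2⟩⟩
instance Dn.and [h : Dn j E' E p q] [h' : Dn j E' E p' q'] : Dn j E' E (p ∧ p') (q ∧ q') :=
  ⟨fun h1 => ⟨h.out h1.1, h'.out h1.2⟩⟩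
instance Up.or [h : Up j E' E p q] [h' : Up j E' E p' q'] : Up j E' E (p ∨ p') (q ∨ q') :=
  ⟨fun h1 => h1.imp h.out h'.out⟩
instance Dn.or [h : Dn j E' E p q] [h' : Dn j E' E p' q'] : Dn j E' E (p ∨ p') (q ∨ q') :=
  ⟨fun h1 => h1.imp h.out h'.out⟩
instance Up.imp [h : Dn j E' E p q] [h' : Up j E' E p' q'] : Up j E' E (p → p') (q → q') :=
  ⟨fun h1 h2 => h'.out (h1 (h.out h2))⟩
instance Dn.imp [h : Up j E' E p q] [h' : Dn j E' E p' q'] : Dn j E' E (p → p') (q → q') :=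
  ⟨fun h1 h2 => h'.out (h1 (h.out h2))⟩
instance Up.iff [h : Up j E' E p q] [h' : Up j E' E p' q'] [k : Dn j E' E p q]
    [k' : Dn j E' E p' q'] : Up j E' E (p ↔ p') (q ↔ q') :=
  ⟨fun h1 => ⟨fun h2 => h'.out (h1.1 (k.out h2)), fun h2 => h.out (h1.2 (k'.out h2))⟩⟩
instance Dn.iff [h : Up j E' E p q] [h' : Up j E' E p' q'] [k : Dn j E' E p q]
    [k' : Dn j E' E p' q'] : Dn j E' E (p ↔ p') (q ↔ q') :=
  ⟨fun h1 => ⟨fun h2 => k'.out (h1.1 (h.out h2)), fun h2 => k.out (h1.2 (h'.out h2))⟩⟩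
instance Up.ex [h : ∀ b, Up j E' E (P' b) (P (j b))] : Up j E' E (∃ b, P' b) (∃ x, P x) :=
  ⟨fun ⟨b, hb⟩ => ⟨j b, (h b).out hb⟩⟩
instance Dn.ex [k : ∀ x, Bd j E' E x (P x)] [h : ∀ b, Dn j E' E (P' b) (P (j b))] :
    Dn j E' E (∃ b, P' b) (∃ x, P x) :=
  ⟨fun ⟨x, hx⟩ => by
    obtain ⟨b, rfl⟩ := (k x).out hx
    exact ⟨b, (h b).out hx⟩⟩
instance Up.all [k : ∀ x, Vac j E' E x (P x)] [h : ∀ b, Up j E' E (P' b) (P (j b))] :
    Up j E' E (∀ b, P' b) (∀ x, P x) :=
  ⟨fun H x => by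
    by_cases hx : ∃ b, j b = x
    · obtain ⟨b, rfl⟩ := hx
      exact (h b).out (H b)
    · exact (k x).out hx⟩
instance Dn.all [h : ∀ b, Dn j E' E (P' b) (P (j b))] : Dn j E' E (∀ b, P' b) (∀ x, P x) :=
  ⟨fun H b => (h b).out (H (j b))⟩
instance Up.exu [k : ∀ x, Bd j E' E x (P x)] [h : ∀ b, Up j E' E (P' b) (P (j b))]
    [h' : ∀ b, Dn j E' E (P' b) (P (j b))] : Up j E' E (∃! b, P' b) (∃! x, P x) :=
  ⟨fun ⟨b, hb, hu⟩ => ⟨j b, (h b).out hb, fun x hx => by
    obtain ⟨c, rfl⟩ := (k x).out hx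
    rw [hu c ((h' c).out hx)]⟩⟩
instance Dn.exu [hj : Emb j E' E] [k : ∀ x, Bd j E' E x (P x)]
    [h : ∀ b, Up j E' E (P' b) (P (j b))]
    [h' : ∀ b, Dn j E' E (P' b) (P (j b))] : Dn j E' E (∃! b, P' b) (∃! x, P x) :=
  ⟨fun ⟨x, hx, hu⟩ => by
    obtain ⟨b, rfl⟩ := (k x).out hx
    exact ⟨b, (h' b).out hx, fun c hc => hj.inj _ _ (hu _ ((h c).out hc))⟩⟩

instance Bd.and1 [h : Bd j E' E x p] : Bd j E' E x (p ∧ q) := ⟨fun h1 => h.out h1.1⟩
instance (priority := 900) Bd.and2 [h : Bd j E' E x q] : Bd j E' E x (p ∧ q) :=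
  ⟨fun h1 => h.out h1.2⟩
instance Bd.or [h : Bd j E' E x p] [h' : Bd j E' E x q] : Bd j E' E x (p ∨ q) :=
  ⟨fun h1 => h1.elim h.out h'.out⟩
instance Bd.ex1 [h : ∀ y, Bd j E' E x (P y)] : Bd j E' E x (∃ y, P y) :=
  ⟨fun ⟨y, hy⟩ => (h y).out hy⟩
instance (priority := 900) Bd.ex2 [k : ∀ y, Bd j E' E y (P y)] [h : ∀ b, Bd j E' E x (P (j b))] :
    Bd j E' E x (∃ y, P y) :=
  ⟨fun ⟨y, hy⟩ => by
    obtain ⟨b, rfl⟩ := (k y).out hy
    exact (h b).out hy⟩
instance Bd.eq1 (a : N) : Bd j E' E x (x = j a) := ⟨fun h => ⟨a, h.symm⟩⟩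
instance Bd.eq2 (a : N) : Bd j E' E x (j a = x) := ⟨fun h => ⟨a, h⟩⟩
instance Vac.imp1 [h : Bd j E' E x p] : Vac j E' E x (p → q) := ⟨fun h1 h2 => (h1 (h.out h2)).elim⟩
instance (priority := 900) Vac.imp2 [h : Vac j E' E x q] : Vac j E' E x (p → q) :=
  ⟨fun h1 _ => h.out h1⟩
instance Vac.not [h : Bd j E' E x p] : Vac j E' E x (¬ p) := ⟨fun h1 h2 => h1 (h.out h2)⟩
instance Vac.iff [h : Bd j E' E x p] [h' : Bd j E' E x q] : Vac j E' E x (p ↔ q) :=
  ⟨fun h1 => ⟨fun h2 => (h1 (h.out h2)).elim, fun h2 => (h1 (h'.out h2)).elim⟩⟩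
instance Vac.and [h : Vac j E' E x p] [h' : Vac j E' E x q] : Vac j E' E x (p ∧ q) :=
  ⟨fun h1 => ⟨h.out h1, h'.out h1⟩⟩
instance Vac.all1 [h : ∀ y, Vac j E' E x (P y)] : Vac j E' E x (∀ y, P y) :=
  ⟨fun h1 y => (h y).out h1⟩
instance (priority := 900) Vac.all2 [k : ∀ y, Vac j E' E y (P y)]
    [h : ∀ b, Vac j E' E x (P (j b))] : Vac j E' E x (∀ y, P y) :=
  ⟨fun h1 y => by
    by_cases hy : ∃ b, j b = y
    · obtain ⟨b, rfl⟩ := hy
      exact (h b).out h1
    · exact (k y).out hy⟩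
end

section
variable [hj : Emb j E' E] (a b : N)
instance Up.mem : Up j E' E (E' a b) (E (j a) (j b)) := ⟨(hj.mem a b).1⟩
instance Dn.mem : Dn j E' E (E' a b) (E (j a) (j b)) := ⟨(hj.mem a b).2⟩
omit hj in
instance Up.eq : Up j E' E (a = b) (j a = j b) := ⟨congrArg j⟩
instance Dn.eq : Dn j E' E (a = b) (j a = j b) := ⟨hj.inj a b⟩
instance Up.ne : Up j E' E (a ≠ b) (j a ≠ j b) := ⟨fun h h' => h (hj.inj a b h')⟩
omit hj in
instance Dn.ne : Dn j E' E (a ≠ b) (j a ≠ j b) := ⟨fun h h' => h (congrArg j h')⟩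
end

def Lin (E : M → M → Prop) (r : M) : Prop :=
  (∀ a, ¬ App E r a a) ∧ (∀ a b c, App E r a b → App E r b c → App E r a c) ∧
  (∀ a b, Fld E r a → Fld E r b → App E r a b ∨ a = b ∨ App E r b a)

def CofF (E : M → M → Prop) (w r f : M) : Prop :=
  (∀ p, E p f → ∃ n b, E n w ∧ Fld E r b ∧ IsOPair E p n b) ∧
    (∀ n, E n w → ∃! b, App E f n b) ∧ ∀ a, Fld E r a → ∃ n b, App E f n b ∧ App E r a b

theorem cof_iff {w r : M} : Cof E w r ↔ Lin E r ∧ ∃ f, CofF E w r f :=
  ⟨fun ⟨h1, h2, h3, h4⟩ => ⟨⟨h1, h2, h3⟩, h4⟩, fun ⟨⟨h1, h2, h3⟩, h4⟩ => ⟨h1, h2, h3, h4⟩⟩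

def CofIn (E : M → M → Prop) (w u r : M) : Prop := Lin E r ∧ ∃ f, E f u ∧ CofF E w r f

section
variable (a b c : (ℕ → M) → M) [IsT a] [IsT b] [IsT c] (i : ℕ)
instance : Df E fun v => Lin E (a v) := by unfold Lin; infer_instance
instance : UD.{u} fun _ E v => Lin E (v i) := by unfold Lin; infer_instance
instance : Df E fun v => CofF E (a v) (b v) (c v) := by unfold CofF; infer_instance
instance : Df E fun v => CofIn E (a v) (b v) (c v) := by unfold CofIn; infer_instance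
end

section
variable [hj : TEmb j E' E] (a b c d : N) (x y z : M)

instance Bd.mem : Bd j E' E x (E x (j a)) := ⟨hj.tr a x⟩
instance : Bd j E' E x (Le E x (j a)) := by unfold Le; infer_instance
instance : Bd j E' E x (IsUPair E (j a) x y) := ⟨fun h => hj.tr a x ((h x).2 (Or.inl rfl))⟩
instance : Bd j E' E y (IsUPair E (j a) x y) := ⟨fun h => hj.tr a y ((h y).2 (Or.inr rfl))⟩
instance : Bd j E' E x (IsOPair E (j a) x y) := by unfold IsOPair; infer_instance
instance : Bd j E' E y (IsOPair E (j a) x y) := by unfold IsOPair; infer_instance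
instance : Bd j E' E x (App E (j a) x y) := by unfold App; infer_instance
instance : Bd j E' E y (App E (j a) x y) := by unfold App; infer_instance
instance : Bd j E' E x (IsSuc E (j a) x) := ⟨fun h => hj.tr a x h.self⟩
instance : Bd j E' E x (Fld E (j a) x) := by unfold Fld; infer_instance
instance : Bd j E' E x (Upd E y z x (j a)) := by unfold Upd; infer_instance

instance : Up j E' E (Le E' a b) (Le E (j a) (j b)) := by unfold Le; infer_instance
instance : Dn j E' E (Le E' a b) (Le E (j a) (j b)) := by unfold Le; infer_instance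
instance : Up j E' E (Sub E' a b) (Sub E (j a) (j b)) := by unfold Sub; infer_instance
instance : Dn j E' E (Sub E' a b) (Sub E (j a) (j b)) := by unfold Sub; infer_instance
instance : Up j E' E (Trans E' a) (Trans E (j a)) := by unfold Trans; infer_instance
instance : Dn j E' E (Trans E' a) (Trans E (j a)) := by unfold Trans; infer_instance
instance : Up j E' E (IsEmp E' a) (IsEmp E (j a)) := by unfold IsEmp; infer_instance
instance : Dn j E' E (IsEmp E' a) (IsEmp E (j a)) := by unfold IsEmp; infer_instance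
instance : Up j E' E (IsSuc E' a b) (IsSuc E (j a) (j b)) := by unfold IsSuc; infer_instance
instance : Dn j E' E (IsSuc E' a b) (IsSuc E (j a) (j b)) := by unfold IsSuc; infer_instance
instance : Up j E' E (IsInd E' a) (IsInd E (j a)) := by unfold IsInd; infer_instance
instance : Dn j E' E (IsInd E' a) (IsInd E (j a)) := by unfold IsInd; infer_instance
instance : Up j E' E (IsUPair E' a b c) (IsUPair E (j a) (j b) (j c)) := by
  unfold IsUPair; infer_instance
instance : Dn j E' E (IsUPair E' a b c) (IsUPair E (j a) (j b) (j c)) := by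
  unfold IsUPair; infer_instance
instance : Up j E' E (IsOPair E' a b c) (IsOPair E (j a) (j b) (j c)) := by
  unfold IsOPair; infer_instance
instance : Dn j E' E (IsOPair E' a b c) (IsOPair E (j a) (j b) (j c)) := by
  unfold IsOPair; infer_instance
instance : Up j E' E (App E' a b c) (App E (j a) (j b) (j c)) := by unfold App; infer_instance
instance : Dn j E' E (App E' a b c) (App E (j a) (j b) (j c)) := by unfold App; infer_instance
instance : Up j E' E (Fn E' a) (Fn E (j a)) := by unfold Fn; infer_instance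
instance : Dn j E' E (Fn E' a) (Fn E (j a)) := by unfold Fn; infer_instance
instance : Up j E' E (PFun E' a b c) (PFun E (j a) (j b) (j c)) := by unfold PFun; infer_instance
instance : Dn j E' E (PFun E' a b c) (PFun E (j a) (j b) (j c)) := by unfold PFun; infer_instance
instance : Up j E' E (IsOrd E' a) (IsOrd E (j a)) := by unfold IsOrd; infer_instance
instance : Dn j E' E (IsOrd E' a) (IsOrd E (j a)) := by unfold IsOrd; infer_instance
instance : Up j E' E (Lim E' a) (Lim E (j a)) := by unfold Lim; infer_instance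
instance : Dn j E' E (Lim E' a) (Lim E (j a)) := by unfold Lim; infer_instance
instance : Up j E' E (Fld E' a b) (Fld E (j a) (j b)) := by unfold Fld; infer_instance
instance : Dn j E' E (Fld E' a b) (Fld E (j a) (j b)) := by unfold Fld; infer_instance
instance : Up j E' E (Lin E' a) (Lin E (j a)) := by unfold Lin; infer_instance
instance : Dn j E' E (Lin E' a) (Lin E (j a)) := by unfold Lin; infer_instance
instance : Up j E' E (CofF E' a b c) (CofF E (j a) (j b) (j c)) := by unfold CofF; infer_instance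
instance : Dn j E' E (CofF E' a b c) (CofF E (j a) (j b) (j c)) := by unfold CofF; infer_instance
instance : Up j E' E (CofIn E' a b c) (CofIn E (j a) (j b) (j c)) := by
  unfold CofIn; infer_instance
instance : Dn j E' E (CofIn E' a b c) (CofIn E (j a) (j b) (j c)) := by
  unfold CofIn; infer_instance
instance : Up j E' E (Cof E' a b) (Cof E (j a) (j b)) := by
  simp only [cof_iff]; infer_instance
instance : Up j E' E (Asg E' a b c) (Asg E (j a) (j b) (j c)) := by unfold Asg; infer_instance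
instance : Dn j E' E (Asg E' a b c) (Asg E (j a) (j b) (j c)) := by unfold Asg; infer_instance
instance : Up j E' E (Upd E' a b c d) (Upd E (j a) (j b) (j c) (j d)) := by
  unfold Upd; infer_instance
instance : Dn j E' E (Upd E' a b c d) (Upd E (j a) (j b) (j c) (j d)) := by
  unfold Upd; infer_instance
instance (k : ℕ) : Up j E' E (IsNum E' k a) (IsNum E k (j a)) := by
  induction k generalizing a with
  | zero => simp only [IsNum]; infer_instance
  | succ k ih => simp only [IsNum]; infer_instance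
instance (k : ℕ) : Dn j E' E (IsNum E' k a) (IsNum E k (j a)) := by
  induction k generalizing a with
  | zero => simp only [IsNum]; infer_instance
  | succ k ih => simp only [IsNum]; infer_instance

theorem omega_up [ZF E] [ZF E'] {w : N} (hw : IsOmega E' w) : IsOmega E (j w) := by
  obtain ⟨w', hw'⟩ := ex_omega E
  have h1 : IsInd E (j w) := up j E' E hw.1
  have h2 : IsOrd E (j w) := up j E' E hw.ord
  rcases hw'.ord.le_of_sub h2 (hw'.2 _ h1) with h | h
  · exfalso
    obtain ⟨n, rfl⟩ := hj.tr _ _ h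
    rcases hw.cases (n := n) (dn j E' E h) with h0 | ⟨m, -, hm⟩
    · obtain ⟨e, he⟩ := ex_emp E
      exact (up j E' E h0 : IsEmp E (j n)) e (hw'.emp he)
    · have hm' : IsSuc E (j n) (j m) := up j E' E hm
      exact no1 (hw'.suc hm' hm'.self)
  · exact h ▸ hw'

theorem omega_dn [ZF E] [ZF E'] {w : N} (hw : IsOmega E (j w)) : IsOmega E' w := by
  obtain ⟨w', hw'⟩ := ex_omega E'
  have := hj.inj _ _ ((omega_up (j := j) hw').uniq hw)
  exact this ▸ hw'

theorem rk_up [ZF E] {x α : N} (h : Rk E' x α) : Rk E (j x) (j α) := by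
  obtain ⟨v, ⟨f, hf, hv⟩, hx⟩ := h
  have hx' : E (j x) (j v) := up j E' E hx
  have hv' : App E (j f) (j α) (j v) := up j E' E hv
  have hα : IsOrd E (j α) := up j E' E (hf _ _ hv).1
  refine ord_ind (fun β => ∀ y, App E (j f) β y → ∀ z, E z y → Rk E z β) ?_ _ hα _ hv' _ hx'
  intro β hβ IH y hy z hz
  obtain ⟨β, rfl⟩ : ∃ b, j b = β := bd j E' E hy
  obtain ⟨y, rfl⟩ : ∃ b, j b = y := bd j E' E hy
  obtain ⟨z, rfl⟩ := hj.tr _ _ hz
  obtain ⟨γ, y', h1, h2, h3⟩ := ((hf β y (dn j E' E hy)).2.2 z).1 (dn j E' E hz)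
  have h1' : E (j γ) (j β) := up j E' E h1
  refine Rk.intro hβ h1' fun t ht => IH _ h1' (j y') (up j E' E h2) t ?_
  exact (up j E' E h3 : Sub E (j z) (j y')) t ht

theorem rk_dn [ZF E] [ZF E'] {x α : N} (h : Rk E (j x) (j α)) : Rk E' x α := by
  obtain ⟨t, ht, hxt⟩ := ex_trans E' x
  have ht' : Trans E (j t) := up j E' E ht
  have hα : IsOrd E' α := dn j E' E h.ord
  obtain ⟨v, f, hf, hv⟩ := (recV E').total hα
  refine ⟨v, ⟨f, hf, hv⟩, dn j E' E (q := E (j x) (j v)) ?_⟩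
  refine ord_ind (fun β => ∀ y, App E (j f) β y → ∀ z, E z (j t) → Rk E z β → E z y) ?_ _ h.ord _
    (up j E' E hv) _ (up j E' E hxt) h
  intro β hβ IH y hy z hz hr
  obtain ⟨β, rfl⟩ : ∃ b, j b = β := bd j E' E hy
  obtain ⟨y, rfl⟩ : ∃ b, j b = y := bd j E' E hy
  obtain ⟨z, rfl⟩ := hj.tr _ _ hz
  obtain ⟨γ, hγ, H⟩ := hr.elim
  obtain ⟨γ, rfl⟩ := hj.tr _ _ hγ
  obtain ⟨-, h1, h2⟩ := hf β y (dn j E' E hy)
  obtain ⟨y', hy'⟩ := h1 γ (dn j E' E hγ)
  refine up j E' E ((h2 z).2 ⟨γ, y', dn j E' E hγ, hy', dn j E' E (q := Sub E (j z) (j y')) ?_⟩)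
  exact fun s hs => IH _ hγ _ (up j E' E hy') s (ht' _ _ hz hs) (H s hs)

instance [ZF E] : Up j E' E (Rk E' a b) (Rk E (j a) (j b)) := ⟨rk_up⟩
instance [ZF E] [ZF E'] : Dn j E' E (Rk E' a b) (Rk E (j a) (j b)) := ⟨rk_dn⟩
end

/-- the inclusion of a class -/
instance Emb.val (W : Set M) : Emb (Subtype.val : W → M) (Res E W) E :=
  ⟨fun _ _ h => Subtype.ext h, fun _ _ => Iff.rfl⟩

theorem TEmb.val {W : Set M} (h : ∀ x y, x ∈ W → E y x → y ∈ W) :
    TEmb (Subtype.val : W → M) (Res E W) E :=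
  { Emb.val W with tr := fun a y hy => ⟨⟨y, h _ _ a.2 hy⟩, rfl⟩ }

instance Emb.id : Emb (fun x : M => x) E E := ⟨fun _ _ h => h, fun _ _ => Iff.rfl⟩

end Pool.Agent.Lib.MP_1d770b_lc
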