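import Pool.Agent.Lib.MP_1d770b_lc.Syn

/-! Elementary set theory inside a model of ZF. -/

set_option synthInstance.maxSize 100000

namespace Pool.Agent.Lib.MP_1d770b_lc

universe u
variable {M : Type u} {E : M → M → Prop}

class ZF (E : M → M → Prop) : Prop where
  out : IsZF E

theorem Df.d1 {P : M → Prop} (h : Df E (fun v => P (v 0))) : D1 E P := fun t _ =>
  h.subst (fun _ => t) (fun _ => inferInstance)

theorem Df.d2 {P : M → M → Prop} (h : Df E (fun v => P (v 0) (v 1))) : D2 E P := fun s t _ _ =>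
  h.subst (fun i => match i with | 0 => s | _ + 1 => t) (fun i => by cases i <;> infer_instance)

theorem Df.d3 {P : M → M → M → Prop} (h : Df E (fun v => P (v 0) (v 1) (v 2))) : D3 E P :=
  fun r s t _ _ _ =>
  h.subst (fun i => match i with | 0 => r | 1 => s | _ + 2 => t)
    (fun i => match i with | 0 => inferInstance | 1 => inferInstance | _ + 2 => inferInstance)

def Sub (E : M → M → Prop) (a b : M) : Prop := ∀ x, E x a → E x b
def Le (E : M → M → Prop) (a b : M) : Prop := E a b ∨ a = b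
def Trans (E : M → M → Prop) (a : M) : Prop := ∀ x y, E x a → E y x → E y a
/-- the pairs in `f` form a function -/
def Fn (E : M → M → Prop) (f : M) : Prop := ∀ i a b, App E f i a → App E f i b → a = b
def IsNum (E : M → M → Prop) : ℕ → M → Prop
  | 0, x => IsEmp E x
  | k + 1, x => ∃ y, IsNum E k y ∧ IsSuc E x y

section
variable (a b : (ℕ → M) → M) [IsT a] [IsT b] (i j : ℕ)
instance : Df E fun v => Sub E (a v) (b v) := by unfold Sub; infer_instance
instance : UD.{u} fun _ E v => Sub E (v i) (v j) := by unfold Sub; infer_instance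
instance : Df E fun v => Le E (a v) (b v) := by unfold Le; infer_instance
instance : UD.{u} fun _ E v => Le E (v i) (v j) := by unfold Le; infer_instance
instance : Df E fun v => Trans E (a v) := by unfold Trans; infer_instance
instance : Df E fun v => Fn E (a v) := by unfold Fn; infer_instance
instance : UD.{u} fun _ E v => Fn E (v i) := by unfold Fn; infer_instance
end

instance (k i : ℕ) : UD.{u} fun _ E v => IsNum E k (v i) := by
  induction k generalizing i with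
  | zero => simp only [IsNum]; infer_instance
  | succ k ih => simp only [IsNum]; infer_instance

instance (k : ℕ) (a : (ℕ → M) → M) [IsT a] : Df E fun v => IsNum E k (a v) :=
  (inferInstance : UD.{u} fun _ E v => IsNum E k (v 0)).df (fun _ => a) (fun _ => inferInstance)

variable [hZ : ZF E]
include hZ

variable (E) in
theorem ext' {a b : M} (h : ∀ x, E x a ↔ E x b) : a = b := hZ.out.extensionality a b h

variable (E) in
theorem nonempty' : Nonempty M := let ⟨w, _⟩ := hZ.out.infinity; ⟨w⟩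

variable (E) in
theorem sep (a : M) (P : M → Prop) [h : Df E (fun v => P (v 0))] :
    ∃ b, ∀ x, E x b ↔ E x a ∧ P x := by
  have := nonempty' E
  have h1 := h.d1
  obtain ⟨φ, v, hφ⟩ := D2.definable (E := E) (S := fun x _ => P x) (fun s _ _ _ => h1 s)
  obtain ⟨b, hb⟩ := hZ.out.separation φ (scons a v) a
  exact ⟨b, fun x => by rw [hb, ← hφ x a]⟩

variable (E) in
theorem repl (a : M) (P : M → M → Prop) [h : Df E (fun v => P (v 0) (v 1))]
    (hu : ∀ x y y', E x a → P x y → P x y' → y = y') :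
    ∃ b, ∀ y, E y b ↔ ∃ x, E x a ∧ P x y := by
  have := nonempty' E
  have h2 := h.d2
  obtain ⟨φ, v, hφ⟩ := D2.definable h2
  obtain ⟨a', ha'⟩ := sep E a (fun x => ∃ y, P x y)
  obtain ⟨b, hb⟩ := hZ.out.replacement φ v a' (fun x hx => by
    obtain ⟨hxa, y, hy⟩ := (ha' x).1 hx
    exact ⟨y, (hφ _ _).1 hy, fun y' hy' => hu x _ _ hxa ((hφ _ _).2 hy') hy⟩)
  refine ⟨b, fun y => ?_⟩
  rw [hb]
  constructor
  · rintro ⟨x, hx, h⟩; exact ⟨x, ((ha' x).1 hx).1, (hφ _ _).2 h⟩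
  · rintro ⟨x, hx, h⟩; exact ⟨x, (ha' x).2 ⟨hx, y, h⟩, (hφ _ _).1 h⟩

variable (E) in
theorem ex_emp : ∃ e, IsEmp E e := let ⟨_, ⟨e, he, _⟩, _⟩ := hZ.out.infinity; ⟨e, he⟩

theorem IsEmp.uniq {a b : M} (ha : IsEmp E a) (hb : IsEmp E b) : a = b :=
  ext' E fun x => ⟨fun h => (ha x h).elim, fun h => (hb x h).elim⟩

variable (E) in
theorem ex_upair (a b : M) : ∃ c, IsUPair E c a b := hZ.out.pairing a b

theorem IsUPair.uniq {c d a b : M} (h : IsUPair E c a b) (h' : IsUPair E d a b) : c = d :=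
  ext' E fun x => (h x).trans (h' x).symm

variable (E) in
theorem ex_sUnion (a : M) : ∃ c, ∀ x, E x c ↔ ∃ y, E y a ∧ E x y := hZ.out.union a

variable (E) in
theorem ex_pow (a : M) : ∃ c, ∀ x, E x c ↔ Sub E x a := hZ.out.powerset a

variable (E) in
theorem ex_union (a b : M) : ∃ c, ∀ x, E x c ↔ E x a ∨ E x b := by
  obtain ⟨p, hp⟩ := ex_upair E a b
  obtain ⟨c, hc⟩ := ex_sUnion E p
  refine ⟨c, fun x => ?_⟩
  rw [hc]
  constructor
  · rintro ⟨y, hy, hx⟩
    rcases (hp y).1 hy with rfl | rfl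
    · exact Or.inl hx
    · exact Or.inr hx
  · rintro (h | h)
    · exact ⟨a, (hp a).2 (Or.inl rfl), h⟩
    · exact ⟨b, (hp b).2 (Or.inr rfl), h⟩

variable (E) in
theorem ex_ins (a b : M) : ∃ c, ∀ x, E x c ↔ E x a ∨ x = b := by
  obtain ⟨p, hp⟩ := ex_upair E b b
  obtain ⟨c, hc⟩ := ex_union E a p
  exact ⟨c, fun x => by rw [hc, hp x, or_self]⟩

variable (E) in
theorem ex_suc (a : M) : ∃ s, IsSuc E s a := ex_ins E a a

theorem IsSuc.uniq {s t a : M} (h : IsSuc E s a) (h' : IsSuc E t a) : s = t :=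
  ext' E fun x => (h x).trans (h' x).symm

omit hZ in
theorem IsSuc.self {s a : M} (h : IsSuc E s a) : E a s := (h a).2 (Or.inr rfl)
omit hZ in
theorem IsSuc.of_mem {s a x : M} (h : IsSuc E s a) (hx : E x a) : E x s := (h x).2 (Or.inl hx)

variable (E) in
theorem ex_opair (a b : M) : ∃ p, IsOPair E p a b := by
  obtain ⟨s, hs⟩ := ex_upair E a a
  obtain ⟨t, ht⟩ := ex_upair E a b
  obtain ⟨p, hp⟩ := ex_upair E s t
  exact ⟨p, s, t, hs, ht, hp⟩

theorem IsOPair.uniq {p q a b : M} (h : IsOPair E p a b) (h' : IsOPair E q a b) : p = q := by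
  obtain ⟨s, t, hs, ht, hp⟩ := h
  obtain ⟨s', t', hs', ht', hp'⟩ := h'
  obtain rfl := hs.uniq hs'
  obtain rfl := ht.uniq ht'
  exact hp.uniq hp'

omit hZ in
theorem IsOPair.inj {p a b c d : M} (h : IsOPair E p a b) (h' : IsOPair E p c d) :
    a = c ∧ b = d := by
  obtain ⟨s, t, hs, ht, hp⟩ := h
  obtain ⟨s', t', hs', ht', hp'⟩ := h'
  have h1 : s = s' ∨ s = t' := (hp' s).1 ((hp s).2 (Or.inl rfl))
  have h2 : t = s' ∨ t = t' := (hp' t).1 ((hp t).2 (Or.inr rfl))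
  have h3 : t' = s ∨ t' = t := (hp t').1 ((hp' t').2 (Or.inr rfl))
  have hac : a = c := by
    rcases h1 with rfl | rfl
    · exact (or_self_iff.1 ((hs' a).1 ((hs a).2 (Or.inl rfl))))
    · exact (or_self_iff.1 ((hs c).1 ((ht' c).2 (Or.inl rfl)))).symm
  subst hac
  refine ⟨rfl, ?_⟩
  have hb : E b t := (ht b).2 (Or.inr rfl)
  have hd : E d t' := (ht' d).2 (Or.inr rfl)
  rcases h2 with rfl | rfl
  · have hba : b = a := or_self_iff.1 ((hs' b).1 hb)
    rcases h3 with rfl | rfl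
    · exact hba.trans (or_self_iff.1 ((hs d).1 hd)).symm
    · exact hba.trans (or_self_iff.1 ((hs' d).1 hd)).symm
  · rcases (ht' b).1 hb with h | h
    · rcases (ht d).1 hd with h' | h'
      · exact h.trans h'.symm
      · exact h'.symm
    · exact h

theorem App.mem {f a b p : M} (h : App E f a b) (hp : IsOPair E p a b) : E p f := by
  obtain ⟨q, hq, hf⟩ := h
  exact hp.uniq hq ▸ hf

omit hZ in
theorem App.mono {f g a b : M} (h : App E f a b) (hfg : Sub E f g) : App E g a b :=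
  let ⟨p, hp, hf⟩ := h; ⟨p, hp, hfg p hf⟩

theorem found (a x : M) (hx : E x a) : ∃ x, E x a ∧ ∀ y, E y x → ¬ E y a :=
  hZ.out.foundation a ⟨x, hx⟩

theorem no3 {a b c : M} (h1 : E a b) (h2 : E b c) (h3 : E c a) : False := by
  obtain ⟨p, hp⟩ := ex_upair E a b
  obtain ⟨s, hs⟩ := ex_ins E p c
  have ha : E a s := (hs a).2 (Or.inl ((hp a).2 (Or.inl rfl)))
  have hb : E b s := (hs b).2 (Or.inl ((hp b).2 (Or.inr rfl)))
  have hc : E c s := (hs c).2 (Or.inr rfl)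
  obtain ⟨x, hx, hm⟩ := found s a ha
  rcases (hs x).1 hx with h | rfl
  · rcases (hp x).1 h with rfl | rfl
    · exact hm c h3 hc
    · exact hm a h1 ha
  · exact hm b h2 hb

theorem no1 {a : M} (h : E a a) : False := no3 h h h

theorem no2 {a b : M} (h1 : E a b) (h2 : E b a) : False := by
  obtain ⟨p, hp⟩ := ex_upair E a b
  obtain ⟨x, hx, hm⟩ := found p a ((hp a).2 (Or.inl rfl))
  rcases (hp x).1 hx with rfl | rfl
  · exact hm b h2 ((hp b).2 (Or.inr rfl))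
  · exact hm a h1 ((hp a).2 (Or.inl rfl))

theorem IsSuc.inj {s a b : M} (h : IsSuc E s a) (h' : IsSuc E s b) : a = b := by
  rcases (h' a).1 h.self with h1 | h1
  · rcases (h b).1 h'.self with h2 | h2
    · exact (no2 h1 h2).elim
    · exact h2.symm
  · exact h1

variable (E) in
theorem ex_rel (a b : M) (P : M → M → Prop) [h : Df E (fun v => P (v 0) (v 1))] :
    ∃ r, (∀ p, E p r ↔ ∃ x y, E x a ∧ E y b ∧ IsOPair E p x y ∧ P x y) ∧
      ∀ x y, App E r x y ↔ E x a ∧ E y b ∧ P x y := by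
  have h2 := h.d2
  obtain ⟨c, hc⟩ := ex_union E a b
  obtain ⟨p1, hp1⟩ := ex_pow E c
  obtain ⟨p2, hp2⟩ := ex_pow E p1
  obtain ⟨r, hr⟩ := sep E p2 (fun p => ∃ x y, E x a ∧ E y b ∧ IsOPair E p x y ∧ P x y)
  have key : ∀ p, E p r ↔ ∃ x y, E x a ∧ E y b ∧ IsOPair E p x y ∧ P x y := by
    intro p
    rw [hr]
    refine ⟨fun h => h.2, fun h => ⟨?_, h⟩⟩
    obtain ⟨x, y, hx, hy, ⟨s, t, hs, ht, hp⟩, -⟩ := h
    refine (hp2 p).2 fun z hz => (hp1 z).2 fun u hu => (hc u).2 ?_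
    rcases (hp z).1 hz with rfl | rfl
    · rcases (hs u).1 hu with rfl | rfl <;> exact Or.inl hx
    · rcases (ht u).1 hu with rfl | rfl
      · exact Or.inl hx
      · exact Or.inr hy
  refine ⟨r, key, fun x y => ⟨?_, ?_⟩⟩
  · rintro ⟨p, hp, hpr⟩
    obtain ⟨x', y', hx, hy, hp', hP⟩ := (key p).1 hpr
    obtain ⟨rfl, rfl⟩ := hp.inj hp'
    exact ⟨hx, hy, hP⟩
  · rintro ⟨hx, hy, hP⟩
    obtain ⟨p, hp⟩ := ex_opair E x y
    exact ⟨p, hp, (key p).2 ⟨x, y, hx, hy, hp, hP⟩⟩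

variable (E) in
theorem ex_fun (a : M) (P : M → M → Prop) [h : Df E (fun v => P (v 0) (v 1))]
    (hu : ∀ x y y', E x a → P x y → P x y' → y = y') :
    ∃ r, (∀ p, E p r → ∃ x y, E x a ∧ IsOPair E p x y ∧ P x y) ∧
      ∀ x y, App E r x y ↔ E x a ∧ P x y := by
  obtain ⟨b, hb⟩ := repl E a P hu
  obtain ⟨r, hr, hr'⟩ := ex_rel E a b P
  refine ⟨r, fun p hp => ?_, fun x y => ?_⟩
  · obtain ⟨x, y, hx, -, h1, h2⟩ := (hr p).1 hp
    exact ⟨x, y, hx, h1, h2⟩
  · rw [hr']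
    exact ⟨fun h => ⟨h.1, h.2.2⟩, fun h => ⟨h.1, (hb y).2 ⟨x, h.1, h.2⟩, h.2⟩⟩

variable (E) in
theorem ex_fld (f : M) : ∃ d, ∀ x y, App E f x y → E x d ∧ E y d := by
  obtain ⟨u1, h1⟩ := ex_sUnion E f
  obtain ⟨u2, h2⟩ := ex_sUnion E u1
  refine ⟨u2, fun x y ⟨p, ⟨s, t, _, ht, hp⟩, hf⟩ => ?_⟩
  have : E t u1 := (h1 t).2 ⟨p, hf, (hp t).2 (Or.inr rfl)⟩
  exact ⟨(h2 x).2 ⟨t, this, (ht x).2 (Or.inl rfl)⟩, (h2 y).2 ⟨t, this, (ht y).2 (Or.inr rfl)⟩⟩

omit hZ in
theorem app_ins {f g p a b : M} (hp : IsOPair E p a b) (hg : ∀ x, E x g ↔ E x f ∨ x = p)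
    (x y : M) : App E g x y ↔ App E f x y ∨ (x = a ∧ y = b) := by
  constructor
  · rintro ⟨q, hq, h⟩
    rcases (hg q).1 h with h | rfl
    · exact Or.inl ⟨q, hq, h⟩
    · exact Or.inr (hq.inj hp)
  · rintro (⟨q, hq, h⟩ | ⟨rfl, rfl⟩)
    · exact ⟨q, hq, (hg q).2 (Or.inl h)⟩
    · exact ⟨p, hp, (hg p).2 (Or.inr rfl)⟩

/-! ### Ordinals -/

theorem IsOrd.mem {a b : M} (h : IsOrd E a) (hb : E b a) : IsOrd E b := by
  refine ⟨fun c d hc hd => ?_, fun x y hx hy => h.2 x y (h.1 _ _ hb hx) (h.1 _ _ hb hy)⟩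
  rcases h.2 d b (h.1 _ _ (h.1 _ _ hb hc) hd) hb with h1 | rfl | h1
  · exact h1
  · exact (no2 hc hd).elim
  · exact (no3 h1 hd hc).elim

omit hZ in
theorem IsOrd.tr {a b c : M} (h : IsOrd E a) (hb : E b a) (hc : E c b) : E c a := h.1 _ _ hb hc

theorem ord_ind (P : M → Prop) [h : Df E (fun v => P (v 0))]
    (H : ∀ a, IsOrd E a → (∀ b, E b a → P b) → P a) (a : M) (ha : IsOrd E a) : P a := by
  have h1 := h.d1
  refine H a ha fun b hb => ?_
  by_contra hP
  obtain ⟨s, hs⟩ := sep E a (fun x => ¬ P x)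
  obtain ⟨x, hx, hm⟩ := found s b ((hs b).2 ⟨hb, hP⟩)
  obtain ⟨hxa, hxP⟩ := (hs x).1 hx
  refine hxP (H x (ha.mem hxa) fun y hy => ?_)
  by_contra hy'
  exact hm y hy ((hs y).2 ⟨ha.tr hxa hy, hy'⟩)

theorem ord_min (P : M → Prop) [h : Df E (fun v => P (v 0))] {a : M} (ha : IsOrd E a)
    (hP : P a) : ∃ a, IsOrd E a ∧ P a ∧ ∀ b, E b a → ¬ P b := by
  have h1 := h.d1
  by_contra hn
  exact ord_ind (fun x => ¬ P x) (fun x hx H hP => hn ⟨x, hx, hP, H⟩) a ha hP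

theorem IsOrd.tri {a b : M} (ha : IsOrd E a) (hb : IsOrd E b) : E a b ∨ a = b ∨ E b a := by
  refine ord_ind (fun a => ∀ b, IsOrd E b → E a b ∨ a = b ∨ E b a) ?_ a ha b hb
  clear ha hb a b
  intro a ha H b hb
  refine ord_ind (fun b => E a b ∨ a = b ∨ E b a) ?_ b hb
  intro b hb H'
  by_cases h1 : E a b
  · exact Or.inl h1
  by_cases h2 : E b a
  · exact Or.inr (Or.inr h2)
  refine Or.inr (Or.inl (ext' E fun x => ⟨fun hx => ?_, fun hx => ?_⟩))
  · rcases H x hx b hb with h | rfl | h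
    · exact h
    · exact (h2 hx).elim
    · exact (h2 (ha.tr hx h)).elim
  · rcases H' x hx with h | rfl | h
    · exact (h1 (hb.tr hx h)).elim
    · exact (h1 hx).elim
    · exact h

theorem IsOrd.le_of_sub {a b : M} (ha : IsOrd E a) (hb : IsOrd E b) (h : Sub E a b) : Le E a b := by
  rcases ha.tri hb with h1 | h1 | h1
  · exact Or.inl h1
  · exact Or.inr h1
  · exact (no1 (h b h1)).elim

theorem IsOrd.le_of_not {a b : M} (ha : IsOrd E a) (hb : IsOrd E b) (h : ¬ E b a) : Le E a b := by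
  rcases ha.tri hb with h1 | h1 | h1
  · exact Or.inl h1
  · exact Or.inr h1
  · exact (h h1).elim

omit hZ in
theorem Le.sub {a b : M} (h : Le E a b) (hb : IsOrd E b) : Sub E a b := by
  rcases h with h | rfl
  · exact fun x hx => hb.tr h hx
  · exact fun x hx => hx

omit hZ in
theorem Le.lt {a b c : M} (h : Le E a b) (hc : IsOrd E c) (hb : E b c) : E a c := by
  rcases h with h | rfl
  · exact hc.tr hb h
  · exact hb

theorem Le.ord {a b : M} (h : Le E a b) (hb : IsOrd E b) : IsOrd E a := by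
  rcases h with h | rfl
  · exact hb.mem h
  · exact hb

omit hZ in
theorem Le.trans {a b c : M} (h : Le E a b) (h' : Le E b c) (hc : IsOrd E c) : Le E a c := by
  rcases h' with h' | rfl
  · exact Or.inl (h.lt hc h')
  · exact h

theorem Le.not_lt {a b : M} (h : Le E a b) (h' : E b a) : False := by
  rcases h with h | rfl
  · exact no2 h h'
  · exact no1 h'

theorem ord_of_trans {a : M} (h1 : Trans E a) (h2 : ∀ x, E x a → IsOrd E x) : IsOrd E a :=
  ⟨h1, fun x y hx hy => (h2 x hx).tri (h2 y hy)⟩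

omit hZ in
theorem IsEmp.ord {a : M} (h : IsEmp E a) : IsOrd E a :=
  ⟨fun x _ hx => (h x hx).elim, fun x _ hx => (h x hx).elim⟩

theorem IsSuc.ord {s a : M} (h : IsSuc E s a) (ha : IsOrd E a) : IsOrd E s := by
  refine ord_of_trans (fun x y hx hy => h.of_mem ?_) (fun x hx => Le.ord ((h x).1 hx) ha)
  exact Le.sub ((h x).1 hx) ha y hy

theorem IsSuc.le {s a b : M} (h : IsSuc E s a) (hb : IsOrd E b) (hab : E a b) : Le E s b :=
  (h.ord (hb.mem hab)).le_of_sub hb fun x hx => Le.lt ((h x).1 hx) hb hab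

variable (E) in
/-- every set has an ordinal above all its ordinal elements -/
theorem ord_bound (s : M) : ∃ c, IsOrd E c ∧ ∀ a, E a s → IsOrd E a → E a c := by
  obtain ⟨t, ht⟩ := sep E s (fun x => IsOrd E x)
  obtain ⟨u, hu⟩ := ex_sUnion E t
  have hu' : IsOrd E u := by
    refine ord_of_trans (fun x y hx hy => ?_) (fun x hx => ?_)
    · obtain ⟨z, hz, hx⟩ := (hu x).1 hx
      exact (hu y).2 ⟨z, hz, ((ht z).1 hz).2.tr hx hy⟩
    · obtain ⟨z, hz, hx⟩ := (hu x).1 hx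
      exact ((ht z).1 hz).2.mem hx
  obtain ⟨c, hc⟩ := ex_suc E u
  refine ⟨c, hc.ord hu', fun a ha ha' => (hc a).2 ?_⟩
  exact ha'.le_of_sub hu' fun x hx => (hu x).2 ⟨a, (ht a).2 ⟨ha, ha'⟩, hx⟩

theorem ord_bound2 {a b : M} (ha : IsOrd E a) (hb : IsOrd E b) :
    ∃ c, IsOrd E c ∧ E a c ∧ E b c := by
  obtain ⟨p, hp⟩ := ex_upair E a b
  obtain ⟨c, hc, h⟩ := ord_bound E p
  exact ⟨c, hc, h a ((hp a).2 (Or.inl rfl)) ha, h b ((hp b).2 (Or.inr rfl)) hb⟩

variable (E) in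
/-- bounding least ordinal witnesses -/
theorem ord_coll (s : M) (P : M → M → Prop) [h : Df E (fun v => P (v 0) (v 1))] :
    ∃ c, IsOrd E c ∧ ∀ x, E x s → (∃ a, IsOrd E a ∧ P x a) → ∃ a, E a c ∧ P x a := by
  have h2 := h.d2
  obtain ⟨b, hb⟩ := repl E s (fun x a => IsOrd E a ∧ P x a ∧ ∀ b, E b a → ¬ P x b)
    (fun x y y' _ h1 h2 => by
      rcases h1.1.tri h2.1 with h | h | h
      · exact (h2.2.2 y h h1.2.1).elim
      · exact h
      · exact (h1.2.2 y' h h2.2.1).elim)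
  obtain ⟨c, hc, hcb⟩ := ord_bound E b
  refine ⟨c, hc, fun x hx ⟨a, ha, hP⟩ => ?_⟩
  obtain ⟨a, ha⟩ := ord_min (fun a => P x a) ha hP
  exact ⟨a, hcb a ((hb a).2 ⟨x, hx, ha⟩) ha.1, ha.2.1⟩

/-! ### Natural numbers -/

variable (E) in
theorem ex_omega : ∃ w, IsOmega E w := by
  obtain ⟨i, hi⟩ := hZ.out.infinity
  obtain ⟨w, hw⟩ := sep E i (fun x => ∀ v, IsInd E v → E x v)
  refine ⟨w, ⟨?_, fun a ha => ?_⟩, fun v hv x hx => ((hw x).1 hx).2 v hv⟩
  · obtain ⟨e, he, hei⟩ := hi.1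
    refine ⟨e, he, (hw e).2 ⟨hei, fun v hv => ?_⟩⟩
    obtain ⟨e', he', h⟩ := hv.1
    exact he'.uniq he ▸ h
  · obtain ⟨hai, ha⟩ := (hw a).1 ha
    obtain ⟨s, hs, hsi⟩ := hi.2 a hai
    refine ⟨s, hs, (hw s).2 ⟨hsi, fun v hv => ?_⟩⟩
    obtain ⟨s', hs', h⟩ := hv.2 a (ha v hv)
    exact hs'.uniq hs ▸ h

theorem IsOmega.uniq {w w' : M} (h : IsOmega E w) (h' : IsOmega E w') : w = w' :=
  ext' E fun x => ⟨h.2 w' h'.1 x, h'.2 w h.1 x⟩

theorem IsOmega.emp {w e : M} (h : IsOmega E w) (he : IsEmp E e) : E e w := by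
  obtain ⟨e', he', h⟩ := h.1.1
  exact he'.uniq he ▸ h

theorem IsOmega.suc {w s a : M} (h : IsOmega E w) (hs : IsSuc E s a) (ha : E a w) : E s w := by
  obtain ⟨s', hs', h⟩ := h.1.2 a ha
  exact hs'.uniq hs ▸ h

theorem IsOmega.ind {w : M} (hw : IsOmega E w) (P : M → Prop) [h : Df E (fun v => P (v 0))]
    (h0 : ∀ e, IsEmp E e → P e) (h1 : ∀ n s, E n w → IsSuc E s n → P n → P s)
    (n : M) (hn : E n w) : P n := by
  obtain ⟨v, hv⟩ := sep E w P
  refine ((hv n).1 (hw.2 v ⟨?_, fun a ha => ?_⟩ n hn)).2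
  · obtain ⟨e, he⟩ := ex_emp E
    exact ⟨e, he, (hv e).2 ⟨hw.emp he, h0 e he⟩⟩
  · obtain ⟨s, hs⟩ := ex_suc E a
    obtain ⟨ha, hP⟩ := (hv a).1 ha
    exact ⟨s, hs, (hv s).2 ⟨hw.suc hs ha, h1 a s ha hs hP⟩⟩

theorem IsOmega.ord {w : M} (hw : IsOmega E w) : IsOrd E w := by
  refine ord_of_trans (fun x y hx => ?_) (fun x hx => ?_)
  · revert y
    refine hw.ind (fun x => ∀ y, E y x → E y w) (fun e he y hy => (he y hy).elim) ?_ x hx
    intro n s hn hs H y hy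
    rcases (hs y).1 hy with h | rfl
    · exact H y h
    · exact hn
  · exact hw.ind (fun x => IsOrd E x) (fun e he => he.ord) (fun n s _ hs H => hs.ord H) x hx

theorem IsOmega.cases {w n : M} (hw : IsOmega E w) (hn : E n w) :
    IsEmp E n ∨ ∃ m, E m w ∧ IsSuc E n m :=
  hw.ind (fun n => IsEmp E n ∨ ∃ m, E m w ∧ IsSuc E n m) (fun _ he => Or.inl he)
    (fun n _ hn hs _ => Or.inr ⟨n, hn, hs⟩) n hn

variable (E) in
theorem ex_num (k : ℕ) : ∃ x, IsNum E k x := by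
  induction k with
  | zero => exact ex_emp E
  | succ k ih =>
    obtain ⟨y, hy⟩ := ih
    obtain ⟨x, hx⟩ := ex_suc E y
    exact ⟨x, y, hy, hx⟩

theorem IsNum.uniq {k : ℕ} {x y : M} (hx : IsNum E k x) (hy : IsNum E k y) : x = y := by
  induction k generalizing x y with
  | zero => exact IsEmp.uniq hx hy
  | succ k ih =>
    obtain ⟨x', h1, h2⟩ := hx
    obtain ⟨y', h3, h4⟩ := hy
    obtain rfl := ih h1 h3
    exact h2.uniq h4

theorem IsNum.lt {k l : ℕ} {x y : M} (hx : IsNum E k x) (hy : IsNum E l y) (h : k < l) :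
    E x y := by
  induction l generalizing y with
  | zero => omega
  | succ l ih =>
    obtain ⟨y', h3, h4⟩ := hy
    rcases Nat.lt_succ_iff_lt_or_eq.1 h with h | rfl
    · exact h4.of_mem (ih h3 h)
    · exact hx.uniq h3 ▸ h4.self

theorem IsNum.inj {k l : ℕ} {x : M} (hx : IsNum E k x) (hy : IsNum E l x) : k = l := by
  rcases lt_trichotomy k l with h | h | h
  · exact (no1 (hx.lt hy h)).elim
  · exact h
  · exact (no1 (hy.lt hx h)).elim

theorem IsNum.mem {k : ℕ} {w x : M} (hx : IsNum E k x) (hw : IsOmega E w) : E x w := by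
  induction k generalizing x with
  | zero => exact hw.emp hx
  | succ k ih =>
    obtain ⟨y, h1, h2⟩ := hx
    exact hw.suc h2 (ih h1)

theorem IsNum.ord {k : ℕ} {x : M} (hx : IsNum E k x) : IsOrd E x :=
  let ⟨_, hw⟩ := ex_omega E; hw.ord.mem (hx.mem hw)

end Pool.Agent.Lib.MP_1d770b_lc
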