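import Pool.Agent.Lib.MP_1d770b_lc.Hull

/-! Condensation for the cofinality-omega constructible model. -/

set_option synthInstance.maxSize 100000

namespace Pool.Agent.Lib.MP_1d770b_lc

universe u
variable {M N : Type u} {E : M → M → Prop} {E' : N → N → Prop} {j : N → M}

def Fm.subs : Fm → List Fm
  | .mem _ _ => []
  | .eq _ _ => []
  | .neg φ => φ.subs
  | .and φ ψ => φ.subs ++ ψ.subs
  | .ex φ => φ :: φ.subs

def TV (E : M → M → Prop) (Y : M) (ψ : Fm) : Prop :=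
  ∀ v : ℕ → M, (∀ i, E (v i) Y) → (∃ z, Sat E ψ (scons z v)) → ∃ z, E z Y ∧ Sat E ψ (scons z v)

theorem tv_elem [hj : Emb j E' E] {Y : M} (hY : ∀ y, E y Y ↔ ∃ b, j b = y) (φ : Fm) :
    (∀ ψ ∈ φ.subs, TV E Y ψ) → ∀ v : ℕ → N, Sat E' φ v ↔ Sat E φ (fun i => j (v i)) := by
  induction φ with
  | mem i k => intro _ v; exact hj.mem _ _
  | eq i k => intro _ v; exact ⟨congrArg j, hj.inj _ _⟩
  | neg φ ih => intro h v; simp only [Sat, ih h]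
  | and φ ψ ih1 ih2 =>
    intro h v
    simp only [Sat, ih1 (fun χ hχ => h χ (List.mem_append_left _ hχ)),
      ih2 (fun χ hχ => h χ (List.mem_append_right _ hχ))]
  | ex φ ih =>
    intro h v
    have ih' := ih (fun χ hχ => h χ (List.mem_cons_of_mem _ hχ))
    simp only [Sat]
    constructor
    · rintro ⟨b, hb⟩
      exact ⟨j b, by rw [← comp_scons]; exact (ih' _).1 hb⟩
    · intro hz
      obtain ⟨z, h1, h2⟩ := h φ List.mem_cons_self _ (fun i => (hY _).2 ⟨v i, rfl⟩) hz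
      obtain ⟨b, rfl⟩ := (hY z).1 h1
      exact ⟨b, (ih' _).2 (by rwa [comp_scons])⟩

variable [hZ : ZF E]

theorem Lim.fin {l w : M} (hl : Lim E l) (hw : E w l) (v : ℕ → M) (hv : ∀ i, Rk E (v i) l) (n : ℕ) :
    ∃ β, E β l ∧ E w β ∧ ∀ i, i < n → Rk E (v i) β := by
  induction n with
  | zero => exact let ⟨β, h1, h2⟩ := hl.2 w hw; ⟨β, h1, h2, fun i hi => absurd hi (by omega)⟩
  | succ n ih =>
    obtain ⟨β, h1, h2, h3⟩ := ih
    obtain ⟨γ, h4, h5⟩ := hl.rk (hv n)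
    obtain ⟨δ, h6, h7, h8⟩ := hl.two h1 h4
    have o := hl.1.mem h6
    refine ⟨δ, h6, o.tr h7 h2, fun i hi => ?_⟩
    rcases Nat.lt_succ_iff_lt_or_eq.1 hi with hi | rfl
    · exact (h3 i hi).lt o h7
    · exact h5.lt o h8

def Bnd (E : M → M → Prop) (h z : M) : Prop :=
  ∃ e r, IsEmp E e ∧ App E h e r ∧ Fld E r z ∧ ∀ n b, n ≠ e → App E h n b → ¬ App E r z b

theorem hull_elem (hC : Choice E) {w l : M} (hw : IsOmega E w) (hl : Lim E l) (hwl : E w l)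
    (hu : Unc E w l) (L : List Fm) :
    ∃ Y e, Fn E e ∧ (∀ y, E y Y → ∃ t, Rk E t l ∧ App E e t y) ∧ (∀ x, Rk E x l → E x Y) ∧
      (∀ ψ ∈ L, TV E Y ψ) ∧ ∀ h, PFun E h w Y → (∃ z, Bnd E h z) → ∃ z, E z Y ∧ Bnd E h z := by
  let T : M → Prop := fun t => Fn E t ∧ ∀ p, E p t → ∃ k c, IsOPair E p k c
  have dT : D1 E T := fun _ _ => by simp only [T]; infer_instance
  have hA : Adm (fun x : M => x) E (fun _ => True) T :=
    { rng := fun x => ⟨fun _ => ⟨x, rfl⟩, fun _ => trivial⟩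
      fn := fun _ h => h.1
      emp := fun e he => ⟨fun _ _ _ ⟨p, _, hp⟩ => (he p hp).elim, fun p hp => (he p hp).elim⟩
      upd := fun s n a hs _ hn => by
        obtain ⟨p, hp⟩ := ex_opair E (num E n) a
        obtain ⟨t, ht⟩ := ex_ins E s p
        obtain ⟨h1, h2⟩ := upd_ins hp ht hs.1 hn
        refine ⟨t, ⟨h1, fun z hz => ?_⟩, h2⟩
        rcases (ht z).1 hz with hz | rfl
        · exact hs.2 z hz
        · exact ⟨_, _, hp⟩ }
  let Gψ : Fm → M → M → Prop := fun ψ h z => ∃ t, T t ∧ Upd E h (num E (ψ.fv + 1)) z t ∧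
    SatA E (fun _ => True) T ψ ψ.nm (ψ.fv + 2) t
  have dGψ : ∀ ψ, D2 E (Gψ ψ) := fun ψ _ _ _ _ => by
    have := SatA.df (E := E) (W := fun _ => True) (fun _ _ => inferInstance) dT ψ ψ.nm (ψ.fv + 2)
    simp only [Gψ]; infer_instance
  have dB : D2 E (Bnd E) := fun _ _ _ _ => by unfold Bnd; infer_instance
  let G : M → M → M → Prop := fun i h z => (IsNum E 0 i ∧ Bnd E h z) ∨
    ∃ k : Fin L.length, IsNum E (k + 1) i ∧ Gψ (L.get k) h z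
  have dG : D3 E G := fun _ _ _ _ _ _ => by simp only [G]; infer_instance
  obtain ⟨Λ, hΛ, hlΛ, hcl⟩ := clos E
    (fun α γ => ∀ i h, E i w → Rk E h α → (∃ z, G i h z) → ∃ z, Rk E z γ ∧ G i h z)
    (fun α hα => by
      obtain ⟨v, hv⟩ := ex_V hα
      obtain ⟨D, hD, -⟩ := ex_rel E w v (fun _ _ => True)
      obtain ⟨c, hc, H⟩ := ord_coll E D (fun p γ => ∃ i h z, IsOPair E p i h ∧ Rk E z γ ∧ G i h z)
      refine ⟨c, hc, fun i h hi hh ⟨z, hz⟩ => ?_⟩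
      obtain ⟨p, hp⟩ := ex_opair E i h
      obtain ⟨γ, hγ⟩ := ex_rk E z
      obtain ⟨γ, h1, i', h', z', h2, h3, h4⟩ := H p ((hD p).2 ⟨i, h, hi, (hv h).2 hh, hp, trivial⟩)
        ⟨γ, hγ.ord, i, h, z, hp, hγ, hz⟩
      obtain ⟨rfl, rfl⟩ := hp.inj h2
      exact ⟨z', h3.lt hc h1, h4⟩) l hl.1
  obtain ⟨TT, hTT⟩ := ex_V hΛ.1
  obtain ⟨Y, e, h1, h2, h3, h4, h5⟩ := hull hC hw hl hwl hu (T := TT)
    (fun x hx => (hTT x).2 (hx.lt hΛ.1 hlΛ)) G dG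
  refine ⟨Y, e, h1, h2, h4, fun ψ hψ v hv ⟨z, hz⟩ => ?_, fun h hh ⟨z, hz⟩ => ?_⟩
  · obtain ⟨k, rfl⟩ := List.get_of_mem hψ
    obtain ⟨s, hs, k1, k2, k3⟩ := hA.sect (E' := E) (L.get k) v
    have key : ∀ z, G (num E (k + 1)) s z ↔ Sat E (L.get k) (scons z v) := fun z => by
      constructor
      · rintro (⟨h, -⟩ | ⟨k', h, t, t1, t2, t3⟩)
        · have := h.inj (num_spec _); omega
        · obtain rfl : k' = k := Fin.ext (by have := h.inj (num_spec _); omega)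
          exact (k3 z t t1 t2).1 t3
      · intro h
        obtain ⟨t, t1, t2⟩ := k2 z
        exact Or.inr ⟨k, num_spec _, t, t1, t2, (k3 z t t1 t2).2 h⟩
    have hP : PFun E s w Y := ⟨fun p hp => by
      obtain ⟨a, c, h⟩ := hs.2 p hp
      obtain ⟨i, -, rfl, rfl⟩ := k1 a c ⟨p, h, hp⟩
      exact ⟨_, _, num_mem hw i, hv i, h⟩, hs.1⟩
    obtain ⟨β, b1, b2, b3⟩ := hΛ.fin (hΛ.1.tr hlΛ hwl) v (fun i => (hTT _).1 (h3 _ (hv i)))
      ((L.get k).fv + 1)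
    have hsr : Rk E s Λ := hΛ.rel b1 fun p hp => by
      obtain ⟨a, c, h⟩ := hs.2 p hp
      obtain ⟨i, hi, rfl, rfl⟩ := k1 a c ⟨p, h, hp⟩
      exact ⟨_, _, h, (hΛ.1.mem b1).rk ((hΛ.1.mem b1).tr b2 (num_mem hw i)), b3 i hi⟩
    obtain ⟨α, a1, a2⟩ := hΛ.rk hsr
    obtain ⟨γ, g1, g2⟩ := hcl α a1
    obtain ⟨z', z1, z2⟩ := g2 _ s (num_mem hw _) a2 ⟨z, (key z).2 hz⟩
    obtain ⟨z'', z3, z4⟩ := h5 _ s (num_mem hw _) hP ⟨z', (hTT _).2 (z1.lt hΛ.1 g1), z2⟩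
    exact ⟨z'', z3, (key _).1 z4⟩
  · have hzT : E z TT := by
      obtain ⟨e, r, -, ⟨p, k1, k2⟩, ⟨c, k3⟩, -⟩ := hz
      obtain ⟨i, a, -, k4, k5⟩ := hh.1 p k2
      obtain ⟨rfl, rfl⟩ := k1.inj k5
      have := (hTT _).1 (h3 _ k4)
      exact (hTT _).2 (k3.elim (fun h => (this.app h).1) (fun h => (this.app h).2))
    obtain ⟨z', z1, ⟨-, z2⟩ | ⟨k, z2, -⟩⟩ := h5 _ h (num_mem hw 0) hh ⟨z, hzT, Or.inl ⟨num_spec 0, hz⟩⟩
    · exact ⟨z', z1, z2⟩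
    · have := z2.inj (num_spec _); omega

theorem collapse {Y : M} (hext : ∀ a b, E a Y → E b Y → (∀ z, E z Y → (E z a ↔ E z b)) → a = b) :
    ∃ (C : M → M → Prop) (P : M), D2 E C ∧ (∀ x y y', C x y → C x y' → y = y') ∧
      (∀ x x' y, C x y → C x' y → x = x') ∧ (∀ x y, C x y → E x Y ∧ E y P) ∧
      (∀ x, E x Y → ∃ y, C x y) ∧ (∀ y, E y P → ∃ x, C x y) ∧ Trans E P ∧
      (∀ x y x' y', C x y → C x' y' → (E y y' ↔ E x x')) ∧
      ∀ l, (∀ x, Rk E x l → E x Y) → ∀ x, Rk E x l → C x x := by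
  let S : M → M → M → Prop := fun f x y => ∀ z, E z y ↔ ∃ u, E u x ∧ E u Y ∧ App E f u z
  have hR : RecOK E (fun x => E x Y) (fun x' x => E x' Y ∧ RkLt E x' x) S :=
    { wfRk E Y with
      dS := fun _ _ _ _ _ _ => by simp only [S]; infer_instance
      inv := fun f g x y _ H hS z => (hS z).trans (exists_congr fun u => and_congr_right fun h1 =>
        and_congr_right fun h2 => H u ⟨h2, RkLt.of_mem h1⟩ z)
      ex := fun f x _ _ => by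
        obtain ⟨d, hd⟩ := ex_fld E f
        obtain ⟨y, hy⟩ := sep E d (fun z => ∃ u, E u x ∧ E u Y ∧ App E f u z)
        exact ⟨y, fun z => (hy z).trans ⟨fun h => h.2, fun ⟨u, h1, h2, h3⟩ =>
          ⟨(hd u z h3).2, u, h1, h2, h3⟩⟩⟩
      uniq := fun f x y y' _ _ h1 h2 => ext' E fun z => (h1 z).trans (h2 z).symm }
  have dR := hR.dRec
  generalize hRec : Rec E (fun x => E x Y) (fun x' x => E x' Y ∧ RkLt E x' x) S = C at dR
  have cfn : ∀ t y y', C t y → C t y' → y = y' := fun t y y' h1 h2 => by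
    subst hRec; exact hR.fn h1 h2
  have ctot : ∀ t, E t Y → ∃ y, C t y := fun t ht => by subst hRec; exact hR.total ht
  have cdom : ∀ t y, C t y → E t Y := fun t y h => by subst hRec; exact h.dom
  have ciff : ∀ x y, C x y → ∀ z, E z y ↔ ∃ u, E u x ∧ C u z := fun x y h z => by
    subst hRec
    obtain ⟨f, hf, hS⟩ := hR.elim h
    rw [hS z]
    exact exists_congr fun u => and_congr_right fun h1 => ⟨fun h2 =>
      (hf u ⟨h2.1, RkLt.of_mem h1⟩ z).1 h2.2, fun h2 => ⟨h2.dom, (hf u ⟨h2.dom, RkLt.of_mem h1⟩ z).2 h2⟩⟩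
  have cinj : ∀ x x' y, C x y → C x' y → x = x' := fun x => by
    refine mem_ind E (fun x => ∀ x' y, C x y → C x' y → x = x') ?_ x
    intro x IH x' y h1 h2
    refine hext x x' (cdom _ _ h1) (cdom _ _ h2) fun u hu => ?_
    obtain ⟨z, hz⟩ := ctot u hu
    constructor
    · intro hux
      obtain ⟨u', k1, k2⟩ := (ciff x' y h2 z).1 ((ciff x y h1 z).2 ⟨u, hux, hz⟩)
      exact IH u hux u' z hz k2 ▸ k1
    · intro hux
      obtain ⟨u', k1, k2⟩ := (ciff x y h1 z).1 ((ciff x' y h2 z).2 ⟨u, hux, hz⟩)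
      exact IH u' k1 u z k2 hz ▸ k1
  obtain ⟨P, hP⟩ := repl E Y C (fun x y y' _ => cfn x y y')
  refine ⟨C, P, dR, cfn, cinj, fun x y h => ⟨cdom x y h, (hP y).2 ⟨x, cdom x y h, h⟩⟩, ctot,
    fun y hy => let ⟨x, _, h⟩ := (hP y).1 hy; ⟨x, h⟩, fun y z hy hz => ?_,
    fun x y x' y' h1 h2 => ⟨fun h => ?_, fun h => (ciff _ _ h2 y).2 ⟨x, h, h1⟩⟩, fun l hl x => ?_⟩
  · obtain ⟨x, -, h⟩ := (hP y).1 hy
    obtain ⟨u, -, h'⟩ := (ciff x y h z).1 hz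
    exact (hP z).2 ⟨u, cdom _ _ h', h'⟩
  · obtain ⟨u, k1, k2⟩ := (ciff _ _ h2 y).1 h
    exact cinj _ _ _ k2 h1 ▸ k1
  · refine mem_ind E (fun x => Rk E x l → C x x) ?_ x
    intro x IH hx
    obtain ⟨y, hy⟩ := ctot x (hl x hx)
    have : y = x := ext' E fun z => (ciff x y hy z).trans ⟨fun ⟨u, h1, h2⟩ =>
      cfn _ _ _ (IH u h1 (hx.mem h1)) h2 ▸ h1, fun h => ⟨z, h, IH z h (hx.mem h)⟩⟩
    exact this ▸ hy

theorem condensation (hC : Choice E) {w κ x : M} (hw : IsOmega E w) (hκ : Good E w κ)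
    (hx : x ∈ KK E (Cof E w)) (hr : Rk E x κ) : ∃ ξ, E ξ κ ∧ Val E (Cof E w) ξ x := by
  obtain ⟨α, hα, hxα⟩ := hκ.lim.rk hr
  obtain ⟨l, β, -, hβ, hαl, hwl, hl, hu, hI⟩ := hκ.2 α hα
  have hxl := hxα.lt hl.1 hαl
  obtain ⟨φ0, h0⟩ := (inferInstance : UD.{u} fun _ E v => ¬ (E (v 0) (v 1) ↔ E (v 0) (v 2))).out
  obtain ⟨φ1, h1⟩ := (inferInstance : UD.{u} fun _ E v => ∃ ξ, Val E (Cof E (v 0)) ξ (v 1)).out
  obtain ⟨φ2, h2⟩ := (inferInstance : UD.{u} fun _ E v => Cof E (v 0) (v 1)).out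
  obtain ⟨φ3, h3⟩ := (inferInstance : UD.{u} fun _ E v => Lin E (v 0)).out
  obtain ⟨φ4, h4⟩ := (inferInstance : UD.{u} fun _ E v => App E (v 0) (v 1) (v 2)).out
  obtain ⟨φ5, h5⟩ := (inferInstance : UD.{u} fun _ E v => ∃ c, IsUPair E c (v 0) (v 1)).out
  obtain ⟨φ6, h6⟩ := (inferInstance : UD.{u} fun _ E v => Fld E (v 0) (v 1)).out
  obtain ⟨Y, e, e1, e2, hY, hTV, hB⟩ := hull_elem hC hw hl hwl hu
    (φ0 :: (φ1.subs ++ φ2.subs ++ φ3.subs ++ φ4.subs ++ φ5.subs ++ φ6.subs))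
  obtain ⟨C, P, dC, cfn, cinj, cdom, ctot, csur, hP, cmem, cid⟩ := collapse (E := E) (Y := Y)
    (fun a b ha hb H => ext' E fun z => by
      by_contra hz
      obtain ⟨z', k1, k2⟩ := hTV φ0 List.mem_cons_self (scons a (fun _ => b))
        (fun i => by cases i <;> assumption) ⟨z, (h0 _ _ _).1 hz⟩
      exact (h0 _ _ _).2 k2 (H z' k1))
  choose π hπ using fun p : {y | E y P} => csur p.1 p.2
  have hι := TEmb.val (E := E) (W := {y | E y P}) hP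
  have hπe : Emb π (Res E {y | E y P}) E :=
    ⟨fun a b h => Subtype.ext (cfn _ _ _ (hπ a) (h ▸ hπ b)), fun a b => cmem _ _ _ _ (hπ a) (hπ b)⟩
  have hπ' : ∀ x (p : {y | E y P}), C x p.1 → π p = x := fun x p h => cinj _ _ _ (hπ p) h
  have hrng : ∀ y, E y Y ↔ ∃ b, π b = y := fun y => ⟨fun hy =>
    let ⟨z, hz⟩ := ctot y hy; ⟨⟨z, (cdom _ _ hz).2⟩, hπ' _ _ hz⟩,
    fun ⟨b, hb⟩ => hb ▸ (cdom _ _ (hπ b)).1⟩
  have el : ∀ φ : Fm, (∀ ψ ∈ φ.subs,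
      ψ ∈ φ1.subs ++ φ2.subs ++ φ3.subs ++ φ4.subs ++ φ5.subs ++ φ6.subs) →
      ∀ v, Sat (Res E {y | E y P}) φ v ↔ Sat E φ (fun i => π (v i)) := fun φ h =>
    tv_elem hrng φ fun ψ hψ => hTV ψ (List.mem_cons_of_mem _ (h ψ hψ))
  have el1 : ∀ a b, (∃ ξ, Val (Res E {y | E y P}) (Cof _ a) ξ b) ↔
      ∃ ξ, Val E (Cof E (π a)) ξ (π b) := fun a b =>
    (h1 _ _ (scons a fun _ => b)).trans ((el φ1 (by simp +contextual) _).trans (h1 _ _ _).symm)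
  have el2 : ∀ a b, Cof (Res E {y | E y P}) a b ↔ Cof E (π a) (π b) := fun a b =>
    (h2 _ _ (scons a fun _ => b)).trans ((el φ2 (by simp +contextual) _).trans (h2 _ _ _).symm)
  have el3 : ∀ a, Lin (Res E {y | E y P}) a ↔ Lin E (π a) := fun a =>
    (h3 _ _ (fun _ => a)).trans ((el φ3 (by simp +contextual) _).trans (h3 _ _ _).symm)
  have el4 : ∀ a b c, App (Res E {y | E y P}) a b c ↔ App E (π a) (π b) (π c) := fun a b c =>
    (h4 _ _ (scons a (scons b fun _ => c))).trans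
      ((el φ4 (by simp +contextual) _).trans (h4 _ _ _).symm)
  have el5 : ∀ a b, ∃ c, IsUPair (Res E {y | E y P}) c a b := fun a b =>
    ((h5 _ _ (scons a fun _ => b)).trans ((el φ5 (by simp +contextual) _).trans
      (h5 _ _ _).symm)).2 (ex_upair E _ _)
  have el6 : ∀ a b, Fld (Res E {y | E y P}) a b ↔ Fld E (π a) (π b) := fun a b =>
    (h6 _ _ (scons a fun _ => b)).trans ((el φ6 (by simp +contextual) _).trans (h6 _ _ _).symm)
  have hp : PEmb (Subtype.val : {y | E y P} → M) (Res E _) E := { hι with pair := el5 }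
  have cw := cid l hY w (hl.1.rk hwl)
  have cx := cid l hY x hxl
  let w' : {y | E y P} := ⟨w, (cdom _ _ cw).2⟩
  let x' : {y | E y P} := ⟨x, (cdom _ _ cx).2⟩
  have pw : π w' = w := hπ' _ _ cw
  have px : π x' = x := hπ' _ _ cx
  have hq : ∀ r, Cof (Res E {y | E y P}) w' r ↔ Cof E w r.1 := fun r => by
    refine ⟨up Subtype.val (Res E {y | E y P}) E (q := Cof E w'.1 r.1), fun hc => ?_⟩
    rw [el2, pw]
    obtain ⟨k1, f, f1, f2, f3⟩ := cof_iff.1 hc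
    have hfl : ∀ n b, App E f n b → E n w ∧ Fld E r.1 b := by
      rintro n b ⟨p, k2, k3⟩
      obtain ⟨n', b', k4, k5, k6⟩ := f1 p k3
      obtain ⟨rfl, rfl⟩ := k2.inj k6
      exact ⟨k4, k5⟩
    have hin : ∀ b, Fld E r.1 b → ∃ b' : {y | E y P}, b'.1 = b := fun b hb =>
      bd Subtype.val (Res E {y | E y P}) E hb
    obtain ⟨f', g1, g2⟩ := ex_rel E w Y (fun n y => ∃ b, App E f n b ∧ C y b)
    refine cof_iff.2 ⟨(el3 r).1 (dn Subtype.val (Res E {y | E y P}) E k1), f', fun p hp => ?_, fun n hn => ?_,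
      fun z hz => ?_⟩
    · obtain ⟨n, y, k2, -, k3, b, k4, k5⟩ := (g1 p).1 hp
      obtain ⟨b, rfl⟩ := hin b (hfl n b k4).2
      exact ⟨n, y, k2, hπ' _ _ k5 ▸ (el6 r b).1 (dn Subtype.val (Res E {y | E y P}) E (hfl n _ k4).2), k3⟩
    · obtain ⟨b, k2, k3⟩ := f2 n hn
      obtain ⟨b, rfl⟩ := hin b (hfl n b k2).2
      refine ⟨π b, (g2 _ _).2 ⟨hn, (hrng _).2 ⟨b, rfl⟩, b.1, k2, hπ b⟩, fun y hy => ?_⟩
      obtain ⟨-, -, b', k4, k5⟩ := (g2 _ _).1 hy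
      obtain rfl := k3 b' k4
      exact (hπ' _ _ k5).symm
    · by_contra hn
      obtain ⟨e0, he⟩ := ex_emp E
      obtain ⟨h, t1, t2⟩ := ex_rel E w Y
        (fun n y => (n = e0 ∧ y = π r) ∨ (n ≠ e0 ∧ ∃ b, App E f n b ∧ C y b))
      have hr0 : App E h e0 (π r) := (t2 _ _).2 ⟨hw.emp he, (hrng _).2 ⟨r, rfl⟩, Or.inl ⟨rfl, rfl⟩⟩
      have hf : Fn E h := fun n y y' k2 k3 => by
        obtain ⟨hn, -, ⟨rfl, rfl⟩ | ⟨k4, b, k5, k6⟩⟩ := (t2 _ _).1 k2 <;>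
          obtain ⟨-, -, ⟨k7, rfl⟩ | ⟨k7, b', k8, k9⟩⟩ := (t2 _ _).1 k3
        · rfl
        · exact (k7 rfl).elim
        · exact (k4 k7).elim
        · obtain rfl := (f2 n hn).unique k5 k8
          exact cinj _ _ _ k6 k9
      obtain ⟨z', z1, e1, r1, z2, z3, z4, z5⟩ := hB h ⟨fun p hp =>
        let ⟨n, y, k2, k3, k4, _⟩ := (t1 p).1 hp; ⟨n, y, k2, k3, k4⟩, hf⟩
        ⟨z, e0, π r, he, hr0, hz, fun n b k2 k3 k4 => by
          obtain ⟨k5, k6, ⟨k7, -⟩ | ⟨-, k7⟩⟩ := (t2 _ _).1 k3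
          · exact k2 k7
          · exact hn ⟨n, b, (g2 _ _).2 ⟨k5, k6, k7⟩, k4⟩⟩
      obtain rfl := he.uniq z2
      obtain rfl := hf _ _ _ hr0 z3
      obtain ⟨a, rfl⟩ := (hrng _).1 z1
      have ha : Fld E r.1 a.1 := up Subtype.val (Res E {y | E y P}) E ((el6 r a).2 z4)
      have : ∃ n b, n ≠ e0 ∧ App E f n b ∧ App E r.1 a.1 b := by
        obtain ⟨n, b, k2, k3⟩ := f3 _ ha
        by_cases hne : n = e0
        · obtain ⟨m, b', k4, k5⟩ := f3 b (hfl n b k2).2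
          refine ⟨m, b', fun hm => ?_, k4, k1.2.1 _ _ _ k3 k5⟩
          subst hne hm
          obtain rfl := (f2 _ (hfl _ _ k2).1).unique k2 k4
          exact k1.1 _ k5
        · exact ⟨n, b, hne, k2, k3⟩
      obtain ⟨n, b, k2, k3, k4⟩ := this
      obtain ⟨b, rfl⟩ := hin b (hfl n b k3).2
      exact z5 n (π b) k2 ((t2 _ _).2 ⟨(hfl _ _ k3).1, (hrng _).2 ⟨b, rfl⟩,
        Or.inr ⟨k2, b.1, k3, hπ b⟩⟩) ((el4 r a b).1 (dn Subtype.val (Res E {y | E y P}) E k4))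
  obtain ⟨ξ, hξ⟩ := (el1 w' x').2 (by rw [pw, px]; exact hx)
  have hξ' : Val E (Cof E w) ξ.1 x :=
    hξ.up (j := Subtype.val) (dCof w) (fun s _ _ _ _ _ => hq s)
  refine ⟨ξ.1, hκ.1.tr hβ ?_, hξ'⟩
  by_contra hn
  refine hI (Img.mono ?_ (((hκ.1.mem hβ).le_of_not hξ'.ord hn).sub hξ'.ord))
  obtain ⟨v, hv⟩ := ex_V hl.1
  obtain ⟨F, -, hF⟩ := ex_rel E v P (fun t z => ∃ y, App E e t y ∧ C y z)
  refine ⟨F, fun t z z' k1 k2 => ?_, fun z hz => ?_⟩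
  · obtain ⟨-, -, y, k3, k4⟩ := (hF _ _).1 k1
    obtain ⟨-, -, y', k5, k6⟩ := (hF _ _).1 k2
    obtain rfl := e1 _ _ _ k3 k5
    exact cfn _ _ _ k4 k6
  · have hzP := hP _ _ ξ.2 hz
    obtain ⟨y, hy⟩ := csur z hzP
    obtain ⟨t, k1, k2⟩ := e2 y (cdom _ _ hy).1
    exact ⟨t, k1, (hF _ _).2 ⟨(hv t).2 k1, hzP, y, k2, hy⟩⟩

end Pool.Agent.Lib.MP_1d770b_lc
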