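import Pool.Agent.Lib.MP_1d770b_lc.K

/-! The definable power set operation: closure properties and absoluteness. -/

set_option synthInstance.maxSize 100000

namespace Pool.Agent.Lib.MP_1d770b_lc

universe u
variable {M N : Type u} {E : M → M → Prop} {E' : N → N → Prop} {j : N → M}

def InDf (E : M → M → Prop) (w : M) (q : M → Prop) (x R : M) : Prop :=
  ∀ F, Closed E w q x F → E R F

instance (a b c : (ℕ → M) → M) [IsT a] [IsT b] [IsT c] (q : (ℕ → M) → M → Prop) [hq : DQ E q] :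
    Df E fun v => InDf E (a v) (q v) (b v) (c v) := by
  have := hq.dv
  unfold InDf; infer_instance

theorem InDf.step {w x i k R₁ R₂ R : M} {q : M → Prop} (r : Fin 6) (hi : E i w) (hk : E k w)
    (h : 2 ≤ r → InDf E w q x R₁ ∧ InDf E w q x R₂)
    (hR : ∀ s, E s R ↔ Asg E w x s ∧ Clause E q x i k R₁ R₂ s r) : InDf E w q x R :=
  fun F hF => hF r i k R₁ R₂ R hi hk (fun hr => ⟨(h hr).1 F hF, (h hr).2 F hF⟩) hR

theorem cof_congr {w r r' : M} (h : ∀ a b, App E r a b ↔ App E r' a b) :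
    Cof E w r ↔ Cof E w r' := by
  unfold Cof Fld; simp only [h]

theorem IsDef.sub {w y x z : M} {q : M → Prop} (h : IsDef E w q y x) (hz : E z y) : Sub E z x := by
  obtain ⟨R, s, i, -, -, -, H⟩ := (h z).1 hz
  exact fun a ha => ((H a).1 ha).1

theorem Asg.fn {w x s : M} (h : Asg E w x s) : Fn E s := let ⟨_, _, h⟩ := h; h.2

section
variable [hZ : ZF E] {w x : M} {q : M → Prop}

variable (E) in
theorem ex_asg (hw : IsOmega E w) (x : M) : ∃ A, ∀ s, E s A ↔ Asg E w x s := by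
  obtain ⟨r, hr, -⟩ := ex_rel E w x (fun _ _ => True)
  obtain ⟨p, hp⟩ := ex_pow E r
  obtain ⟨A, hA⟩ := sep E p (fun s => Asg E w x s)
  refine ⟨A, fun s => (hA s).trans ⟨fun h => h.2, fun h => ⟨(hp s).2 fun z hz => ?_, h⟩⟩⟩
  obtain ⟨n, hn, h, -⟩ := h
  obtain ⟨i, a, h1, h2, h3⟩ := h z hz
  exact (hr z).2 ⟨i, a, hw.ord.tr hn h1, h2, h3, trivial⟩

theorem asg_emp (hw : IsOmega E w) {e : M} (he : IsEmp E e) : Asg E w x e :=
  ⟨e, hw.emp he, fun p hp => (he p hp).elim, fun _ _ _ ⟨p, _, hp⟩ => (he p hp).elim⟩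

theorem asg_upd (hw : IsOmega E w) {s i a : M} (hs : Asg E w x s) (hi : E i w) (ha : E a x)
    (hn : ∀ c, ¬ App E s i c) : ∃ t, Asg E w x t ∧ Upd E s i a t := by
  obtain ⟨p, hp⟩ := ex_opair E i a
  obtain ⟨t, ht⟩ := ex_ins E s p
  obtain ⟨h1, h2⟩ := upd_ins hp ht hs.fn hn
  obtain ⟨n, hn, h3, -⟩ := hs
  obtain ⟨m, hm, h4, h5⟩ := hw.lim.two hn hi
  refine ⟨t, ⟨m, hm, fun z hz => ?_, h1⟩, h2⟩
  rcases (ht z).1 hz with hz | rfl
  · obtain ⟨k, b, h6, h7, h8⟩ := h3 z hz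
    exact ⟨k, b, (hw.ord.mem hm).tr h4 h6, h7, h8⟩
  · exact ⟨i, a, h5, ha, hp⟩

theorem asg_adm (hw : IsOmega E w) (x : M) :
    Adm (Subtype.val : {y | E y x} → M) E (fun y => E y x) (Asg E w x) where
  rng := fun y => ⟨fun hy => ⟨⟨y, hy⟩, rfl⟩, fun ⟨b, hb⟩ => hb ▸ b.2⟩
  fn := fun _ ht => ht.fn
  emp := fun _ he => asg_emp hw he
  upd := fun _ n _ hs ha hn => asg_upd hw hs (num_mem hw n) ha hn

theorem ex_truth (hw : IsOmega E w) (x : M) (φ : Fm) (ρ : ℕ → ℕ) (n : ℕ) :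
    ∃ R, ∀ s, E s R ↔ Asg E w x s ∧ SatA E (fun y => E y x) (Asg E w x) φ ρ n s := by
  have := SatA.df (E := E) (W := fun y => E y x) (T := Asg E w x) (fun _ _ => inferInstance)
    (fun _ _ => inferInstance) φ ρ n
  obtain ⟨A, hA⟩ := ex_asg E hw x
  obtain ⟨R, hR⟩ := sep E A (fun s => SatA E (fun y => E y x) (Asg E w x) φ ρ n s)
  exact ⟨R, fun s => by rw [hR, hA]⟩

theorem inDf_truth (hw : IsOmega E w) (φ : Fm) : ∀ (ρ : ℕ → ℕ) (n : ℕ) (R : M),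
    (∀ s, E s R ↔ Asg E w x s ∧ SatA E (fun y => E y x) (Asg E w x) φ ρ n s) →
      InDf E w q x R := by
  have h0 := num_mem hw 0
  induction φ with
  | mem i k =>
    intro ρ n R hR
    exact InDf.step (R₁ := R) (R₂ := R) 0 (num_mem hw (ρ i)) (num_mem hw (ρ k))
      (fun h => absurd h (by decide)) hR
  | eq i k =>
    intro ρ n R hR
    exact InDf.step (R₁ := R) (R₂ := R) 1 (num_mem hw (ρ i)) (num_mem hw (ρ k))
      (fun h => absurd h (by decide)) hR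
  | neg φ ih =>
    intro ρ n R hR
    obtain ⟨R1, h1⟩ := ex_truth hw x φ ρ n
    refine InDf.step 2 h0 h0 (fun _ => ⟨ih ρ n R1 h1, ih ρ n R1 h1⟩) fun s => ?_
    rw [hR]; simp only [Clause, SatA, h1]; tauto
  | and φ ψ ih1 ih2 =>
    intro ρ n R hR
    obtain ⟨R1, h1⟩ := ex_truth hw x φ ρ n
    obtain ⟨R2, h2⟩ := ex_truth hw x ψ ρ n
    refine InDf.step 3 h0 h0 (fun _ => ⟨ih1 ρ n R1 h1, ih2 ρ n R2 h2⟩) fun s => ?_
    rw [hR]; simp only [Clause, SatA, h1, h2]; tauto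
  | ex φ ih =>
    intro ρ n R hR
    obtain ⟨R1, h1⟩ := ex_truth hw x φ (scons n ρ) (n + 1)
    refine InDf.step 4 (num_mem hw n) h0 (fun _ => ⟨ih _ _ R1 h1, ih _ _ R1 h1⟩) fun s => ?_
    rw [hR]; simp only [Clause, SatA, h1]

theorem ex_def (dq : D1 E q) (w x : M) : ∃ y, IsDef E w q y x := by
  obtain ⟨p, hp⟩ := ex_pow E x
  obtain ⟨y, hy⟩ := sep E p (fun z => ∃ R s i, InDf E w q x R ∧ Asg E w x s ∧ E i w ∧
    ∀ a, E a z ↔ (E a x ∧ ∃ t, Upd E s i a t ∧ E t R))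
  refine ⟨y, fun z => (hy z).trans ⟨fun h => h.2, fun h => ⟨(hp z).2 fun a ha => ?_, h⟩⟩⟩
  obtain ⟨R, s, i, -, -, -, H⟩ := h
  exact ((H a).1 ha).1

theorem IsDef.self (hw : IsOmega E w) {y : M} (h : IsDef E w q y x) : E x y := by
  obtain ⟨R, hR⟩ := ex_truth hw x (.eq 0 0) id 0
  obtain ⟨e, he⟩ := ex_emp E
  refine (h x).2 ⟨R, e, num E 0, inDf_truth hw _ _ _ _ hR, asg_emp hw he, num_mem hw 0,
    fun a => ⟨fun ha => ⟨ha, ?_⟩, fun h => h.1⟩⟩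
  obtain ⟨t, ht, hu⟩ := asg_upd hw (asg_emp (x := x) hw he) (num_mem hw 0) ha
    (fun _ ⟨p, _, hp⟩ => he p hp)
  exact ⟨t, hu, (hR t).2 ⟨ht, a, hu.1, hu.1⟩⟩

theorem IsDef.of_df (hw : IsOmega E w) {y z a : M} (h : IsDef E w q y x) (ha : E a x)
    (P : {y | E y x} → Prop) [hP : Df (Res E {y | E y x}) (fun v => P (v 0))]
    (hz : Sub E z x) (H : ∀ b : {y | E y x}, E b.1 z ↔ P b) : E z y := by
  have : Nonempty {y | E y x} := ⟨⟨a, ha⟩⟩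
  have h1 := hP.d1
  obtain ⟨φ, v, hφ⟩ := D2.definable (E := Res E {y | E y x}) (S := fun x _ => P x)
    (fun s _ _ _ => h1 s)
  obtain ⟨s, hs, -, h2, h3⟩ := (asg_adm hw x).sect (E' := Res E {y | E y x}) φ (scons ⟨a, ha⟩ v)
  obtain ⟨R, hR⟩ := ex_truth hw x φ φ.nm (φ.fv + 2)
  refine (h z).2 ⟨R, s, num E (φ.fv + 1), inDf_truth hw _ _ _ _ hR, hs, num_mem hw _,
    fun b => ⟨fun hb => ⟨hz b hb, ?_⟩, ?_⟩⟩
  · obtain ⟨t, ht, hu⟩ := h2 ⟨b, hz b hb⟩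
    exact ⟨t, hu, (hR t).2 ⟨ht, (h3 _ t ht hu).2 ((hφ _ _).1 ((H ⟨b, hz b hb⟩).1 hb))⟩⟩
  · rintro ⟨hb, t, hu, ht⟩
    obtain ⟨ht, hS⟩ := (hR t).1 ht
    exact (H ⟨b, hb⟩).2 ((hφ _ _).2 ((h3 ⟨b, hb⟩ t ht hu).1 hS))

theorem IsDef.sup (hw : IsOmega E w) {y : M} (h : IsDef E w q y x) (hx : Trans E x) :
    Sub E x y := fun a ha =>
  h.of_df hw ha (fun b => Res E {y | E y x} b ⟨a, ha⟩) (fun _ hb => hx _ _ ha hb) fun _ => Iff.rfl

theorem IsDef.cof (hw : IsOmega E w) {y z : M} (h : IsDef E w (Cof E w) y x) (hx : Trans E x)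
    (hz : ∀ ρ, E ρ z ↔ E ρ x ∧ Cof E w ρ) : E z y := by
  have := TEmb.val (E := E) (W := {y | E y x}) hx
  obtain ⟨φ, hφ⟩ := (inferInstance : UD.{u} fun _ E v => App E (v 0) (v 1) (v 2)).out
  let ρ : ℕ → ℕ := scons 0 (scons 1 (fun _ => 2))
  obtain ⟨R1, h1⟩ := ex_truth hw x φ ρ 3
  obtain ⟨A, hA⟩ := ex_asg E hw x
  have n01 : num E 0 ≠ num E 1 := num_ne (by decide)
  have n02 : num E 0 ≠ num E 2 := num_ne (by decide)
  have n12 : num E 1 ≠ num E 2 := num_ne (by decide)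
  obtain ⟨R, hR⟩ := sep E A (fun s => Clause E (Cof E w) x (num E 1) (num E 2) R1 R1 s 5)
  have hin : InDf E w (Cof E w) x R := InDf.step 5 (num_mem hw 1) (num_mem hw 2)
    (fun _ => ⟨inDf_truth hw _ _ _ _ h1, inDf_truth hw _ _ _ _ h1⟩) fun s => by rw [hR, hA]
  obtain ⟨e, he⟩ := ex_emp E
  have key : ∀ r s, E r x → Asg E w x s → Upd E e (num E 0) r s → ∀ p,
      (∃ a b t, E a x ∧ E b x ∧ IsOPair E p a b ∧ E t R1 ∧ App E t (num E 1) a ∧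
        App E t (num E 2) b ∧ ∀ k c, k ≠ num E 1 → k ≠ num E 2 → (App E t k c ↔ App E s k c)) ↔
      ∃ a b, E a x ∧ E b x ∧ IsOPair E p a b ∧ App E r a b := by
    intro r s hr hs hu p
    have fresh : ∀ k c, k ≠ num E 0 → ¬ App E s k c := fun k c hk hc =>
      let ⟨p, _, hp⟩ := (hu.2 k c hk).1 hc; he p hp
    have k2 : ∀ a b t (ha : E a x) (hb : E b x), Asg E w x t → App E t (num E 1) a →
        App E t (num E 2) b → (∀ k c, k ≠ num E 1 → k ≠ num E 2 → (App E t k c ↔ App E s k c)) →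
        (SatA E (fun y => E y x) (Asg E w x) φ ρ 3 t ↔ App E r a b) := by
      intro a b t ha hb ht t1 t2 t3
      rw [satA_iff (E' := Res E {y | E y x}) (asg_adm hw x) φ ρ 3 t
        (scons ⟨r, hr⟩ (scons ⟨a, ha⟩ (fun _ => ⟨b, hb⟩))) ?_ ht ?_ ?_, ← hφ]
      · exact ⟨up Subtype.val (Res E {y | E y x}) E
          (q := App E (⟨r, hr⟩ : {y | E y x}).1 (⟨a, ha⟩ : {y | E y x}).1
            (⟨b, hb⟩ : {y | E y x}).1) (p := App (Res E {y | E y x}) ⟨r, hr⟩ ⟨a, ha⟩ ⟨b, hb⟩),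
          dn Subtype.val (Res E {y | E y x}) E
          (q := App E (⟨r, hr⟩ : {y | E y x}).1 (⟨a, ha⟩ : {y | E y x}).1
            (⟨b, hb⟩ : {y | E y x}).1) (p := App (Res E {y | E y x}) ⟨r, hr⟩ ⟨a, ha⟩ ⟨b, hb⟩)⟩
      · intro i
        match i with
        | 0 => decide
        | 1 => decide
        | _ + 2 => exact Nat.lt_succ_self 2
      · intro i
        match i with
        | 0 => exact (t3 _ _ n01 n02).2 hu.1
        | 1 => exact t1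
        | _ + 2 => exact t2
      · intro m c hm hc
        exact fresh _ _ (num_ne (by omega)) ((t3 _ _ (num_ne (by omega)) (num_ne (by omega))).1 hc)
    constructor
    · rintro ⟨a, b, t, ha, hb, hp, ht, t1, t2, t3⟩
      obtain ⟨ht, hS⟩ := (h1 t).1 ht
      exact ⟨a, b, ha, hb, hp, (k2 a b t ha hb ht t1 t2 t3).1 hS⟩
    · rintro ⟨a, b, ha, hb, hp, hab⟩
      obtain ⟨t', ht', hu'⟩ := asg_upd hw hs (num_mem hw 1) ha (fun c => fresh _ c n01.symm)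
      obtain ⟨t, ht, hu''⟩ := asg_upd hw ht' (num_mem hw 2) hb
        (fun c hc => fresh _ c n02.symm ((hu'.2 _ _ n12.symm).1 hc))
      have t1 := (hu''.2 _ _ n12).2 hu'.1
      have t3 : ∀ k c, k ≠ num E 1 → k ≠ num E 2 → (App E t k c ↔ App E s k c) :=
        fun k c k1 k2 => (hu''.2 k c k2).trans (hu'.2 k c k1)
      exact ⟨a, b, t, ha, hb, hp, (h1 t).2 ⟨ht, (k2 a b t ha hb ht t1 hu''.1 t3).2 hab⟩, t1,
        hu''.1, t3⟩
  have happ : ∀ r a b, E r x → App E r a b → E a x ∧ E b x := by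
    rintro r a b hr ⟨p, ⟨s, t, _, ht, hp⟩, hpf⟩
    have := hx _ _ (hx _ _ hr hpf) ((hp t).2 (Or.inr rfl))
    exact ⟨hx _ _ this ((ht a).2 (Or.inl rfl)), hx _ _ this ((ht b).2 (Or.inr rfl))⟩
  have key2 : ∀ r r', E r x → (∀ p, E p r' ↔ ∃ a b, E a x ∧ E b x ∧ IsOPair E p a b ∧
      App E r a b) → (Cof E w r' ↔ Cof E w r) := fun r r' hr H => cof_congr fun a b => by
    constructor
    · rintro ⟨p, hp, hpr⟩
      obtain ⟨a', b', -, -, h2, h3⟩ := (H p).1 hpr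
      obtain ⟨rfl, rfl⟩ := hp.inj h2
      exact h3
    · intro hab
      obtain ⟨p, hp⟩ := ex_opair E a b
      exact ⟨p, hp, (H p).2 ⟨a, b, (happ r a b hr hab).1, (happ r a b hr hab).2, hp, hab⟩⟩
  refine (h z).2 ⟨R, e, num E 0, hin, asg_emp hw he, num_mem hw 0, fun r => (hz r).trans
    (and_congr_right fun hr => ⟨fun hc => ?_, ?_⟩)⟩
  · obtain ⟨s, hs, hu⟩ := asg_upd hw (asg_emp (x := x) hw he) (num_mem hw 0) hr
      (fun _ ⟨p, _, hp⟩ => he p hp)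
    obtain ⟨r', hr', -⟩ := ex_rel E x x (fun a b => App E r a b)
    exact ⟨s, hu, (hR s).2 ⟨(hA s).2 hs, n12, r', (key2 r r' hr hr').2 hc,
      fun p => (hr' p).trans (key r s hr hs hu p).symm⟩⟩
  · rintro ⟨s, hu, hs⟩
    obtain ⟨hs, -, r', h2, h3⟩ := (hR s).1 hs
    exact (key2 r r' hr fun p => (h3 p).trans (key r s hr ((hA s).1 hs) hu p)).1 h2

def Just (E : M → M → Prop) (w : M) (q : M → Prop) (x D : M) : Prop :=
  ∀ n R, App E D n R → ∃ (r : Fin 6), ∃ i k R₁ R₂, E i w ∧ E k w ∧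
    (2 ≤ r → (∃ m, E m n ∧ App E D m R₁) ∧ ∃ m, E m n ∧ App E D m R₂) ∧
    ∀ s, E s R ↔ Asg E w x s ∧ Clause E q x i k R₁ R₂ s r

theorem InDf.just (hw : IsOmega E w) (dq : D1 E q) {R : M} (h : InDf E w q x R) :
    ∃ D n, Just E w q x D ∧ App E D n R := by
  have dJ : D1 E (Just E w q x) := fun _ _ => by unfold Just; infer_instance
  obtain ⟨A, hA⟩ := ex_asg E hw x
  obtain ⟨p, hp⟩ := ex_pow E A
  obtain ⟨F, hF⟩ := sep E p (fun R => ∃ D n, Just E w q x D ∧ App E D n R)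
  refine ((hF R).1 (h F fun r i k R₁ R₂ R hi hk h2 hR => (hF R).2
    ⟨(hp R).2 fun s hs => (hA s).2 ((hR s).1 hs).1, ?_⟩)).2
  have : ∃ D n, Just E w q x D ∧
      (2 ≤ r → (∃ m, E m n ∧ App E D m R₁) ∧ ∃ m, E m n ∧ App E D m R₂) := by
    by_cases hr : 2 ≤ r
    · obtain ⟨D1, n1, h3, h4⟩ := ((hF _).1 (h2 hr).1).2
      obtain ⟨D2, n2, h5, h6⟩ := ((hF _).1 (h2 hr).2).2
      obtain ⟨D, hD⟩ := ex_union E D1 D2
      obtain ⟨n, hn⟩ := ex_upair E n1 n2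
      have s1 : Sub E D1 D := fun z hz => (hD z).2 (Or.inl hz)
      have s2 : Sub E D2 D := fun z hz => (hD z).2 (Or.inr hz)
      refine ⟨D, n, fun n' R' ⟨z, hz, hzD⟩ => ?_, fun _ => ⟨⟨n1, (hn _).2 (Or.inl rfl),
        h4.mono s1⟩, n2, (hn _).2 (Or.inr rfl), h6.mono s2⟩⟩
      rcases (hD z).1 hzD with h | h
      · obtain ⟨r, i, k, R₁, R₂, k1, k2, k3, k4⟩ := h3 n' R' ⟨z, hz, h⟩
        exact ⟨r, i, k, R₁, R₂, k1, k2, fun hr => ⟨(k3 hr).1.imp fun m h => ⟨h.1, h.2.mono s1⟩,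
          (k3 hr).2.imp fun m h => ⟨h.1, h.2.mono s1⟩⟩, k4⟩
      · obtain ⟨r, i, k, R₁, R₂, k1, k2, k3, k4⟩ := h5 n' R' ⟨z, hz, h⟩
        exact ⟨r, i, k, R₁, R₂, k1, k2, fun hr => ⟨(k3 hr).1.imp fun m h => ⟨h.1, h.2.mono s2⟩,
          (k3 hr).2.imp fun m h => ⟨h.1, h.2.mono s2⟩⟩, k4⟩
    · obtain ⟨e, he⟩ := ex_emp E
      exact ⟨e, e, fun _ _ ⟨z, _, hz⟩ => (he z hz).elim, fun h => (hr h).elim⟩
  obtain ⟨D, n, h3, h4⟩ := this
  obtain ⟨z, hz⟩ := ex_opair E n R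
  obtain ⟨D', hD'⟩ := ex_ins E D z
  have s1 : Sub E D D' := fun z hz => (hD' z).2 (Or.inl hz)
  refine ⟨D', n, fun n' R' h => ?_, z, hz, (hD' z).2 (Or.inr rfl)⟩
  rcases (app_ins hz hD' _ _).1 h with h | ⟨rfl, rfl⟩
  · obtain ⟨r, i, k, R₁, R₂, k1, k2, k3, k4⟩ := h3 n' R' h
    exact ⟨r, i, k, R₁, R₂, k1, k2, fun hr => ⟨(k3 hr).1.imp fun m h => ⟨h.1, h.2.mono s1⟩,
      (k3 hr).2.imp fun m h => ⟨h.1, h.2.mono s1⟩⟩, k4⟩
  · exact ⟨r, i, k, R₁, R₂, hi, hk, fun hr => ⟨(h4 hr).1.imp fun m h => ⟨h.1, h.2.mono s1⟩,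
      (h4 hr).2.imp fun m h => ⟨h.1, h.2.mono s1⟩⟩, hR⟩

end

section
variable [hZ : ZF E] [hZ' : ZF E'] [hj : TEmb j E' E] {w x : N} {q : M → Prop} {q' : N → Prop}

theorem asg_rng (hw : IsOmega E' w) {s : M} (hs : Asg E (j w) (j x) s) : ∃ s', j s' = s := by
  obtain ⟨A, hA⟩ := ex_asg E' hw x
  have hw' := omega_up (j := j) (E := E) hw
  obtain ⟨n, hn, hs⟩ := hs
  refine hj.tr A s (hw'.ind (fun n => ∀ s, PFun E s n (j x) → E s (j A)) ?_ ?_ n hn s hs)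
  · intro e he s hs
    obtain ⟨e', he'⟩ := ex_emp E'
    have : s = j e' := IsEmp.uniq (fun p hp => let ⟨i, _, hi, _⟩ := hs.1 p hp; he i hi)
      (up j E' E he')
    exact this ▸ up j E' E ((hA e').2 (asg_emp hw he'))
  · intro n n' hn hn' IH s hs
    obtain ⟨s0, hs0⟩ := sep E s (fun p => ∀ a, ¬ IsOPair E p n a)
    have h0 : PFun E s0 n (j x) := by
      refine ⟨fun p hp => ?_, fun i a b ha hb => hs.2 i a b
        (ha.mono fun z hz => ((hs0 z).1 hz).1) (hb.mono fun z hz => ((hs0 z).1 hz).1)⟩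
      obtain ⟨h1, h2⟩ := (hs0 p).1 hp
      obtain ⟨i, a, h3, h4, h5⟩ := hs.1 p h1
      rcases (hn' i).1 h3 with h | rfl
      · exact ⟨i, a, h, h4, h5⟩
      · exact (h2 a h5).elim
    obtain ⟨t0, rfl⟩ := hj.tr _ _ (IH s0 h0)
    have : ∃ t, j t = s := by
      by_cases h : ∃ a, App E s n a
      · obtain ⟨a, p, hp, hps⟩ := h
        obtain ⟨i, a', -, h4, h5⟩ := hs.1 p hps
        obtain ⟨rfl, rfl⟩ := hp.inj h5
        obtain ⟨n, rfl⟩ := hj.tr _ _ hn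
        obtain ⟨a, rfl⟩ := hj.tr _ _ h4
        obtain ⟨p, rfl⟩ : ∃ b, j b = p := bd j E' E hp
        obtain ⟨t, ht⟩ := ex_ins E' t0 p
        have ht' : ∀ z, E z (j t) ↔ E z (j t0) ∨ z = j p := up j E' E ht
        refine ⟨t, ext' E fun z => (ht' z).trans ⟨?_, fun hz => ?_⟩⟩
        · rintro (hz | rfl)
          · exact ((hs0 z).1 hz).1
          · exact hps
        · by_cases h6 : ∃ b, IsOPair E z (j n) b
          · obtain ⟨b, hb⟩ := h6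
            obtain rfl := hs.2 _ _ _ ⟨z, hb, hz⟩ ⟨_, hp, hps⟩
            exact Or.inr (hb.uniq hp)
          · exact Or.inl ((hs0 z).2 ⟨hz, fun b hb => h6 ⟨b, hb⟩⟩)
      · exact ⟨t0, ext' E fun z => (hs0 z).trans ⟨fun h => h.1, fun hz =>
          ⟨hz, fun a ha => h ⟨a, z, ha, hz⟩⟩⟩⟩
    obtain ⟨t, rfl⟩ := this
    exact up j E' E ((hA t).2 (dn j E' E (q := Asg E (j w) (j x) (j t)) ⟨n', hw'.suc hn' hn, hs⟩))

theorem clause_abs
    (hq : ∀ r, (∀ p, E' p r → ∃ a b, E' a x ∧ E' b x ∧ IsOPair E' p a b) → (q' r ↔ q (j r)))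
    (i k R₁ R₂ s : N) (r : Fin 6) :
    Clause E' q' x i k R₁ R₂ s r ↔ Clause E q (j x) (j i) (j k) (j R₁) (j R₂) (j s) r := by
  fin_cases r
  all_goals simp only [Clause]
  · exact ⟨up j E' E, dn j E' E⟩
  · exact ⟨up j E' E, dn j E' E⟩
  · exact ⟨up j E' E, dn j E' E⟩
  · exact ⟨up j E' E, dn j E' E⟩
  · exact ⟨up j E' E, dn j E' E⟩
  constructor
  · rintro ⟨h1, r, h2, h3⟩
    refine ⟨up j E' E h1, j r, (hq r fun p hp => ?_).1 h2, up j E' E h3⟩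
    obtain ⟨a, b, t, k1, k2, k3, -⟩ := (h3 p).1 hp
    exact ⟨a, b, k1, k2, k3⟩
  · rintro ⟨h1, r, h2, h3⟩
    obtain ⟨r', h4, -⟩ := ex_rel E' x x (fun a b => ∃ t, E' t R₁ ∧ App E' t i a ∧ App E' t k b ∧
      ∀ l c, l ≠ i → l ≠ k → (App E' t l c ↔ App E' s l c))
    have h5 : ∀ p, E' p r' ↔ ∃ a b t, E' a x ∧ E' b x ∧ IsOPair E' p a b ∧ E' t R₁ ∧
        App E' t i a ∧ App E' t k b ∧ ∀ l c, l ≠ i → l ≠ k → (App E' t l c ↔ App E' s l c) :=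
      fun p => (h4 p).trans ⟨fun ⟨a, b, k1, k2, k3, t, k4⟩ => ⟨a, b, t, k1, k2, k3, k4⟩,
        fun ⟨a, b, t, k1, k2, k3, k4⟩ => ⟨a, b, k1, k2, k3, t, k4⟩⟩
    have h6 : ∀ p, E p (j r') ↔ ∃ a b t, E a (j x) ∧ E b (j x) ∧ IsOPair E p a b ∧ E t (j R₁) ∧
        App E t (j i) a ∧ App E t (j k) b ∧
        ∀ l c, l ≠ j i → l ≠ j k → (App E t l c ↔ App E (j s) l c) := up j E' E h5
    obtain rfl : r = j r' := ext' E fun p => (h3 p).trans (h6 p).symm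
    refine ⟨dn j E' E h1, r', (hq r' fun p hp => ?_).2 h2, h5⟩
    obtain ⟨a, b, k1, k2, k3, -⟩ := (h4 p).1 hp
    exact ⟨a, b, k1, k2, k3⟩

theorem char_up (hw : IsOmega E' w)
    (hq : ∀ r, (∀ p, E' p r → ∃ a b, E' a x ∧ E' b x ∧ IsOPair E' p a b) → (q' r ↔ q (j r)))
    {i k R₁ R₂ R : N} {r : Fin 6}
    (h : ∀ s, E' s R ↔ Asg E' w x s ∧ Clause E' q' x i k R₁ R₂ s r) (s : M) :
    E s (j R) ↔ Asg E (j w) (j x) s ∧ Clause E q (j x) (j i) (j k) (j R₁) (j R₂) s r := by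
  constructor
  · intro hs
    obtain ⟨s, rfl⟩ := hj.tr _ _ hs
    obtain ⟨h1, h2⟩ := (h s).1 (dn j E' E hs)
    exact ⟨up j E' E h1, (clause_abs hq _ _ _ _ _ _).1 h2⟩
  · rintro ⟨h1, h2⟩
    obtain ⟨s, rfl⟩ := asg_rng hw h1
    exact up j E' E ((h s).2 ⟨dn j E' E h1, (clause_abs hq _ _ _ _ _ _).2 h2⟩)

theorem inDf_dn (hw : IsOmega E' w) (dq' : D1 E' q')
    (hq : ∀ r, (∀ p, E' p r → ∃ a b, E' a x ∧ E' b x ∧ IsOPair E' p a b) → (q' r ↔ q (j r)))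
    {R : M} (h : InDf E (j w) q (j x) R) : ∃ R', j R' = R ∧ InDf E' w q' x R' := by
  obtain ⟨A, hA⟩ := ex_asg E' hw x
  obtain ⟨p, hp⟩ := ex_pow E' A
  obtain ⟨F, hF⟩ := sep E' p (fun R => InDf E' w q' x R)
  have : E R (j F) := by
    refine h (j F) fun r i k R₁ R₂ R hi hk h2 hR => ?_
    obtain ⟨i, rfl⟩ := hj.tr _ _ hi
    obtain ⟨k, rfl⟩ := hj.tr _ _ hk
    have : ∃ S₁ S₂, (2 ≤ r → InDf E' w q' x S₁ ∧ InDf E' w q' x S₂) ∧ ∀ s,
        Clause E q (j x) (j i) (j k) R₁ R₂ s r ↔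
          Clause E q (j x) (j i) (j k) (j S₁) (j S₂) s r := by
      by_cases hr : 2 ≤ r
      · obtain ⟨S₁, rfl⟩ := hj.tr _ _ (h2 hr).1
        obtain ⟨S₂, rfl⟩ := hj.tr _ _ (h2 hr).2
        exact ⟨S₁, S₂, fun _ => ⟨((hF _).1 (dn j E' E (h2 hr).1)).2,
          ((hF _).1 (dn j E' E (h2 hr).2)).2⟩, fun _ => Iff.rfl⟩
      · refine ⟨A, A, fun h => (hr h).elim, fun s => ?_⟩
        fin_cases r
        · exact Iff.rfl
        · exact Iff.rfl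
        all_goals exact absurd (by decide) hr
    obtain ⟨S₁, S₂, h3, h4⟩ := this
    obtain ⟨R', hR'⟩ := sep E' A (fun s => Clause E' q' x i k S₁ S₂ s r)
    have h5 : ∀ s, E' s R' ↔ Asg E' w x s ∧ Clause E' q' x i k S₁ S₂ s r := fun s => by
      rw [hR', hA]
    obtain rfl : R = j R' := ext' E fun s => by rw [hR, char_up (E := E) hw hq h5, h4]
    exact up j E' E ((hF R').2 ⟨(hp R').2 fun s hs => ((hR' s).1 hs).1,
      InDf.step r (dn j E' E hi) (dn j E' E hk) h3 h5⟩)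
  obtain ⟨R', rfl⟩ := hj.tr _ _ this
  exact ⟨R', rfl, ((hF R').1 (dn j E' E this)).2⟩

theorem inDf_up (hw : IsOmega E' w) (dq : D1 E q) (dq' : D1 E' q')
    (hq : ∀ r, (∀ p, E' p r → ∃ a b, E' a x ∧ E' b x ∧ IsOPair E' p a b) → (q' r ↔ q (j r)))
    {R : N} (h : InDf E' w q' x R) : InDf E (j w) q (j x) (j R) := by
  obtain ⟨D, n, hD, hR⟩ := h.just hw dq'
  refine mem_ind E (fun n => ∀ R, App E (j D) n R → InDf E (j w) q (j x) R) ?_ (j n) _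
    (up j E' E hR)
  intro n IH R hR
  obtain ⟨n, rfl⟩ : ∃ b, j b = n := bd j E' E hR
  obtain ⟨R, rfl⟩ : ∃ b, j b = R := bd j E' E hR
  obtain ⟨r, i, k, R₁, R₂, k1, k2, k3, k4⟩ := hD n R (dn j E' E hR)
  refine InDf.step r (up j E' E k1) (up j E' E k2) (fun hr => ?_) (char_up hw hq k4)
  obtain ⟨⟨m1, h1, h2⟩, m2, h3, h4⟩ := k3 hr
  exact ⟨IH (j m1) (up j E' E h1) _ (up j E' E h2), IH (j m2) (up j E' E h3) _ (up j E' E h4)⟩

theorem def_up (hw : IsOmega E' w) (dq : D1 E q) (dq' : D1 E' q')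
    (hq : ∀ r, (∀ p, E' p r → ∃ a b, E' a x ∧ E' b x ∧ IsOPair E' p a b) → (q' r ↔ q (j r)))
    {y : N} (h : IsDef E' w q' y x) : IsDef E (j w) q (j y) (j x) := by
  intro z
  constructor
  · intro hz
    obtain ⟨z, rfl⟩ := hj.tr _ _ hz
    obtain ⟨R, s, i, h1, h2, h3, h4⟩ := (h z).1 (dn j E' E hz)
    exact ⟨j R, j s, j i, inDf_up hw dq dq' hq h1, up j E' E h2, up j E' E h3, up j E' E h4⟩
  · rintro ⟨R, s, i, h1, h2, h3, h4⟩
    obtain ⟨R, rfl, h1'⟩ := inDf_dn hw dq' hq h1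
    obtain ⟨s, rfl⟩ := asg_rng hw h2
    obtain ⟨i, rfl⟩ := hj.tr _ _ h3
    obtain ⟨z', hz'⟩ := sep E' x (fun a => ∃ t, Upd E' s i a t ∧ E' t R)
    have h5 : ∀ a, E a (j z') ↔ E a (j x) ∧ ∃ t, Upd E (j s) (j i) a t ∧ E t (j R) :=
      up j E' E hz'
    obtain rfl : z = j z' := ext' E fun a => (h4 a).trans (h5 a).symm
    exact up j E' E ((h z').2 ⟨R, s, i, h1', dn j E' E h2, dn j E' E h3, hz'⟩)

end

end Pool.Agent.Lib.MP_1d770b_lc
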