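import Mathlib

/-!
Models of ZF(C) and the cofinality-omega constructible model `C*` inside a model.

A structure for the language of set theory is a type `M` with a binary relation `E`
(`E x y` reads: x is an element of y).  Every notion below quantifies only over elements of `M`
and uses only `E` and equality, so it is the satisfaction in `(M, E)` of a first-order formula.
-/

namespace Pool.Agent.Lib.MP_1d770b_lc

universe u

/-- First-order formulas of set theory (de Bruijn indices). -/
inductive Fm : Type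
  | mem (i j : ℕ) : Fm
  | eq (i j : ℕ) : Fm
  | neg (φ : Fm) : Fm
  | and (φ ψ : Fm) : Fm
  | ex (φ : Fm) : Fm

variable {M : Type u} (E : M → M → Prop)

/-- The valuation `a, v 0, v 1, ...`. -/
def scons (a : M) (v : ℕ → M) : ℕ → M
  | 0 => a
  | n + 1 => v n

/-- Tarski satisfaction in `(M, E)`. -/
def Sat : Fm → (ℕ → M) → Prop
  | .mem i j, v => E (v i) (v j)
  | .eq i j, v => v i = v j
  | .neg φ, v => ¬ Sat φ v
  | .and φ ψ, v => Sat φ v ∧ Sat ψ v
  | .ex φ, v => ∃ a, Sat φ (scons a v)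

/-- The binary relation `S` is first-order definable in `(M, E)` with parameters. -/
def Definable (S : M → M → Prop) : Prop :=
  ∃ (φ : Fm) (v : ℕ → M), ∀ a b, S a b ↔ Sat E φ (scons a (scons b v))

/-- `a` is the empty set. -/
def IsEmp (a : M) : Prop := ∀ x, ¬ E x a

/-- `s = a ∪ {a}`. -/
def IsSuc (s a : M) : Prop := ∀ x, E x s ↔ (E x a ∨ x = a)

/-- `w` is inductive. -/
def IsInd (w : M) : Prop :=
  (∃ e, IsEmp E e ∧ E e w) ∧ ∀ a, E a w → ∃ s, IsSuc E s a ∧ E s w

/-- `w = ω`, the least inductive set. -/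
def IsOmega (w : M) : Prop := IsInd E w ∧ ∀ v, IsInd E v → ∀ x, E x w → E x v

/-- `c = {a, b}`. -/
def IsUPair (c a b : M) : Prop := ∀ x, E x c ↔ (x = a ∨ x = b)

/-- `(M, E)` is a model of ZF (all instances of the two schemes). -/
structure IsZF : Prop where
  extensionality : ∀ a b, (∀ x, E x a ↔ E x b) → a = b
  foundation : ∀ a, (∃ x, E x a) → ∃ x, E x a ∧ ∀ y, E y x → ¬ E y a
  pairing : ∀ a b, ∃ c, IsUPair E c a b
  union : ∀ a, ∃ c, ∀ x, E x c ↔ ∃ y, E y a ∧ E x y
  powerset : ∀ a, ∃ c, ∀ x, E x c ↔ ∀ y, E y x → E y a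
  infinity : ∃ w, IsInd E w
  separation : ∀ (φ : Fm) (v : ℕ → M) (a : M),
    ∃ b, ∀ x, E x b ↔ (E x a ∧ Sat E φ (scons x v))
  replacement : ∀ (φ : Fm) (v : ℕ → M) (a : M),
    (∀ x, E x a → ∃! y, Sat E φ (scons x (scons y v))) →
      ∃ b, ∀ y, E y b ↔ ∃ x, E x a ∧ Sat E φ (scons x (scons y v))

/-- AC holds in `(M, E)`: every family of nonempty disjoint sets has a selector. -/
def Choice : Prop :=
  ∀ a, (∀ x, E x a → ∃ y, E y x) → (∀ x x' y, E x a → E x' a → E y x → E y x' → x = x') →
    ∃ c, ∀ x, E x a → ∃! y, E y x ∧ E y c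

/-- `p` is the Kuratowski pair `(a, b)`. -/
def IsOPair (p a b : M) : Prop :=
  ∃ s t, IsUPair E s a a ∧ IsUPair E t a b ∧ IsUPair E p s t

/-- `(a, b) ∈ f`. -/
def App (f a b : M) : Prop := ∃ p, IsOPair E p a b ∧ E p f

/-- `s` is a function from a subset of `n` to `x`. -/
def PFun (s n x : M) : Prop :=
  (∀ p, E p s → ∃ i a, E i n ∧ E a x ∧ IsOPair E p i a) ∧
    ∀ i a b, App E s i a → App E s i b → a = b

/-- `a` is a von Neumann ordinal. -/
def IsOrd (a : M) : Prop :=
  (∀ x y, E x a → E y x → E y a) ∧ ∀ x y, E x a → E y a → (E x y ∨ x = y ∨ E y x)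

/-- `a` is in the field of the relation `r`. -/
def Fld (r a : M) : Prop := ∃ c, App E r a c ∨ App E r c a

/-- The relation `r` is a strict linear order (of its field) of cofinality `ω = w`: some
function from `w` to the field has a value above each element of the field. -/
def Cof (w r : M) : Prop :=
  (∀ a, ¬ App E r a a) ∧ (∀ a b c, App E r a b → App E r b c → App E r a c) ∧
  (∀ a b, Fld E r a → Fld E r b → App E r a b ∨ a = b ∨ App E r b a) ∧
  ∃ f, (∀ p, E p f → ∃ n b, E n w ∧ Fld E r b ∧ IsOPair E p n b) ∧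
    (∀ n, E n w → ∃! b, App E f n b) ∧ ∀ a, Fld E r a → ∃ n b, App E f n b ∧ App E r a b

/-- `s` is a finite assignment of elements of `x` to variables (natural numbers). -/
def Asg (w x s : M) : Prop := ∃ n, E n w ∧ PFun E s n x

/-- `t` is the assignment `s` changed at the variable `i` to the value `a`. -/
def Upd (s i a t : M) : Prop := App E t i a ∧ ∀ k c, k ≠ i → (App E t k c ↔ App E s k c)

/-- The six truth clauses for an assignment `s` in the structure `(x, ∈)`, for variables `i, j`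
and truth sets `R₁, R₂` of subformulas: `v_i ∈ v_j`, `v_i = v_j`, negation, conjunction,
`∃ v_i`, and `Q v_i v_j`, where `q` is the class of relations accepted by the quantifier `Q`. -/
def Clause (q : M → Prop) (x i j R₁ R₂ s : M) : Fin 6 → Prop
  | 0 => ∃ a b, App E s i a ∧ App E s j b ∧ E a b
  | 1 => ∃ a, App E s i a ∧ App E s j a
  | 2 => ¬ E s R₁
  | 3 => E s R₁ ∧ E s R₂
  | 4 => ∃ a t, E a x ∧ Upd E s i a t ∧ E t R₁
  | 5 => i ≠ j ∧ ∃ r, q r ∧ ∀ p, E p r ↔ ∃ a b t, E a x ∧ E b x ∧ IsOPair E p a b ∧ E t R₁ ∧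
      App E t i a ∧ App E t j b ∧ ∀ k c, k ≠ i → k ≠ j → (App E t k c ↔ App E s k c)

/-- The family `F` of sets of assignments contains the truth sets of atomic formulas in `(x, ∈)`
and is closed under the clauses for negation, conjunction, `∃` and `Q`. -/
def Closed (w : M) (q : M → Prop) (x F : M) : Prop :=
  ∀ (k : Fin 6) (i j R₁ R₂ R : M), E i w → E j w → (2 ≤ k → E R₁ F ∧ E R₂ F) →
    (∀ s, E s R ↔ (Asg E w x s ∧ Clause E q x i j R₁ R₂ s k)) → E R F

/-- `y` is the set of all subsets of `x` definable over `(x, ∈)`, with parameters, in first-order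
logic with the quantifier `Q`.  Truth sets of formulas are the members of all closed families. -/
def IsDef (w : M) (q : M → Prop) (y x : M) : Prop :=
  ∀ z, E z y ↔ ∃ R s i, (∀ F, Closed E w q x F → E R F) ∧ Asg E w x s ∧ E i w ∧
    ∀ a, E a z ↔ (E a x ∧ ∃ t, Upd E s i a t ∧ E t R)

/-- `f` is an initial part `α ↦ L'_α` of the constructible hierarchy for this logic. -/
def Hier (w : M) (q : M → Prop) (f : M) : Prop :=
  ∀ α y, App E f α y → IsOrd E α ∧ (∀ β, E β α → ∃ y', App E f β y') ∧
    (∀ β y', IsSuc E α β → App E f β y' → IsDef E w q y y') ∧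
    ((¬ ∃ β, IsSuc E α β) → ∀ z, E z y ↔ ∃ β y', E β α ∧ App E f β y' ∧ E z y')

/-- The model `C*` computed in `(M, E)`: the union of the levels, `Q` being `Q^{cf}_ω`. -/
def CStar : Set M :=
  {x | ∃ w f α y, IsOmega E w ∧ Hier E w (Cof E w) f ∧ App E f α y ∧ E x y}

/-- The membership relation restricted to the class `W`. -/
def Res (W : Set M) (a b : W) : Prop := E a.1 b.1

/-- `n ↦ C n` (`n ∈ w = ω`) is the iterated sequence: `C 0` is the universe and
`C (n + 1)` is `C*` computed in the structure `(C n, ∈)`. -/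
def IsIter (w : M) (C : M → Set M) : Prop :=
  (∀ z, IsEmp E z → C z = Set.univ) ∧
    ∀ n s, E n w → IsSuc E s n → C s = Subtype.val '' CStar (Res E (C n))

end Pool.Agent.Lib.MP_1d770b_lc
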