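import Pool.Agent.Lib.MP_1d770b_lc.IM

/-! A pairing function on ordinals. -/

set_option synthInstance.maxSize 100000

namespace Pool.Agent.Lib.MP_1d770b_lc

universe u
variable {M N : Type u} {E : M → M → Prop} {E' : N → N → Prop} {j : N → M}

class PEmb (j : N → M) (E' : N → N → Prop) (E : M → M → Prop) : Prop extends TEmb j E' E where
  pair : ∀ a b, ∃ c, IsUPair E' c a b

instance (priority := 100) PEmb.ofZF [h : TEmb j E' E] [ZF E'] : PEmb j E' E :=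
  { h with pair := ex_upair E' }

def Tri (E : M → M → Prop) (t m a b : M) : Prop := ∃ p, IsOPair E p a b ∧ IsOPair E t m p

def GA (E : M → M → Prop) (t : M) : Prop :=
  ∃ m a b, Tri E t m a b ∧ IsOrd E m ∧ Le E a m ∧ Le E b m

def GR (E : M → M → Prop) (t' t : M) : Prop :=
  ∃ m a b, Tri E t m a b ∧ ∃ m' a' b', (E m' m ∨ (m' = m ∧ (E a' a ∨ (a' = a ∧ E b' b)))) ∧
    Le E a' m' ∧ Le E b' m' ∧ Tri E t' m' a' b'

def GS (E : M → M → Prop) (f t ξ : M) : Prop := ∀ z, E z ξ ↔ ∃ t', App E f t' z ∧ GR E t' t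

def Gam (E : M → M → Prop) (t ξ : M) : Prop := Rec E (GA E) (GR E) (GS E) t ξ

def Pr (E : M → M → Prop) (ξ a b : M) : Prop := ∃ t m, Tri E t m a b ∧ Gam E t ξ

def Dec (E : M → M → Prop) (ξ k a b c d : M) : Prop :=
  ∃ u1 u2 u3, Pr E ξ k u1 ∧ Pr E u1 a u2 ∧ Pr E u2 b u3 ∧ Pr E u3 c d

section
variable (i k l m n o : ℕ)
instance : UD.{u} fun _ E v => Tri E (v i) (v k) (v l) (v m) := by unfold Tri; infer_instance
instance : UD.{u} fun _ E v => GA E (v i) := by unfold GA; infer_instance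
instance : UD.{u} fun _ E v => GR E (v i) (v k) := by unfold GR; infer_instance
instance : UD.{u} fun _ E v => GS E (v i) (v k) (v l) := by unfold GS; infer_instance
instance : UD.{u} fun _ E v => Gam E (v i) (v k) := by unfold Gam Rec Ap; infer_instance
instance : UD.{u} fun _ E v => Pr E (v i) (v k) (v l) := by unfold Pr; infer_instance
instance : UD.{u} fun _ E v => Dec E (v i) (v k) (v l) (v m) (v n) (v o) := by
  unfold Dec; infer_instance
end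

section
variable (a b c d e f : (ℕ → M) → M) [IsT a] [IsT b] [IsT c] [IsT d] [IsT e] [IsT f]
instance : Df E fun v => Tri E (a v) (b v) (c v) (d v) := by unfold Tri; infer_instance
instance : Df E fun v => GA E (a v) := by unfold GA; infer_instance
instance : Df E fun v => GR E (a v) (b v) := by unfold GR; infer_instance
instance : Df E fun v => GS E (a v) (b v) (c v) := by unfold GS; infer_instance
instance : Df E fun v => Gam E (a v) (b v) := by unfold Gam Rec Ap; infer_instance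
instance : Df E fun v => Pr E (a v) (b v) (c v) := by unfold Pr; infer_instance
instance : Df E fun v => Dec E (a v) (b v) (c v) (d v) (e v) (f v) := by
  unfold Dec; infer_instance
end

section
variable [hj : TEmb j E' E] (a b c d : N) (x y z : M)
instance : Bd j E' E x (Tri E (j a) x y z) := by unfold Tri; infer_instance
instance : Bd j E' E y (Tri E (j a) x y z) := by unfold Tri; infer_instance
instance : Bd j E' E z (Tri E (j a) x y z) := by unfold Tri; infer_instance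
instance : Up j E' E (Tri E' a b c d) (Tri E (j a) (j b) (j c) (j d)) := by
  unfold Tri; infer_instance
instance : Dn j E' E (Tri E' a b c d) (Tri E (j a) (j b) (j c) (j d)) := by
  unfold Tri; infer_instance
instance : Up j E' E (GA E' a) (GA E (j a)) := by unfold GA; infer_instance
instance : Up j E' E (GR E' a b) (GR E (j a) (j b)) := by unfold GR; infer_instance
instance : Dn j E' E (GR E' a b) (GR E (j a) (j b)) := by unfold GR; infer_instance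
instance : Up j E' E (GS E' a b c) (GS E (j a) (j b) (j c)) := by unfold GS; infer_instance
end

section
variable [hj : PEmb j E' E] [ZF E] (a b c d e f : N) (x : M)
instance : Bd j E' E x (IsUPair E x (j a) (j b)) := ⟨fun h => by
  obtain ⟨c, hc⟩ := hj.pair a b
  exact ⟨c, IsUPair.uniq (up j E' E hc) h⟩⟩
instance : Bd j E' E x (IsOPair E x (j a) (j b)) := by unfold IsOPair; infer_instance
instance : Bd j E' E x (Tri E x (j a) (j b) (j c)) := by unfold Tri; infer_instance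
instance : Bd j E' E x (GR E x (j a)) := by unfold GR; infer_instance
instance : Up j E' E (Gam E' a b) (Gam E (j a) (j b)) := by unfold Gam Rec Ap; infer_instance
instance : Up j E' E (Pr E' a b c) (Pr E (j a) (j b) (j c)) := by unfold Pr; infer_instance
instance : Up j E' E (Dec E' a b c d e f) (Dec E (j a) (j b) (j c) (j d) (j e) (j f)) := by
  unfold Dec; infer_instance
end

variable [hZ : ZF E]

omit hZ in
theorem Tri.inj {t m a b m' a' b' : M} (h : Tri E t m a b) (h' : Tri E t m' a' b') :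
    m = m' ∧ a = a' ∧ b = b' := by
  obtain ⟨p, h1, h2⟩ := h
  obtain ⟨p', h3, h4⟩ := h'
  obtain ⟨rfl, rfl⟩ := h2.inj h4
  exact ⟨rfl, h1.inj h3⟩

theorem Tri.uniq {t t' m a b : M} (h : Tri E t m a b) (h' : Tri E t' m a b) : t = t' := by
  obtain ⟨p, h1, h2⟩ := h
  obtain ⟨p', h3, h4⟩ := h'
  obtain rfl := h1.uniq h3
  exact h2.uniq h4

variable (E) in
theorem ex_tri (m a b : M) : ∃ t, Tri E t m a b := by
  obtain ⟨p, hp⟩ := ex_opair E a b
  obtain ⟨t, ht⟩ := ex_opair E m p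
  exact ⟨t, p, hp, ht⟩

variable (E) in
theorem wfG : WfOK E (GA E) (GR E) where
  dA := fun _ _ => inferInstance
  dR := fun _ _ _ _ => inferInstance
  sub := by
    rintro t t' ⟨m, a, b, ht, hm, -, -⟩ ⟨m1, a1, b1, ht1, m', a', b', h, h1, h2, h3⟩
    obtain ⟨rfl, rfl, rfl⟩ := ht.inj ht1
    refine ⟨m', a', b', h3, ?_, h1, h2⟩
    rcases h with h | ⟨rfl, -⟩
    · exact hm.mem h
    · exact hm
  trans := by
    rintro t t' t'' ⟨m, a, b, ht, hm, ha, hb⟩ ⟨m1, a1, b1, ht1, m', a', b', h, -, -, h3⟩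
      ⟨m2, a2, b2, ht2, m'', a'', b'', h', h4, h5, h6⟩
    obtain ⟨rfl, rfl, rfl⟩ := ht.inj ht1
    obtain ⟨rfl, rfl, rfl⟩ := h3.inj ht2
    refine ⟨m, a, b, ht, m'', a'', b'', ?_, h4, h5, h6⟩
    rcases h with h | ⟨rfl, h⟩
    · rcases h' with h' | ⟨rfl, -⟩
      · exact Or.inl (hm.tr h h')
      · exact Or.inl h
    · rcases h' with h' | ⟨rfl, h'⟩
      · exact Or.inl h'
      · refine Or.inr ⟨rfl, ?_⟩
        rcases h with h | ⟨rfl, h⟩
        · rcases h' with h' | ⟨rfl, -⟩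
          · exact Or.inl ((ha.ord hm).tr h h')
          · exact Or.inl h
        · rcases h' with h' | ⟨rfl, h'⟩
          · exact Or.inl h'
          · exact Or.inr ⟨rfl, (hb.ord hm).tr h h'⟩
  setlike := by
    rintro t ⟨m, a, b, ht, hm, -, -⟩
    obtain ⟨s, hs⟩ := ex_suc E m
    obtain ⟨r1, h1, -⟩ := ex_rel E s s (fun _ _ => True)
    obtain ⟨r2, h2, -⟩ := ex_rel E s r1 (fun _ _ => True)
    refine ⟨r2, ?_⟩
    rintro t' ⟨m1, a1, b1, ht1, m', a', b', h, h3, h4, p, h5, h6⟩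
    obtain ⟨rfl, rfl, rfl⟩ := ht.inj ht1
    have hm' : Le E m' m := h.imp id And.left
    exact (h2 t').2 ⟨m', p, (hs _).2 hm', (h1 p).2 ⟨a', b', (hs _).2 (h3.trans hm' hm),
      (hs _).2 (h4.trans hm' hm), h5, trivial⟩, h6, trivial⟩
  wf := by
    rintro P hP H t ⟨m, a, b, ht, hm, ha, hb⟩
    refine ord_ind (fun m => ∀ a b t, Le E a m → Le E b m → Tri E t m a b → P t) ?_ m hm
      a b t ha hb ht
    clear ha hb ht hm m a b t
    intro m hm IH1 a b t ha hb ht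
    refine ord_ind (fun a => ∀ b t, Le E a m → Le E b m → Tri E t m a b → P t) ?_ a (ha.ord hm)
      b t ha hb ht
    clear ha hb ht a b t
    intro a _ IH2 b t ha hb ht
    refine ord_ind (fun b => ∀ t, Le E b m → Tri E t m a b → P t) ?_ b (hb.ord hm) t hb ht
    clear hb ht b t
    intro b _ IH3 t hb ht
    refine H t ⟨m, a, b, ht, hm, ha, hb⟩ ?_
    rintro t' ⟨m1, a1, b1, ht1, m', a', b', h, h3, h4, h5⟩
    obtain ⟨rfl, rfl, rfl⟩ := ht.inj ht1
    rcases h with h | ⟨rfl, h | ⟨rfl, h⟩⟩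
    · exact IH1 m' h a' b' t' h3 h4 h5
    · exact IH2 a' h b' t' h3 h4 h5
    · exact IH3 b' h t' h4 h5

variable (E) in
theorem recG : RecOK E (GA E) (GR E) (GS E) :=
  { wfG E with
    dS := fun _ _ _ _ _ _ => inferInstance
    inv := fun f g x y _ H hS z => by
      rw [hS z]
      exact exists_congr fun m => and_congr_left fun hm => by rw [H m hm]
    ex := fun f x _ _ => by
      obtain ⟨d, hd⟩ := ex_fld E f
      obtain ⟨y, hy⟩ := sep E d (fun z => ∃ t', App E f t' z ∧ GR E t' x)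
      exact ⟨y, fun z => (hy z).trans ⟨fun h => h.2, fun ⟨m, h1, h2⟩ => ⟨(hd m z h1).2, m, h1, h2⟩⟩⟩
    uniq := fun f x y y' _ _ h1 h2 => ext' E fun z => (h1 z).trans (h2 z).symm }

theorem Gam.iff {t ξ : M} (h : Gam E t ξ) (z : M) : E z ξ ↔ ∃ t', Gam E t' z ∧ GR E t' t := by
  obtain ⟨f, hf, hS⟩ := (recG E).elim h
  rw [hS z]
  exact exists_congr fun m => and_congr_left fun hm => hf m hm z

theorem Gam.ord {t ξ : M} (h : Gam E t ξ) : IsOrd E ξ := by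
  refine (wfG E).ind (fun t => ∀ ξ, Gam E t ξ → IsOrd E ξ) ?_ t (Rec.dom h) ξ h
  intro t ht IH ξ h
  refine ord_of_trans (fun x y hx hy => ?_) (fun x hx => ?_)
  · obtain ⟨t', h1, h2⟩ := (h.iff x).1 hx
    obtain ⟨t'', h3, h4⟩ := (h1.iff y).1 hy
    exact (h.iff y).2 ⟨t'', h3, (wfG E).trans _ _ _ ht h2 h4⟩
  · obtain ⟨t', h1, h2⟩ := (h.iff x).1 hx
    exact IH t' h2 x h1

theorem Gam.inj {t t' ξ : M} (h : Gam E t ξ) (h' : Gam E t' ξ) : t = t' := by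
  obtain ⟨m, a, b, ht, hm, ha, hb⟩ := Rec.dom h
  obtain ⟨m', a', b', ht', hm', ha', hb'⟩ := Rec.dom h'
  by_contra hne
  have h1 : ¬ GR E t t' := fun hR => no1 ((h'.iff ξ).2 ⟨t, h, hR⟩)
  have h2 : ¬ GR E t' t := fun hR => no1 ((h.iff ξ).2 ⟨t', h', hR⟩)
  rcases hm.tri hm' with k | rfl | k
  · exact h1 ⟨_, _, _, ht', _, _, _, Or.inl k, ha, hb, ht⟩
  · rcases (ha.ord hm).tri (ha'.ord hm) with k | rfl | k
    · exact h1 ⟨_, _, _, ht', _, _, _, Or.inr ⟨rfl, Or.inl k⟩, ha, hb, ht⟩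
    · rcases (hb.ord hm).tri (hb'.ord hm) with k | rfl | k
      · exact h1 ⟨_, _, _, ht', _, _, _, Or.inr ⟨rfl, Or.inr ⟨rfl, k⟩⟩, ha, hb, ht⟩
      · exact hne (ht.uniq ht')
      · exact h2 ⟨_, _, _, ht, _, _, _, Or.inr ⟨rfl, Or.inr ⟨rfl, k⟩⟩, ha', hb', ht'⟩
    · exact h2 ⟨_, _, _, ht, _, _, _, Or.inr ⟨rfl, Or.inl k⟩, ha', hb', ht'⟩
  · exact h2 ⟨_, _, _, ht, _, _, _, Or.inl k, ha', hb', ht'⟩

theorem IsEmp.le {e m : M} (he : IsEmp E e) (hm : IsOrd E m) : Le E e m :=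
  he.ord.le_of_sub hm fun x hx => (he x hx).elim

theorem Gam.ge {t ξ m a b : M} (h : Gam E t ξ) (ht : Tri E t m a b) (hm : IsOrd E m) :
    Le E m ξ := by
  refine ord_ind (fun m => ∀ t ξ a b, Gam E t ξ → Tri E t m a b → Le E m ξ) ?_ m hm t ξ a b h ht
  clear h ht hm t ξ m a b
  intro m hm IH t ξ a b h ht
  refine hm.le_of_sub h.ord fun m' hm' => ?_
  obtain ⟨e, he⟩ := ex_emp E
  obtain ⟨t', ht'⟩ := ex_tri E m' e e
  have hl := he.le (hm.mem hm')
  obtain ⟨ξ', hξ'⟩ := (recG E).total ⟨m', e, e, ht', hm.mem hm', hl, hl⟩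
  exact (IH m' hm' t' ξ' e e hξ' ht').lt h.ord
    ((h.iff ξ').2 ⟨t', hξ', _, _, _, ht, _, _, _, Or.inl hm', hl, hl, ht'⟩)

theorem Pr.fn {ξ a b a' b' : M} (h : Pr E ξ a b) (h' : Pr E ξ a' b') : a = a' ∧ b = b' := by
  obtain ⟨t, m, h1, h2⟩ := h
  obtain ⟨t', m', h3, h4⟩ := h'
  obtain rfl := h2.inj h4
  exact (h1.inj h3).2

theorem Pr.total {ξ : M} (h : IsOrd E ξ) : ∃ a b, Pr E ξ a b ∧ IsOrd E b := by
  obtain ⟨e, he⟩ := ex_emp E
  obtain ⟨t, ht⟩ := ex_tri E ξ e e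
  obtain ⟨ξ', hξ'⟩ := (recG E).total ⟨ξ, e, e, ht, h, he.le h, he.le h⟩
  have : ∃ t, Gam E t ξ := by
    rcases Gam.ge hξ' ht h with h1 | rfl
    · obtain ⟨t', h2, -⟩ := (Gam.iff hξ' ξ).1 h1
      exact ⟨t', h2⟩
    · exact ⟨t, hξ'⟩
  obtain ⟨t, ht⟩ := this
  obtain ⟨m, a, b, h1, hm, -, hb⟩ := Rec.dom ht
  exact ⟨a, b, ⟨t, m, h1, ht⟩, hb.ord hm⟩

theorem Pr.big {a b β : M} (ha : IsOrd E a) (hb : IsOrd E b) (hβ : IsOrd E β) :
    ∃ ξ, IsOrd E ξ ∧ E β ξ ∧ Pr E ξ a b := by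
  obtain ⟨c, hc, h1, h2⟩ := ord_bound2 ha hb
  obtain ⟨m, hm, h3, h4⟩ := ord_bound2 hc hβ
  obtain ⟨t, ht⟩ := ex_tri E m a b
  obtain ⟨ξ, hξ⟩ := (recG E).total ⟨m, a, b, ht, hm, Or.inl (hm.tr h3 h1), Or.inl (hm.tr h3 h2)⟩
  exact ⟨ξ, Gam.ord hξ, (Gam.ge hξ ht hm).sub (Gam.ord hξ) β h4, t, m, ht, hξ⟩

theorem Dec.fn {ξ k a b c d k' a' b' c' d' : M} (h : Dec E ξ k a b c d)
    (h' : Dec E ξ k' a' b' c' d') : k = k' ∧ a = a' ∧ b = b' ∧ c = c' ∧ d = d' := by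
  obtain ⟨u1, u2, u3, h1, h2, h3, h4⟩ := h
  obtain ⟨v1, v2, v3, k1, k2, k3, k4⟩ := h'
  obtain ⟨rfl, rfl⟩ := h1.fn k1
  obtain ⟨rfl, rfl⟩ := h2.fn k2
  obtain ⟨rfl, rfl⟩ := h3.fn k3
  obtain ⟨rfl, rfl⟩ := h4.fn k4
  exact ⟨rfl, rfl, rfl, rfl, rfl⟩

theorem Dec.total {ξ : M} (h : IsOrd E ξ) : ∃ k a b c d, Dec E ξ k a b c d := by
  obtain ⟨k, u1, h1, o1⟩ := Pr.total h
  obtain ⟨a, u2, h2, o2⟩ := Pr.total o1
  obtain ⟨b, u3, h3, o3⟩ := Pr.total o2
  obtain ⟨c, d, h4, -⟩ := Pr.total o3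
  exact ⟨k, a, b, c, d, u1, u2, u3, h1, h2, h3, h4⟩

theorem Dec.big {k a b c d β : M} (hk : IsOrd E k) (ha : IsOrd E a) (hb : IsOrd E b)
    (hc : IsOrd E c) (hd : IsOrd E d) (hβ : IsOrd E β) :
    ∃ ξ, IsOrd E ξ ∧ E β ξ ∧ Dec E ξ k a b c d := by
  obtain ⟨u3, o3, -, h4⟩ := Pr.big hc hd hβ
  obtain ⟨u2, o2, -, h3⟩ := Pr.big hb o3 hβ
  obtain ⟨u1, o1, -, h2⟩ := Pr.big ha o2 hβ
  obtain ⟨ξ, o, h, h1⟩ := Pr.big hk o1 hβ
  exact ⟨ξ, o, h, u1, u2, u3, h1, h2, h3, h4⟩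

end Pool.Agent.Lib.MP_1d770b_lc
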