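import Pool.Agent.Lib.MP_1d770b_lc.L

/-! Choice functions, Hartogs bounds, countably closed hulls. -/

set_option synthInstance.maxSize 100000

namespace Pool.Agent.Lib.MP_1d770b_lc

universe u
variable {M N : Type u} {E : M → M → Prop} {E' : N → N → Prop} {j : N → M}

def Img (E : M → M → Prop) (l β : M) : Prop :=
  ∃ f, Fn E f ∧ ∀ z, E z β → ∃ t, Rk E t l ∧ App E f t z

def Unc (E : M → M → Prop) (w l : M) : Prop :=
  ∀ h, (∀ n, E n w → ∃ z, E z l ∧ App E h n z) → ∃ β, E β l ∧ ∀ n, E n w → ∃ z, E z β ∧ App E h n z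

def GoodAt (E : M → M → Prop) (w α γ : M) : Prop :=
  ∃ l β, E l γ ∧ E β γ ∧ E α l ∧ E w l ∧ Lim E l ∧ Unc E w l ∧ ¬ Img E l β

def Good (E : M → M → Prop) (w κ : M) : Prop := IsOrd E κ ∧ ∀ α, E α κ → GoodAt E w α κ

section
variable (a b c : (ℕ → M) → M) [IsT a] [IsT b] [IsT c]
instance : Df E fun v => Img E (a v) (b v) := by unfold Img; infer_instance
instance : Df E fun v => Unc E (a v) (b v) := by unfold Unc; infer_instance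
instance : Df E fun v => GoodAt E (a v) (b v) (c v) := by unfold GoodAt; infer_instance
instance : Df E fun v => Good E (a v) (b v) := by unfold Good; infer_instance
end

instance [TEmb j E' E] [ZF E] (a b : N) : Dn j E' E (Good E' a b) (Good E (j a) (j b)) := by
  unfold Good GoodAt Unc Img; infer_instance

theorem Good.lim {w κ : M} (h : Good E w κ) : Lim E κ :=
  ⟨h.1, fun α hα => let ⟨l, _, h1, _, h2, _⟩ := h.2 α hα; ⟨l, h1, h2⟩⟩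

theorem Img.mono {l β γ : M} (h : Img E l β) (hγ : Sub E γ β) : Img E l γ :=
  let ⟨f, h1, h2⟩ := h; ⟨f, h1, fun z hz => h2 z (hγ z hz)⟩

variable [hZ : ZF E]

theorem ac (hC : Choice E) (a : M) (P : M → M → Prop) [h : Df E (fun v => P (v 0) (v 1))] :
    ∃ f, (∀ p, E p f → ∃ x y, IsOPair E p x y ∧ E x a ∧ P x y) ∧ Fn E f ∧
      (∀ x y, App E f x y → E x a ∧ P x y) ∧ ∀ x, E x a → (∃ y, P x y) → ∃ y, App E f x y := by
  have h2 := h.d2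
  obtain ⟨b, hb⟩ := coll E a P
  obtain ⟨r, hr, hr'⟩ := ex_rel E a b P
  obtain ⟨pw, hpw⟩ := ex_pow E r
  obtain ⟨F, hF⟩ := sep E pw (fun s => ∃ x, (∃ p, E p s) ∧
    ∀ p, E p s ↔ E p r ∧ ∃ y, IsOPair E p x y)
  obtain ⟨c, hc⟩ := hC F (fun s hs => let ⟨_, _, h, _⟩ := (hF s).1 hs; h) (fun s s' p h1 h2 h3 h4 => by
    obtain ⟨-, x, -, k1⟩ := (hF s).1 h1
    obtain ⟨-, x', -, k2⟩ := (hF s').1 h2
    obtain ⟨y, hy⟩ := ((k1 p).1 h3).2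
    obtain ⟨y', hy'⟩ := ((k2 p).1 h4).2
    obtain ⟨rfl, -⟩ := hy.inj hy'
    exact ext' E fun z => (k1 z).trans (k2 z).symm)
  obtain ⟨f, hf⟩ := sep E r (fun p => E p c)
  have key : ∀ x y, App E r x y → ∃! p, (E p r ∧ ∃ y, IsOPair E p x y) ∧ E p c := by
    rintro x y ⟨p, hp, hpr⟩
    obtain ⟨s, hs⟩ := sep E r (fun p => ∃ y, IsOPair E p x y)
    have := hc s ((hF s).2 ⟨(hpw s).2 fun z hz => ((hs z).1 hz).1, x,
      ⟨p, (hs p).2 ⟨hpr, y, hp⟩⟩, hs⟩)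
    simpa only [hs] using this
  have hfr : Sub E f r := fun p hp => ((hf p).1 hp).1
  refine ⟨f, fun p hp => ?_, fun x y y' h1 h2 => ?_, fun x y h => ?_, fun x hx hy => ?_⟩
  · obtain ⟨x, y, h1, -, h2, h3⟩ := (hr p).1 (hfr p hp)
    exact ⟨x, y, h2, h1, h3⟩
  · have hu := key x y (h1.mono hfr)
    obtain ⟨p, h3, h4⟩ := h1
    obtain ⟨p', h5, h6⟩ := h2
    obtain rfl := hu.unique ⟨⟨hfr p h4, y, h3⟩, ((hf p).1 h4).2⟩ ⟨⟨hfr p' h6, y', h5⟩, ((hf p').1 h6).2⟩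
    exact (h3.inj h5).2
  · obtain ⟨h1, -, h2⟩ := (hr' x y).1 (h.mono hfr)
    exact ⟨h1, h2⟩
  · obtain ⟨y, h1, h2⟩ := hb x hx hy
    obtain ⟨p, ⟨⟨h3, y', h4⟩, h5⟩, -⟩ := key x y ((hr' x y).2 ⟨hx, h1, h2⟩)
    exact ⟨y', p, h4, (hf p).2 ⟨h3, h5⟩⟩

theorem hartogs {l : M} (hl : IsOrd E l) : ∃ β, IsOrd E β ∧ ¬ Img E l β := by
  obtain ⟨v, hv⟩ := ex_V hl
  obtain ⟨r0, hr0, -⟩ := ex_rel E v v (fun _ _ => True)
  obtain ⟨B, hB⟩ := ex_pow E r0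
  let H : M → M → M → Prop := fun r β f => IsOrd E β ∧ Fn E f ∧
    (∀ z, E z β → ∃ t, E t v ∧ App E f t z) ∧ ∀ t t', App E r t t' ↔
      (E t v ∧ E t' v ∧ ∃ z z', E z' β ∧ App E f t z ∧ App E f t' z' ∧ Le E z z')
  have key : ∀ r β β' f f', H r β f → H r β' f' → Sub E β β' := by
    rintro r β β' f f' ⟨o1, f1, s1, c1⟩ ⟨o2, f2, s2, c2⟩ z hz
    obtain ⟨t, ht, hft⟩ := s1 z hz
    refine (ord_ind (fun z => ∀ t, E t v → E z β → App E f t z → E z β' ∧ App E f' t z) ?_ z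
      (o1.mem hz) t ht hz hft).1
    clear hft ht hz t z
    intro z oz IH t ht hz hft
    obtain ⟨-, -, z0, z1, h1, h2, h3, -⟩ := (c2 t t).1 ((c1 t t).2 ⟨ht, ht, z, z, hz, hft, hft,
      Or.inr rfl⟩)
    have : z = z1 := by
      rcases oz.tri (o2.mem h1) with k | k | k
      · obtain ⟨t2, k1, k2⟩ := s2 z (o2.tr h1 k)
        obtain ⟨-, -, u, u', -, k3, k4, k5⟩ := (c1 t2 t).1 ((c2 t2 t).2 ⟨k1, ht, z, z1, h1, k2, h3,
          Or.inl k⟩)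
        obtain rfl := f1 _ _ _ k4 hft
        rcases k5 with k5 | rfl
        · obtain rfl := f2 _ _ _ (IH u k5 t2 k1 (o1.tr hz k5) k3).2 k2
          exact (no1 k5).elim
        · obtain ⟨-, -, a, a', -, k6, k7, k8⟩ := (c2 t t2).1 ((c1 t t2).2 ⟨ht, k1, u, u, hz, hft,
            k3, Or.inr rfl⟩)
          obtain rfl := f2 _ _ _ k6 h3
          obtain rfl := f2 _ _ _ k7 k2
          exact (k8.not_lt k).elim
      · exact k
      · obtain ⟨t2, k1, k2⟩ := s1 z1 (o1.tr hz k)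
        have k3 := (IH z1 k t2 k1 (o1.tr hz k) k2).2
        obtain ⟨-, -, a, a', -, k6, k7, k8⟩ := (c1 t t2).1 ((c2 t t2).2 ⟨ht, k1, z1, z1, h1, h3,
          k3, Or.inr rfl⟩)
        obtain rfl := f1 _ _ _ k6 hft
        obtain rfl := f1 _ _ _ k7 k2
        exact (k8.not_lt k).elim
    exact this ▸ ⟨h1, h3⟩
  have dH : D3 E H := fun _ _ _ _ _ _ => by simp only [H]; infer_instance
  obtain ⟨S, hS⟩ := repl E B (fun r β => ∃ f, H r β f) (fun r β β' _ ⟨f, h1⟩ ⟨f', h2⟩ =>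
    ext' E fun z => ⟨key r β β' f f' h1 h2 z, key r β' β f' f h2 h1 z⟩)
  obtain ⟨c, hc, h⟩ := ord_bound E S
  refine ⟨c, hc, fun ⟨f, h1, h2⟩ => no1 (h c ?_ hc)⟩
  obtain ⟨r, h3, h4⟩ := ex_rel E v v
    (fun t t' => ∃ z z', E z' c ∧ App E f t z ∧ App E f t' z' ∧ Le E z z')
  refine (hS c).2 ⟨r, (hB r).2 fun p hp => ?_, f, hc, h1, fun z hz => ?_, h4⟩
  · obtain ⟨x, y, k1, k2, k3, -⟩ := (h3 p).1 hp
    exact (hr0 p).2 ⟨x, y, k1, k2, k3, trivial⟩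
  · obtain ⟨t, k1, k2⟩ := h2 z hz
    exact ⟨t, (hv t).2 k1, k2⟩

theorem ex_unc (hC : Choice E) {w α : M} (hw : IsOmega E w) (hα : IsOrd E α) :
    ∃ l, E α l ∧ E w l ∧ Lim E l ∧ Unc E w l := by
  obtain ⟨a, ha, h1, h2⟩ := ord_bound2 hα hw.ord
  obtain ⟨μ, hμ, haμ, -⟩ := clos E (fun _ _ => True) (fun α hα => ⟨α, hα, trivial⟩) a ha
  obtain ⟨l, hl, hl'⟩ := hartogs hμ.1
  obtain ⟨l, hl, hl', hm⟩ := ord_min (fun l => ¬ Img E μ l) hl hl'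
  obtain ⟨v, hv⟩ := ex_V hμ.1
  have hlt : ∀ β, IsOrd E β → Img E μ β → E β l := fun β hβ h => by
    by_contra hn
    exact hl' (h.mono ((hl.le_of_not hβ hn).sub hβ))
  have hμl : E μ l := by
    obtain ⟨f, -, hf⟩ := ex_rel E μ μ (fun x y => x = y)
    exact hlt μ hμ.1 ⟨f, fun i a b h1 h2 => ((hf _ _).1 h1).2.2.symm.trans ((hf _ _).1 h2).2.2,
      fun z hz => ⟨z, hμ.1.rk hz, (hf _ _).2 ⟨hz, hz, rfl⟩⟩⟩
  have hwμ : E w μ := hμ.1.tr haμ h2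
  have hlim : Lim E l := by
    refine ⟨hl, fun γ hγ => ?_⟩
    obtain ⟨s, hs⟩ := ex_suc E γ
    refine ⟨s, hlt s (hs.ord (hl.mem hγ)) ?_, hs.self⟩
    obtain ⟨f, f1, f2⟩ := not_not.1 (hm γ hγ)
    obtain ⟨F, -, hF⟩ := ex_rel E v s
      (fun p z => (IsEmp E p ∧ z = γ) ∨ ∃ t, IsUPair E p t t ∧ App E f t z)
    refine ⟨F, fun p z z' k1 k2 => ?_, fun z hz => ?_⟩
    · rcases ((hF _ _).1 k1).2.2 with ⟨k3, rfl⟩ | ⟨t, k3, k4⟩ <;>
        rcases ((hF _ _).1 k2).2.2 with ⟨k5, rfl⟩ | ⟨t', k5, k6⟩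
      · rfl
      · exact (k3 t' ((k5 t').2 (Or.inl rfl))).elim
      · exact (k5 t ((k3 t).2 (Or.inl rfl))).elim
      · obtain rfl : t = t' := or_self_iff.1 ((k5 t).1 ((k3 t).2 (Or.inl rfl)))
        exact f1 _ _ _ k4 k6
    · rcases (hs z).1 hz with h | rfl
      · obtain ⟨t, k1, k2⟩ := f2 z h
        obtain ⟨p, hp⟩ := ex_upair E t t
        have := hμ.upair k1 k1 hp
        exact ⟨p, this, (hF _ _).2 ⟨(hv p).2 this, hz, Or.inr ⟨t, hp, k2⟩⟩⟩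
      · obtain ⟨e, he⟩ := ex_emp E
        have := hμ.1.rk (hμ.1.tr hwμ (hw.emp he))
        exact ⟨e, this, (hF _ _).2 ⟨(hv e).2 this, hz, Or.inl ⟨he, rfl⟩⟩⟩
  refine ⟨l, hl.tr hμl (hμ.1.tr haμ h1), hl.tr hμl hwμ, hlim, fun h hh => ?_⟩
  by_contra hn
  obtain ⟨g, -, g1, g2, g3⟩ := ac hC w (fun n f => ∃ z, E z l ∧ App E h n z ∧ Fn E f ∧
    ∀ u, E u z → ∃ t, Rk E t μ ∧ App E f t u)
  obtain ⟨F, -, hF⟩ := ex_rel E v l (fun p u => ∃ n t f, IsOPair E p n t ∧ App E g n f ∧ App E f t u)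
  refine hl' ⟨F, fun p z z' k1 k2 => ?_, fun u hu => ?_⟩
  · obtain ⟨n, t, f, k3, k4, k5⟩ := ((hF _ _).1 k1).2.2
    obtain ⟨n', t', f', k6, k7, k8⟩ := ((hF _ _).1 k2).2.2
    obtain ⟨rfl, rfl⟩ := k3.inj k6
    obtain rfl := g1 _ _ _ k4 k7
    obtain ⟨-, _, -, -, k9, -⟩ := g2 _ _ k4
    exact k9 _ _ _ k5 k8
  · obtain ⟨s, hs⟩ := ex_suc E u
    have : ∃ n, E n w ∧ ¬ ∃ z, E z s ∧ App E h n z := by
      by_contra hc
      exact hn ⟨s, hlim.suc hu hs, fun n hn => by_contra fun h => hc ⟨n, hn, h⟩⟩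
    obtain ⟨n, k1, k2⟩ := this
    obtain ⟨f, hf⟩ := g3 n k1 (by
      obtain ⟨z, k3, k4⟩ := hh n k1
      obtain ⟨f, f1, f2⟩ := not_not.1 (hm z k3)
      exact ⟨f, z, k3, k4, f1, f2⟩)
    obtain ⟨-, z, k3, k4, -, k5⟩ := g2 _ _ hf
    have huz : E u z := by
      rcases (hl.mem hu).tri (hl.mem k3) with k | rfl | k
      · exact k
      · exact (k2 ⟨_, hs.self, k4⟩).elim
      · exact (k2 ⟨_, hs.of_mem k, k4⟩).elim
    obtain ⟨t, k6, k7⟩ := k5 u huz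
    obtain ⟨p, hp⟩ := ex_opair E n t
    have := hμ.opair (hμ.1.rk (hμ.1.tr hwμ k1)) k6 hp
    exact ⟨p, this, (hF _ _).2 ⟨(hv p).2 this, hu, n, t, f, hp, hf, k7⟩⟩

theorem ex_good (hC : Choice E) {w : M} (hw : IsOmega E w) (x : M) :
    ∃ κ, Good E w κ ∧ Rk E x κ := by
  obtain ⟨a, ha⟩ := ex_rk E x
  obtain ⟨κ, h1, h2, h3⟩ := clos E (fun α γ => GoodAt E w α γ) (fun α hα => by
    obtain ⟨l, k1, k2, k3, k4⟩ := ex_unc hC hw hα
    obtain ⟨β, k5, k6⟩ := hartogs k3.1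
    obtain ⟨γ, k7, k8, k9⟩ := ord_bound2 k3.1 k5
    exact ⟨γ, k7, l, β, k8, k9, k1, k2, k3, k4, k6⟩) a ha.ord
  refine ⟨κ, ⟨h1.1, fun α hα => ?_⟩, ha.lt h1.1 h2⟩
  obtain ⟨γ, k1, l, β, k2, k3, k4⟩ := h3 α hα
  exact ⟨l, β, h1.1.tr k1 k2, h1.1.tr k1 k3, k4⟩

theorem hull (hC : Choice E) {w l T : M} (hw : IsOmega E w) (hl : Lim E l) (hwl : E w l)
    (hu : Unc E w l) (hT : ∀ x, Rk E x l → E x T) (G : M → M → M → Prop) (dG : D3 E G) :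
    ∃ Y e, Fn E e ∧ (∀ y, E y Y → ∃ t, Rk E t l ∧ App E e t y) ∧ Sub E Y T ∧
      (∀ x, Rk E x l → E x Y) ∧
      ∀ i h, E i w → PFun E h w Y → (∃ z, E z T ∧ G i h z) → ∃ z, E z Y ∧ G i h z := by
  obtain ⟨v, hv⟩ := ex_V hl.1
  obtain ⟨r0, hr0, -⟩ := ex_rel E w T (fun _ _ => True)
  obtain ⟨B, hB⟩ := ex_pow E r0
  obtain ⟨D, hD, -⟩ := ex_rel E w B (fun _ _ => True)
  obtain ⟨c, -, c1, c2, c3⟩ := ac hC D (fun p z => E z T ∧ ∃ i h, IsOPair E p i h ∧ G i h z)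
  let H : M → M → M → Prop := fun f u h =>
    ∀ p, E p h ↔ ∃ n t' z, E n w ∧ App E u n t' ∧ App E f t' z ∧ IsOPair E p n z
  have dH : D3 E H := fun _ _ _ _ _ _ => by simp only [H]; infer_instance
  let C2 : M → M → M → Prop := fun f t y =>
    ∃ i u h p, E i w ∧ IsOPair E t i u ∧ H f u h ∧ IsOPair E p i h ∧ App E c p y
  have dC : D3 E C2 := fun _ _ _ _ _ _ => by simp only [C2]; infer_instance
  let S : M → M → M → Prop := fun f t y => IsOPair E t w y ∨ C2 f t y ∨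
    ((¬ ∃ a, IsOPair E t w a) ∧ (¬ ∃ y', C2 f t y') ∧ IsEmp E y)
  have hpre : ∀ t i u n t', E t v → IsOPair E t i u → App E u n t' → E t' v ∧ RkLt E t' t := by
    intro t i u n t' ht h1 h2
    obtain ⟨s1, s2, k1, k2, k3⟩ := h1
    refine ⟨(hv _).2 (((((hv t).1 ht).mem ((k3 s2).2 (Or.inr rfl))).mem
      ((k2 u).2 (Or.inr rfl))).app h2).2,
      (RkLt.of_app h2).2.trans (RkLt.of_opair ⟨s1, s2, k1, k2, k3⟩).2⟩
  have hC2 : ∀ f g t y, E t v → (∀ x', E x' v ∧ RkLt E x' t → ∀ y, App E f x' y ↔ App E g x' y) →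
      C2 f t y → C2 g t y := by
    rintro f g t y ht K ⟨i, u, h, p, h1, h2, h3, h4⟩
    refine ⟨i, u, h, p, h1, h2, fun p => (h3 p).trans ?_, h4⟩
    exact exists_congr fun n => exists_congr fun t' => exists_congr fun z =>
      and_congr_right fun _ => and_congr_right fun k => by rw [K t' (hpre t i u n t' ht h2 k)]
  have hC2u : ∀ f t y y', C2 f t y → C2 f t y' → y = y' := by
    rintro f t y y' ⟨i, u, h, p, -, h2, h3, h4, h5⟩ ⟨i', u', h', p', -, k2, k3, k4, k5⟩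
    obtain ⟨rfl, rfl⟩ := h2.inj k2
    obtain rfl : h = h' := ext' E fun p => (h3 p).trans (k3 p).symm
    obtain rfl := h4.uniq k4
    exact c1 _ _ _ h5 k5
  have hC2w : ∀ f t y a, C2 f t y → ¬ IsOPair E t w a := by
    rintro f t y a ⟨i, u, h, p, h1, h2, -⟩ h3
    obtain ⟨rfl, -⟩ := h2.inj h3
    exact no1 h1
  have hR : RecOK E (fun x => E x v) (fun x' x => E x' v ∧ RkLt E x' x) S :=
    { wfRk E v with
      dS := fun _ _ _ _ _ _ => by simp only [S]; infer_instance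
      inv := fun f g t y ht K hS => by
        rcases hS with h | h | ⟨h1, h2, h3⟩
        · exact Or.inl h
        · exact Or.inr (Or.inl (hC2 f g t y ht K h))
        · exact Or.inr (Or.inr ⟨h1, fun ⟨y', h⟩ => h2 ⟨y', hC2 g f t y' ht
            (fun x' hx' y => (K x' hx' y).symm) h⟩, h3⟩)
      ex := fun f t _ _ => by
        by_cases h1 : ∃ a, IsOPair E t w a
        · obtain ⟨a, ha⟩ := h1
          exact ⟨a, Or.inl ha⟩
        by_cases h2 : ∃ y', C2 f t y'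
        · obtain ⟨a, ha⟩ := h2
          exact ⟨a, Or.inr (Or.inl ha)⟩
        obtain ⟨e, he⟩ := ex_emp E
        exact ⟨e, Or.inr (Or.inr ⟨h1, h2, he⟩)⟩
      uniq := fun f t y y' _ _ h1 h2 => by
        rcases h1 with h1 | h1 | h1 <;> rcases h2 with h2 | h2 | h2
        · exact (h1.inj h2).2
        · exact (hC2w _ _ _ _ h2 h1).elim
        · exact (h2.1 ⟨_, h1⟩).elim
        · exact (hC2w _ _ _ _ h1 h2).elim
        · exact hC2u _ _ _ _ h1 h2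
        · exact (h2.2.1 ⟨_, h1⟩).elim
        · exact (h1.1 ⟨_, h2⟩).elim
        · exact (h1.2.1 ⟨_, h2⟩).elim
        · exact h1.2.2.uniq h2.2.2 }
  have dR := hR.dRec
  generalize hRec : Rec E (fun x => E x v) (fun x' x => E x' v ∧ RkLt E x' x) S = Ev at dR
  have efn : ∀ t y y', Ev t y → Ev t y' → y = y' := fun t y y' h1 h2 => by
    subst hRec; exact hR.fn h1 h2
  have etot : ∀ t, Rk E t l → ∃ y, Ev t y := fun t ht => by
    subst hRec; exact hR.total ((hv t).2 ht)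
  have eel : ∀ t y, Ev t y → ∃ f, (∀ x', E x' v ∧ RkLt E x' t → ∀ y', App E f x' y' ↔ Ev x' y') ∧
      S f t y := fun t y h => by subst hRec; exact hR.elim h
  obtain ⟨Y, hY⟩ := repl E v Ev (fun x y y' _ h1 h2 => efn x y y' h1 h2)
  obtain ⟨e, -, he⟩ := ex_fun E v Ev (fun x y y' _ h1 h2 => efn x y y' h1 h2)
  have hYT : Sub E Y T := fun y hy => by
    obtain ⟨t, ht, h⟩ := (hY y).1 hy
    obtain ⟨f, -, h | ⟨i, u, h, p, -, -, -, -, h⟩ | h⟩ := eel t y h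
    · obtain ⟨s1, s2, -, k2, k3⟩ := h
      exact hT y ((((hv t).1 ht).mem ((k3 s2).2 (Or.inr rfl))).mem ((k2 y).2 (Or.inr rfl)))
    · exact (c2 _ _ h).2.1
    · exact hT y (hl.1.rk (hl.1.tr hwl (hw.emp h.2.2)))
  refine ⟨Y, e, fun t y y' h1 h2 => efn t y y' ((he _ _).1 h1).2 ((he _ _).1 h2).2,
    fun y hy => ?_, hYT, fun x hx => ?_, fun i h hi hh hz => ?_⟩
  · obtain ⟨t, ht, h⟩ := (hY y).1 hy
    exact ⟨t, (hv t).1 ht, (he _ _).2 ⟨ht, h⟩⟩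
  · obtain ⟨t, ht⟩ := ex_opair E w x
    have h1 := hl.opair (hl.1.rk hwl) hx ht
    obtain ⟨y, hy⟩ := etot t h1
    obtain ⟨f, -, h | h | h⟩ := eel t y hy
    · exact (hY x).2 ⟨t, (hv t).2 h1, (h.inj ht).2 ▸ hy⟩
    · exact (hC2w _ _ _ _ h ht).elim
    · exact (h.1 ⟨_, ht⟩).elim
  · obtain ⟨u, u0, u1, u2, u3⟩ := ac hC w (fun n t => E t v ∧ ∃ z, App E h n z ∧ Ev t z)
    obtain ⟨k, -, hk⟩ := ex_rel E w l (fun n z => ∀ t, App E u n t → Rk E t z)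
    obtain ⟨β, hβ, hb⟩ := hu k (fun n hn => by
      by_cases h1 : ∃ t, App E u n t
      · obtain ⟨t, ht⟩ := h1
        obtain ⟨z, h2, h3⟩ := hl.rk ((hv t).1 (u2 _ _ ht).2.1)
        exact ⟨z, h2, (hk _ _).2 ⟨hn, h2, fun t' ht' => u1 _ _ _ ht ht' ▸ h3⟩⟩
      · exact ⟨w, hwl, (hk _ _).2 ⟨hn, hwl, fun t ht => (h1 ⟨t, ht⟩).elim⟩⟩)
    obtain ⟨β', h1, h2, h3⟩ := hl.two hβ hwl
    have hul : Rk E u l := hl.rel h1 fun p hp => by
      obtain ⟨n, t, k1, k2, -⟩ := u0 p hp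
      obtain ⟨z, k3, k4⟩ := hb n k2
      have o := hl.1.mem h1
      exact ⟨n, t, k1, o.rk (o.tr h3 k2), (((hk _ _).1 k4).2.2 t ⟨p, k1, hp⟩).lt o (o.tr h2 k3)⟩
    obtain ⟨t, ht⟩ := ex_opair E i u
    have htl := hl.opair (hl.1.rk (hl.1.tr hwl hi)) hul ht
    obtain ⟨y, hy⟩ := etot t htl
    obtain ⟨f, hf, hS⟩ := eel t y hy
    have hH : H f u h := fun p => by
      constructor
      · intro hp
        obtain ⟨n, z, k1, k2, k3⟩ := hh.1 p hp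
        obtain ⟨t', k4⟩ := u3 n k1 (let ⟨t', k4, k5⟩ := (hY z).1 k2; ⟨t', k4, z, ⟨p, k3, hp⟩, k5⟩)
        obtain ⟨-, -, z', k5, k6⟩ := u2 _ _ k4
        obtain rfl := hh.2 _ _ _ k5 ⟨p, k3, hp⟩
        exact ⟨n, t', z', k1, k4, (hf t' (hpre t i u n t' ((hv t).2 htl) ht k4) z').2 k6, k3⟩
      · rintro ⟨n, t', z, -, k2, k3, k4⟩
        obtain ⟨-, -, z', k5, k6⟩ := u2 _ _ k2
        obtain rfl := efn _ _ _ k6 ((hf t' (hpre t i u n t' ((hv t).2 htl) ht k2) z).1 k3)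
        exact k5.mem k4
    obtain ⟨p, hp⟩ := ex_opair E i h
    have hpD : E p D := (hD p).2 ⟨i, h, hi, (hB h).2 fun z hz =>
      let ⟨n, a, k1, k2, k3⟩ := hh.1 z hz; (hr0 z).2 ⟨n, a, k1, hYT a k2, k3, trivial⟩, hp, trivial⟩
    obtain ⟨y', hy'⟩ := c3 p hpD (let ⟨z, k1, k2⟩ := hz; ⟨z, k1, i, h, hp, k2⟩)
    have hC' : C2 f t y' := ⟨i, u, h, p, hi, ht, hH, hp, hy'⟩
    rcases hS with k | k | k
    · exact (hC2w _ _ _ _ hC' k).elim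
    · obtain rfl := hC2u _ _ _ _ k hC'
      obtain ⟨-, -, i', h', k1, k2⟩ := c2 _ _ hy'
      obtain ⟨rfl, rfl⟩ := hp.inj k1
      exact ⟨y, (hY y).2 ⟨t, (hv t).2 htl, hy⟩, k2⟩
    · exact (k.2.1 ⟨_, hC'⟩).elim

end Pool.Agent.Lib.MP_1d770b_lc
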