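import Pool.Agent.Lib.MP_1d770b_lc.SatA

/-! A first-order criterion for inner models of ZF. -/

set_option synthInstance.maxSize 100000

namespace Pool.Agent.Lib.MP_1d770b_lc

universe u
variable {M N : Type u} {E : M → M → Prop} {E' : N → N → Prop} {j : N → M}

def Op (E : M → M → Prop) (q : M → Prop) (b c d s : M) : Fin 6 → Prop
  | 0 => ¬ E s b
  | 1 => ∃ x y, App E s b x ∧ App E s c y ∧ E x y
  | 2 => ∃ x, App E s b x ∧ App E s c x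
  | 3 => ∃ t y, E t c ∧ Upd E s b y t ∧ Fn E t
  | 4 => ∃ t, E t d ∧ Upd E b c s t ∧ Fn E t
  | 5 => q s

def IMq (E : M → M → Prop) (q : M → Prop) (W : Set M) : Prop :=
  (∀ x y, x ∈ W → E y x → y ∈ W) ∧ (∀ y, (∀ z, E z y → z ∈ W) → ∃ a, a ∈ W ∧ Sub E y a) ∧
  (∀ a b c, a ∈ W → b ∈ W → IsUPair E c a b → c ∈ W) ∧
  ∀ (k : Fin 6) a b c d y, a ∈ W → b ∈ W → c ∈ W → d ∈ W →
    (∀ s, E s y ↔ E s a ∧ Op E q b c d s k) → y ∈ W

abbrev IM (E : M → M → Prop) (W : Set M) : Prop := IMq E (fun _ => True) W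

instance (a b c d : (ℕ → M) → M) [IsT a] [IsT b] [IsT c] [IsT d] (q : (ℕ → M) → M → Prop)
    [hq : DQ E q] (k : Fin 6) : Df E fun v => Op E (q v) (a v) (b v) (c v) (d v) k := by
  have := hq.dv
  fin_cases k <;> (simp only [Op]; infer_instance)

instance (a b c d : ℕ) (k : Fin 6) :
    UD.{u} fun _ E v => Op E (fun _ => True) (v a) (v b) (v c) (v d) k := by
  fin_cases k <;> (simp only [Op]; infer_instance)

instance (W : (ℕ → M) → Set M) [hW : DQ E (fun v x => x ∈ W v)] : Df E fun v => IM E (W v) := by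
  have := hW.dv
  have h4 : Df E fun v => ∀ (k : Fin 6) a b c d y, a ∈ W v → b ∈ W v → c ∈ W v → d ∈ W v →
      (∀ s, E s y ↔ E s a ∧ Op E (fun _ => True) b c d s k) → y ∈ W v := by
    refine @Df.allFin _ _ 6 _ (fun k => ?_); infer_instance
  unfold IM IMq; infer_instance

theorem op_abs [TEmb j E' E] {q' : N → Prop} {q : M → Prop} (b c d s : N) (k : Fin 6)
    (hq : k = 5 → (q' s ↔ q (j s))) :
    Op E' q' b c d s k ↔ Op E q (j b) (j c) (j d) (j s) k := by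
  fin_cases k
  all_goals simp only [Op]
  · exact ⟨up j E' E, dn j E' E⟩
  · exact ⟨up j E' E, dn j E' E⟩
  · exact ⟨up j E' E, dn j E' E⟩
  · exact ⟨up j E' E, dn j E' E⟩
  · exact ⟨up j E' E, dn j E' E⟩
  · exact hq rfl

theorem op_congr {q q' : M → Prop} {b c d s : M} {k : Fin 6} (hq : k = 5 → (q s ↔ q' s)) :
    Op E q b c d s k ↔ Op E q' b c d s k := by
  fin_cases k
  all_goals simp only [Op]
  exact hq rfl

theorem sep0 (hs : ∀ (φ : Fm) (v : ℕ → M) (a : M), ∃ b, ∀ x, E x b ↔ (E x a ∧ Sat E φ (scons x v)))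
    (a : M) (P : M → Prop) [h : Df E (fun v => P (v 0))] : ∃ b, ∀ x, E x b ↔ E x a ∧ P x := by
  have : Nonempty M := ⟨a⟩
  have h1 := h.d1
  obtain ⟨φ, v, hφ⟩ := D2.definable (E := E) (S := fun x _ => P x) (fun s _ _ _ => h1 s)
  obtain ⟨b, hb⟩ := hs φ (scons a v) a
  exact ⟨b, fun x => by rw [hb, ← hφ x a]⟩

section
variable {q : M → Prop} {W : Set M}

theorem IMq.tr (h : IMq E q W) {x y : M} (hx : x ∈ W) (hy : E y x) : y ∈ W := h.1 x y hx hy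
theorem IMq.temb (h : IMq E q W) : TEmb (Subtype.val : W → M) (Res E W) E := TEmb.val h.1
theorem IMq.app (h : IMq E q W) {f x y : M} (hf : f ∈ W) (ha : App E f x y) : x ∈ W ∧ y ∈ W := by
  obtain ⟨p, ⟨s, t, _, ht, hp⟩, hpf⟩ := ha
  have := h.tr (h.tr hf hpf) ((hp t).2 (Or.inr rfl))
  exact ⟨h.tr this ((ht x).2 (Or.inl rfl)), h.tr this ((ht y).2 (Or.inr rfl))⟩
theorem IMq.opair (h : IMq E q W) {p x y : M} (hx : x ∈ W) (hy : y ∈ W) (hp : IsOPair E p x y) :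
    p ∈ W := by
  obtain ⟨s, t, hs, ht, hp⟩ := hp
  exact h.2.2.1 _ _ _ (h.2.2.1 _ _ _ hx hx hs) (h.2.2.1 _ _ _ hx hy ht) hp

variable [hZ : ZF E]

theorem IMq.im (h : IMq E q W) : IM E W := by
  refine ⟨h.1, h.2.1, h.2.2.1, fun k a b c d y ha hb hc hd hy => ?_⟩
  by_cases hk : k = 5
  · subst hk
    have : y = a := ext' E fun s => by simpa [Op] using hy s
    exact this ▸ ha
  · exact h.2.2.2 k a b c d y ha hb hc hd fun s => (hy s).trans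
      (and_congr_right fun _ => op_congr fun h => (hk h).elim)

theorem IM.ex_op (h : IM E W) (k : Fin 6) {a b c d : M} (ha : a ∈ W) (hb : b ∈ W) (hc : c ∈ W)
    (hd : d ∈ W) : ∃ y, y ∈ W ∧ ∀ s, E s y ↔ E s a ∧ Op E (fun _ => True) b c d s k := by
  obtain ⟨y, hy⟩ := sep E a (fun s => Op E (fun _ => True) b c d s k)
  exact ⟨y, h.2.2.2 k a b c d y ha hb hc hd hy, hy⟩

theorem IM.diff (h : IM E W) {a b : M} (ha : a ∈ W) (hb : b ∈ W) :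
    ∃ y, y ∈ W ∧ ∀ s, E s y ↔ E s a ∧ ¬ E s b := h.ex_op 0 ha hb hb hb

theorem IM.emp (h : IM E W) {e : M} (he : IsEmp E e) : e ∈ W := by
  obtain ⟨a, ha, -⟩ := h.2.1 e (fun z hz => (he z hz).elim)
  obtain ⟨y, hy, h⟩ := h.diff ha ha
  have : IsEmp E y := fun x hx => ((h x).1 hx).2 ((h x).1 hx).1
  exact this.uniq he ▸ hy

theorem IM.union (h : IM E W) {a b c : M} (ha : a ∈ W) (hb : b ∈ W)
    (hc : ∀ x, E x c ↔ E x a ∨ E x b) : c ∈ W := by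
  obtain ⟨d, hd, hcd⟩ := h.2.1 c (fun z hz => ((hc z).1 hz).elim (h.tr ha) (h.tr hb))
  obtain ⟨y1, hy1, h1⟩ := h.diff hd ha
  obtain ⟨y2, hy2, h2⟩ := h.diff hy1 hb
  obtain ⟨y3, hy3, h3⟩ := h.diff hd hy2
  have : y3 = c := ext' E fun x => by
    have := hcd x
    rw [h3, h2, h1, hc] at *
    tauto
  exact this ▸ hy3

theorem IM.ins (h : IM E W) {a b c : M} (ha : a ∈ W) (hb : b ∈ W)
    (hc : ∀ x, E x c ↔ E x a ∨ x = b) : c ∈ W := by
  obtain ⟨p, hp⟩ := ex_upair E b b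
  exact h.union ha (h.2.2.1 _ _ _ hb hb hp) fun x => by rw [hc, hp x, or_self]

theorem IM.num (h : IM E W) (k : ℕ) : num E k ∈ W := by
  induction k with
  | zero => exact h.emp (num_spec 0)
  | succ k ih => exact h.ins ih ih (num_suc k)

/-- cover the part of a set lying in `W` -/
theorem IM.cover (h : IM E W) (dW : D1 E (fun x => x ∈ W)) (c : M) :
    ∃ a, a ∈ W ∧ ∀ x, E x c → x ∈ W → E x a := by
  obtain ⟨c', hc'⟩ := sep E c (fun x => x ∈ W)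
  obtain ⟨a, ha, h⟩ := h.2.1 c' (fun z hz => ((hc' z).1 hz).2)
  exact ⟨a, ha, fun x h1 h2 => h x ((hc' x).2 ⟨h1, h2⟩)⟩

theorem IM.adm (h : IM E W) :
    Adm (Subtype.val : W → M) E (fun x => x ∈ W) (fun t => t ∈ W ∧ Fn E t) where
  rng := fun x => ⟨fun hx => ⟨⟨x, hx⟩, rfl⟩, fun ⟨b, hb⟩ => hb ▸ b.2⟩
  fn := fun _ ht => ht.2
  emp := fun e he => ⟨h.emp he, fun _ _ _ ⟨p, _, hp⟩ => (he p hp).elim⟩
  upd := fun s n a hs ha hn => by
    obtain ⟨p, hp⟩ := ex_opair E (MP_1d770b_lc.num E n) a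
    obtain ⟨t, ht⟩ := ex_ins E s p
    obtain ⟨h1, h2⟩ := upd_ins hp ht hs.2 hn
    exact ⟨t, ⟨h.ins hs.1 (h.opair (h.num n) ha hp) ht, h1⟩, h2⟩

theorem IM.truth (h : IM E W) (dW : D1 E (fun x => x ∈ W)) (φ : Fm) :
    ∀ ρ n a, a ∈ W → ∃ b, b ∈ W ∧ ∀ s, E s b ↔ E s a ∧
      SatA E (fun x => x ∈ W) (fun t => t ∈ W ∧ Fn E t) φ ρ n s := by
  induction φ with
  | mem i k => intro ρ n a ha; exact h.ex_op 1 ha (h.num (ρ i)) (h.num (ρ k)) ha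
  | eq i k => intro ρ n a ha; exact h.ex_op 2 ha (h.num (ρ i)) (h.num (ρ k)) ha
  | neg φ ih =>
    intro ρ n a ha
    obtain ⟨b, hb, h1⟩ := ih ρ n a ha
    obtain ⟨y, hy, h2⟩ := h.diff ha hb
    exact ⟨y, hy, fun s => by rw [h2, h1]; simp only [SatA]; tauto⟩
  | and φ ψ ih1 ih2 =>
    intro ρ n a ha
    obtain ⟨b, hb, h1⟩ := ih1 ρ n a ha
    obtain ⟨c, hc, h2⟩ := ih2 ρ n b hb
    exact ⟨c, hc, fun s => by rw [h2, h1]; simp only [SatA]; tauto⟩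
  | ex φ ih =>
    intro ρ n a ha
    have := SatA.df (E := E) (W := fun x => x ∈ W) (T := fun t => t ∈ W ∧ Fn E t) dW
      (fun _ _ => inferInstance) φ (scons n ρ) (n + 1)
    obtain ⟨c, hc⟩ := coll E a (fun s t => ∃ y, Upd E s (MP_1d770b_lc.num E n) y t ∧
      (t ∈ W ∧ Fn E t) ∧
      SatA E (fun x => x ∈ W) (fun t => t ∈ W ∧ Fn E t) φ (scons n ρ) (n + 1) t)
    obtain ⟨a', ha', hca⟩ := h.cover dW c
    obtain ⟨b', hb', h1⟩ := ih (scons n ρ) (n + 1) a' ha'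
    obtain ⟨y, hy, h2⟩ := h.ex_op 3 ha (h.num n) hb' ha
    refine ⟨y, hy, fun s => (h2 s).trans (and_congr_right fun hs => ⟨?_, ?_⟩)⟩
    · rintro ⟨t, z, ht, hu, hf⟩
      have htW := h.tr hb' ht
      exact ⟨z, t, (h.app htW hu.1).2, hu, ⟨htW, hf⟩, ((h1 t).1 ht).2⟩
    · rintro ⟨z, t, -, hu, ht, hS⟩
      obtain ⟨t, htc, z, hu, ht, hS⟩ := hc s hs ⟨t, z, hu, ht, hS⟩
      exact ⟨t, z, (h1 t).2 ⟨hca t htc ht.1, hS⟩, hu, ht.2⟩

theorem IM.sepW (h : IM E W) (dW : D1 E (fun x => x ∈ W)) (φ : Fm) (v : ℕ → W) (a : W) :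
    ∃ b : W, ∀ x, Res E W x b ↔ (Res E W x a ∧ Sat (Res E W) φ (scons x v)) := by
  obtain ⟨s, hs, -, h1, h2⟩ := h.adm.sect (E' := Res E W) φ v
  have hi := h.num (φ.fv + 1)
  generalize MP_1d770b_lc.num E (φ.fv + 1) = i at hi h1 h2
  obtain ⟨c, hc⟩ := coll E a.1 (fun x t => (t ∈ W ∧ Fn E t) ∧ Upd E s i x t)
  obtain ⟨a', ha', hca⟩ := h.cover dW c
  obtain ⟨b', hb', h3⟩ := h.truth dW φ φ.nm (φ.fv + 2) a' ha'
  obtain ⟨y, hy, h4⟩ := h.ex_op 4 a.2 hs.1 hi hb'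
  refine ⟨⟨y, hy⟩, fun x => (h4 x.1).trans (and_congr_right fun hx => ⟨?_, ?_⟩)⟩
  · rintro ⟨t, ht, hu, hf⟩
    exact (h2 x t ⟨h.tr hb' ht, hf⟩ hu).1 ((h3 t).1 ht).2
  · intro hS
    obtain ⟨t, htc, ht, hu⟩ := hc x.1 hx (h1 x)
    exact ⟨t, (h3 t).2 ⟨hca t htc ht.1, (h2 x t ht hu).2 hS⟩, hu, ht.2⟩

theorem IM.ord (h : IM E W) (dW : D1 E (fun x => x ∈ W)) {α : M} (hα : IsOrd E α) : α ∈ W := by
  have := h.temb
  refine ord_ind (fun x => x ∈ W) ?_ α hα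
  intro α hα IH
  obtain ⟨c, hc, hαc⟩ := h.2.1 α IH
  obtain ⟨d, hd⟩ := ex_sUnion E c
  obtain ⟨c2, hc2, hdc⟩ := h.cover dW d
  obtain ⟨u, hu⟩ := sep0 (h.sepW dW) ⟨c2, hc2⟩
    (fun x => ∃ y, Res E W y ⟨c, hc⟩ ∧ IsOrd (Res E W) y ∧ Res E W x y)
  have hu' : ∀ x, E x u.1 ↔ ∃ y, E y c ∧ IsOrd E y ∧ E x y := fun x => by
    constructor
    · intro hx
      exact up Subtype.val (Res E W) E (q := ∃ y, E y (⟨c, hc⟩ : W).1 ∧ IsOrd E y ∧
        E (⟨x, h.tr u.2 hx⟩ : W).1 y) ((hu ⟨x, h.tr u.2 hx⟩).1 hx).2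
    · rintro ⟨y, h1, h2, h3⟩
      have hyW := h.tr hc h1
      have hxW := h.tr hyW h3
      exact (hu ⟨x, hxW⟩).2 ⟨hdc x ((hd x).2 ⟨y, h1, h3⟩) hxW, ⟨y, hyW⟩, h1,
        dn Subtype.val (Res E W) E (q := IsOrd E (⟨y, hyW⟩ : W).1) h2, h3⟩
  have huo : IsOrd E u.1 := by
    refine ord_of_trans (fun x y hx hy => ?_) (fun x hx => ?_)
    · obtain ⟨z, h1, h2, h3⟩ := (hu' x).1 hx
      exact (hu' y).2 ⟨z, h1, h2, h2.tr h3 hy⟩
    · obtain ⟨z, -, h2, h3⟩ := (hu' x).1 hx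
      exact h2.mem h3
  obtain ⟨s, hs⟩ := ex_suc E u.1
  have hsW : s ∈ W := h.ins u.2 u.2 hs
  rcases hα.le_of_sub (hs.ord huo) (fun β hβ => (hs β).2 ((hα.mem hβ).le_of_sub huo fun x hx =>
    (hu' x).2 ⟨β, hαc β hβ, hα.mem hβ, hx⟩)) with h1 | h1
  · exact h.tr hsW h1
  · exact h1 ▸ hsW

theorem IM.zf (h : IM E W) (dW : D1 E (fun x => x ∈ W)) : ZF (Res E W) := by
  have := h.temb
  have hsep := h.sepW dW
  refine ⟨⟨fun a b H => Subtype.ext (ext' E fun x => ?_), ?_, fun a b => ?_, fun a => ?_,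
    fun a => ?_, ?_, hsep, fun φ v a H => ?_⟩⟩
  · exact ⟨fun hx => (H ⟨x, h.tr a.2 hx⟩).1 hx, fun hx => (H ⟨x, h.tr b.2 hx⟩).2 hx⟩
  · rintro a ⟨x, hx⟩
    obtain ⟨y, hy, H⟩ := found a.1 x.1 hx
    exact ⟨⟨y, h.tr a.2 hy⟩, hy, fun z hz => H z.1 hz⟩
  · obtain ⟨c, hc⟩ := ex_upair E a.1 b.1
    have hcW := h.2.2.1 _ _ _ a.2 b.2 hc
    exact ⟨⟨c, hcW⟩, dn Subtype.val (Res E W) E (q := IsUPair E (⟨c, hcW⟩ : W).1 a.1 b.1) hc⟩
  · obtain ⟨d, hd⟩ := ex_sUnion E a.1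
    obtain ⟨c, hc, hdc⟩ := h.cover dW d
    obtain ⟨u, hu⟩ := sep0 hsep ⟨c, hc⟩ (fun x => ∃ y, Res E W y a ∧ Res E W x y)
    exact ⟨u, fun x => (hu x).trans ⟨fun h => h.2, fun ⟨y, h1, h2⟩ =>
      ⟨hdc x.1 ((hd x.1).2 ⟨y.1, h1, h2⟩) x.2, y, h1, h2⟩⟩⟩
  · obtain ⟨d, hd⟩ := ex_pow E a.1
    obtain ⟨c, hc, hdc⟩ := h.cover dW d
    obtain ⟨u, hu⟩ := sep0 hsep ⟨c, hc⟩ (fun x => Sub (Res E W) x a)
    exact ⟨u, fun x => (hu x).trans ⟨fun h => h.2, fun h1 =>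
      ⟨hdc x.1 ((hd x.1).2 (up Subtype.val (Res E W) E (p := Sub (Res E W) x a) h1)) x.2, h1⟩⟩⟩
  · obtain ⟨w, hw⟩ := ex_omega E
    have hwW := h.ord dW hw.ord
    exact ⟨⟨w, hwW⟩, dn Subtype.val (Res E W) E (q := IsInd E (⟨w, hwW⟩ : W).1) hw.1⟩
  · have hrel := satW_iff (j := Subtype.val) (E' := Res E W) (E := E) (W := fun x => x ∈ W)
      h.adm.rng φ
    have d1 : Df E (fun w => SatW E (fun x => x ∈ W) φ (scons (w 0) (scons (w 1)
        (fun i => (v i).1)))) :=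
      ((SatW.df dW φ).subst
        (fun i => match i with | 0 => fun w => w 0 | 1 => fun w => w 1 | i + 2 => fun _ => (v i).1)
        (fun i => match i with
          | 0 => inferInstance | 1 => inferInstance | _ + 2 => inferInstance)).congr fun w => by
        congr! 1
        funext i
        match i with
        | 0 => rfl
        | 1 => rfl
        | _ + 2 => rfl
    obtain ⟨d, hd⟩ := coll E a.1 (fun x y => y ∈ W ∧
      SatW E (fun x => x ∈ W) φ (scons x (scons y (fun i => (v i).1))))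
    obtain ⟨c, hc, hdc⟩ := h.cover dW d
    have d2 : Df (Res E W) (fun w => Sat (Res E W) φ (scons (w 0) (scons (tl w 0) v))) :=
      (Df.sat φ
        (fun i => match i with | 0 => fun w => w 0 | 1 => fun w => w 1 | i + 2 => fun _ => v i)
        (fun i => match i with
          | 0 => inferInstance | 1 => inferInstance | _ + 2 => inferInstance)).congr fun w => by
        congr! 1
        funext i
        match i with
        | 0 => rfl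
        | 1 => rfl
        | _ + 2 => rfl
    obtain ⟨u, hu⟩ := sep0 hsep ⟨c, hc⟩
      (fun y => ∃ x, Res E W x a ∧ Sat (Res E W) φ (scons x (scons y v)))
    refine ⟨u, fun y => (hu y).trans ⟨fun h => h.2, fun ⟨x, h1, h2⟩ => ⟨?_, x, h1, h2⟩⟩⟩
    have key : ∀ y : W, SatW E (fun x => x ∈ W) φ (scons x.1 (scons y.1 (fun i => (v i).1))) ↔
        Sat (Res E W) φ (scons x (scons y v)) := fun y => by
      rw [← hrel, comp_scons, comp_scons]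
    obtain ⟨y', hy', hW, hS⟩ := hd x.1 h1 ⟨y.1, y.2, (key y).2 h2⟩
    obtain ⟨z, -, hz⟩ := H x h1
    have : y = ⟨y', hW⟩ := (hz y h2).trans (hz _ ((key ⟨y', hW⟩).1 hS)).symm
    exact this ▸ hdc y' hy' hW

end

end Pool.Agent.Lib.MP_1d770b_lc
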