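import Pool.Agent.Lib.MP_1d770b_lc.Cond

/-! The iterated sequence: local definability, and ZF in the intersection. -/

set_option synthInstance.maxSize 100000

namespace Pool.Agent.Lib.MP_1d770b_lc

universe u
variable {M N : Type u} {E : M → M → Prop} {E' : N → N → Prop} {j : N → M}

def ChW (E : M → M → Prop) (W : Set M) : Prop :=
  ∀ a, a ∈ W → (∀ x, E x a → ∃ y, E y x) →
    (∀ x x' y, E x a → E x' a → E y x → E y x' → x = x') →
      ∃ c, c ∈ W ∧ ∀ x, E x a → ∃! y, E y x ∧ E y c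

def IMC (E : M → M → Prop) (W : Set M) : Prop := IM E W ∧ ChW E W

instance (W : (ℕ → M) → Set M) [hW : DQ E (fun v x => x ∈ W v)] : Df E fun v => IMC E (W v) := by
  have := hW.dv
  unfold IMC ChW; infer_instance

theorem chW_iff {W : Set M} (h : ∀ x y, x ∈ W → E y x → y ∈ W) :
    ChW E W ↔ Choice (Res E W) := by
  have := TEmb.val h
  constructor
  · intro H a h1 h2
    obtain ⟨c, hc, h3⟩ := H a.1 a.2 (up Subtype.val (Res E W) E h1) (up Subtype.val (Res E W) E h2)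
    exact ⟨⟨c, hc⟩, dn Subtype.val (Res E W) E
      (q := ∀ x, E x a.1 → ∃! y, E y x ∧ E y (⟨c, hc⟩ : W).1) h3⟩
  · intro H a ha h1 h2
    obtain ⟨c, h3⟩ := H ⟨a, ha⟩
      (dn Subtype.val (Res E W) E (q := ∀ x, E x (⟨a, ha⟩ : W).1 → ∃ y, E y x) h1)
      (dn Subtype.val (Res E W) E (q := ∀ x x' y, E x (⟨a, ha⟩ : W).1 → E x' (⟨a, ha⟩ : W).1 →
        E y x → E y x' → x = x') h2)
    exact ⟨c.1, c.2, up Subtype.val (Res E W) E
      (q := ∀ x, E x (⟨a, ha⟩ : W).1 → ∃! y, E y x ∧ E y c.1) h3⟩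

def Phi (E : M → M → Prop) (w κ u u' : M) : Prop :=
  ∀ x, E x u' ↔ ∃ ξ, E ξ κ ∧ Val E (CofIn E w u) ξ x

def SS (E : M → M → Prop) (w κ m u0 f n y : M) : Prop :=
  (Le E n m → y = u0) ∧ (¬ Le E n m → ∀ n' y', IsSuc E n n' → App E f n' y' → Phi E w κ y' y)

def Seq (E : M → M → Prop) (w κ m u0 n y : M) : Prop :=
  Rec E (fun n => E n w) E (SS E w κ m u0) n y

section
variable (a b c d e f g : (ℕ → M) → M) [IsT a] [IsT b] [IsT c] [IsT d] [IsT e] [IsT f] [IsT g]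
instance (i : ℕ) (σ : (ℕ → M) → ℕ → M) [h : IsSh σ] : IsT fun v => σ v i := by
  obtain ⟨k, hk⟩ := h.out
  exact ⟨Or.inl ⟨i + k, fun v => hk v i⟩⟩
instance : Df E fun v => Phi E (a v) (b v) (c v) (d v) := by unfold Phi; infer_instance
instance : Df E fun v => SS E (a v) (b v) (c v) (d v) (e v) (f v) (g v) := by
  unfold SS; infer_instance
instance : Df E fun v => Seq E (a v) (b v) (c v) (d v) (e v) (f v) := by
  unfold Seq Rec Ap; infer_instance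
end

theorem dCofIn (w u : M) : D1 E (CofIn E w u) := fun _ _ => inferInstance

variable [hZ : ZF E]

theorem cs_imc {W : Set M} (h : IMC E W) (dW : D1 E (fun x => x ∈ W)) :
    IMC E (Subtype.val '' CStar (Res E W)) := by
  have := h.1.temb
  have := h.1.zf dW
  have h' := cstar_im (Res E W)
  refine ⟨⟨?_, fun y hy => ?_, ?_, ?_⟩, ?_⟩
  · rintro _ y ⟨x, hx, rfl⟩ hy
    exact ⟨⟨y, h.1.tr x.2 hy⟩, h'.tr hx hy, rfl⟩
  · obtain ⟨α, hα⟩ := ex_rk E y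
    let α' : W := ⟨α, h.1.ord dW hα.ord⟩
    obtain ⟨v, hv⟩ := ex_V
      (dn Subtype.val (Res E W) E (q := IsOrd E α'.1) (p := IsOrd (Res E W) α') hα.ord)
    obtain ⟨a, ha, H⟩ := h'.cover (fun _ _ => inferInstance) v
    refine ⟨a.1, ⟨a, ha, rfl⟩, fun z hz => ?_⟩
    obtain ⟨z, hz', rfl⟩ := hy z hz
    exact H z ((hv z).2 (rk_dn (j := Subtype.val) (hα.mem hz))) hz'
  · rintro _ _ c ⟨a, ha, rfl⟩ ⟨b, hb, rfl⟩ hc
    have hcW := h.1.2.2.1 _ _ _ a.2 b.2 hc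
    exact ⟨⟨c, hcW⟩, h'.2.2.1 _ _ _ ha hb
      (dn Subtype.val (Res E W) E (q := IsUPair E (⟨c, hcW⟩ : W).1 a.1 b.1) hc), rfl⟩
  · rintro k _ _ _ _ y ⟨a, ha, rfl⟩ ⟨b, hb, rfl⟩ ⟨c, hc, rfl⟩ ⟨d, hd, rfl⟩ hy
    have hyW := h.1.2.2.2 k _ _ _ _ y a.2 b.2 c.2 d.2 hy
    refine ⟨⟨y, hyW⟩, h'.2.2.2 k a b c d _ ha hb hc hd fun s => (hy s.1).trans ?_, rfl⟩
    rw [op_abs (j := Subtype.val) (E := E) (q := fun _ => True) _ _ _ _ _ (fun _ => Iff.rfl)]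
    rfl
  · rintro _ ⟨a, ha, rfl⟩ h1 h2
    obtain ⟨c, hc, h3⟩ := (chW_iff h'.1).2 (cstar_choice (Res E W)) a ha
      (dn Subtype.val (Res E W) E h1) (dn Subtype.val (Res E W) E h2)
    exact ⟨c.1, ⟨c, hc, rfl⟩, up Subtype.val (Res E W) E h3⟩

theorem cs_local {W : Set M} (h : IMC E W) (dW : D1 E (fun x => x ∈ W)) {w κ u u' : M}
    (hw : IsOmega E w) (hκ : Good E w κ) (hwκ : E w κ) (hu : ∀ x, E x u ↔ x ∈ W ∧ Rk E x κ)
    (hP : Phi E w κ u u') (x : M) :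
    E x u' ↔ x ∈ Subtype.val '' CStar (Res E W) ∧ Rk E x κ := by
  have := h.1.temb
  have := h.1.zf dW
  let w' : W := ⟨w, h.1.ord dW hw.ord⟩
  let κ' : W := ⟨κ, h.1.ord dW hκ.1⟩
  have hw' : IsOmega (Res E W) w' := omega_dn (j := Subtype.val) hw
  have hκ' : Good (Res E W) w' κ' := dn Subtype.val (Res E W) E (q := Good E w'.1 κ'.1) hκ
  have hq : ∀ s : W, Rk E s.1 κ → (Cof (Res E W) w' s ↔ CofIn E w u s.1) := fun s hs => by
    rw [cof_iff]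
    constructor
    · rintro ⟨h1, f, h2⟩
      have h3 : CofF E w'.1 s.1 f.1 := up Subtype.val (Res E W) E h2
      refine ⟨up Subtype.val (Res E W) E h1, f.1, (hu _).2 ⟨f.2, ?_⟩, h3⟩
      obtain ⟨β, k1, k2, k3⟩ := hκ.lim.rk2 hs (hκ.1.rk hwκ)
      refine hκ.lim.rel k1 fun p hp => ?_
      obtain ⟨n, b, k4, ⟨c, k5⟩, k6⟩ := h3.1 p hp
      exact ⟨n, b, k6, k3.mem k4, k5.elim (fun h => (k2.app h).1) (fun h => (k2.app h).2)⟩
    · rintro ⟨h1, f, h2, h3⟩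
      exact ⟨dn Subtype.val (Res E W) E h1, ⟨f, ((hu f).1 h2).1⟩,
        dn Subtype.val (Res E W) E (q := CofF E w'.1 s.1 (⟨f, ((hu f).1 h2).1⟩ : W).1) h3⟩
  have hq' : ∀ ξ : W, E ξ.1 κ → ∀ (s : W) η z, E η ξ.1 → Val E (CofIn E w u) η z → E s.1 z →
      (Cof (Res E W) w' s ↔ CofIn E w u s.1) := fun ξ hξ s η z k1 k2 k3 =>
    hq s ((k2.rk (dCofIn w u) hκ.1 (hκ.1.tr hξ k1)).mem k3)
  rw [hP x, cstar_eq hw']
  constructor
  · rintro ⟨ξ, h1, h2⟩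
    let ξ' : W := ⟨ξ, h.1.ord dW h2.ord⟩
    obtain ⟨x', rfl, h3⟩ := Val.abs (j := Subtype.val) (ξ := ξ') (dCofIn w u) (dCof w')
      (hq' ξ' h1) h2
    exact ⟨⟨x', ⟨ξ', h3⟩, rfl⟩, h2.rk (dCofIn w u) hκ.1 h1⟩
  · rintro ⟨⟨x', h1, rfl⟩, h2⟩
    obtain ⟨ξ, h3, h4⟩ := condensation ((chW_iff h.1.1).1 h.2) hw' hκ' h1
      (rk_dn (j := Subtype.val) h2)
    exact ⟨ξ.1, h3, h4.up (j := Subtype.val) (dCofIn w u) (hq' ξ h3)⟩

theorem phi_up [ZF E'] [hj : TEmb j E' E] {w κ u u' : N} (h : Phi E' w κ u u') :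
    Phi E (j w) (j κ) (j u) (j u') := by
  have hq : ∀ s, CofIn E' w u s ↔ CofIn E (j w) (j u) (j s) := fun s => ⟨up j E' E, dn j E' E⟩
  intro x
  constructor
  · intro hx
    obtain ⟨x, rfl⟩ := hj.tr _ _ hx
    obtain ⟨ξ, h1, h2⟩ := (h x).1 (dn j E' E hx)
    exact ⟨j ξ, up j E' E h1, h2.up (dCofIn _ _) fun s _ _ _ _ _ => hq s⟩
  · rintro ⟨ξ, h1, h2⟩
    obtain ⟨ξ, rfl⟩ := hj.tr _ _ h1
    obtain ⟨x, rfl, h3⟩ := Val.abs (dCofIn _ _) (dCofIn w u) (fun s _ _ _ _ _ => hq s) h2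
    exact up j E' E ((h x).2 ⟨ξ, dn j E' E h1, h3⟩)

theorem recSeq {w m : M} (hw : IsOmega E w) (hm : E m w) (κ u0 : M) :
    RecOK E (fun n => E n w) E (SS E w κ m u0) where
  dA := fun _ _ => inferInstance
  dR := fun _ _ _ _ => inferInstance
  sub := fun _ _ h h' => hw.ord.tr h h'
  trans := fun _ _ _ h h1 h2 => (hw.ord.mem h).tr h1 h2
  setlike := fun x _ => ⟨x, fun _ h => h⟩
  wf := fun P _ H x hx => ord_ind (fun x => E x w → P x) (fun a _ IH ha =>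
    H a ha fun b hb => IH b hb (hw.ord.tr ha hb)) x (hw.ord.mem hx) hx
  dS := fun _ _ _ _ _ _ => inferInstance
  inv := fun f g x y _ H hS => ⟨hS.1, fun h n' y' h1 h2 => hS.2 h n' y' h1 ((H n' h1.self y').2 h2)⟩
  ex := fun f n hn H => by
    by_cases h : Le E n m
    · exact ⟨u0, fun _ => rfl, fun h' => (h' h).elim⟩
    rcases hw.cases hn with h0 | ⟨n', -, hs⟩
    · exact (h (h0.le (hw.ord.mem hm))).elim
    obtain ⟨y', hy', hu⟩ := H n' hs.self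
    obtain ⟨y, hy⟩ := repl E κ (fun ξ x => Val E (CofIn E w y') ξ x)
      (fun _ _ _ _ h1 h2 => h1.fn (dCofIn _ _) h2)
    refine ⟨y, fun h' => (h h').elim, fun _ n'' y'' h1 h2 => ?_⟩
    obtain rfl := hs.inj h1
    exact hu y'' h2 ▸ hy
  uniq := fun f n y y' hn H h1 h2 => by
    by_cases h : Le E n m
    · exact (h1.1 h).trans (h2.1 h).symm
    rcases hw.cases hn with h0 | ⟨n', -, hs⟩
    · exact (h (h0.le (hw.ord.mem hm))).elim
    obtain ⟨z, hz, -⟩ := H n' hs.self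
    exact ext' E fun x => (h1.2 h n' z hs hz x).trans (h2.2 h n' z hs hz x).symm

omit hZ in
theorem Seq.dom {w m κ u0 n y : M} (h : Seq E w κ m u0 n y) : E n w :=
  Rec.dom (A := fun n => E n w) h

theorem Seq.base {w m κ u0 n y : M} (hw : IsOmega E w) (hm : E m w) (h : Seq E w κ m u0 n y)
    (hn : Le E n m) : y = u0 :=
  let ⟨_, _, hS⟩ := (recSeq hw hm κ u0).elim h; hS.1 hn

theorem Seq.step {w m κ u0 n y s y' : M} (hw : IsOmega E w) (hm : E m w) (h : Seq E w κ m u0 n y)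
    (hn : Le E m n) (hs : IsSuc E s n) (h' : Seq E w κ m u0 s y') : Phi E w κ y y' := by
  obtain ⟨f, hf, hS⟩ := (recSeq hw hm κ u0).elim h'
  refine hS.2 (fun h1 => ?_) n y hs ((hf n hs.self y).2 h)
  exact (h1.trans hn (hw.ord.mem h.dom)).not_lt hs.self

theorem ex_good' (hC : Choice E) {w : M} (hw : IsOmega E w) (x : M) :
    ∃ κ v, Good E w κ ∧ E w κ ∧ Rk E x κ ∧ ∀ z, E z v ↔ Rk E z κ := by
  obtain ⟨p, hp⟩ := ex_upair E x w
  obtain ⟨κ, h1, h2⟩ := ex_good hC hw p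
  obtain ⟨v, hv⟩ := ex_V h1.1
  exact ⟨κ, v, h1, (h2.mem ((hp w).2 (Or.inr rfl))).ord_mem hw.ord,
    h2.mem ((hp x).2 (Or.inl rfl)), hv⟩

omit hZ in
theorem imc_univ (hC : Choice E) : IMC E Set.univ :=
  ⟨⟨fun _ _ _ _ => trivial, fun y _ => ⟨y, trivial, fun _ h => h⟩, fun _ _ _ _ _ _ => trivial,
    fun _ _ _ _ _ _ _ _ _ _ _ => trivial⟩,
    fun a _ h1 h2 => let ⟨c, hc⟩ := hC a h1 h2; ⟨c, trivial, hc⟩⟩

theorem ex_iter (hC : Choice E) {w : M} (hw : IsOmega E w) :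
    ∃ C, IsIter E w C ∧ D2 E (fun n x => x ∈ C n) := by
  obtain ⟨e, he⟩ := ex_emp E
  have hew := hw.emp he
  let C : M → Set M := fun n => {x | ∃ κ v u, Good E w κ ∧ E w κ ∧ (∀ z, E z v ↔ Rk E z κ) ∧
    Seq E w κ e v n u ∧ E x u}
  have dC : D2 E (fun n x => x ∈ C n) := fun _ _ _ _ => by
    simp only [C, Set.mem_ofPred_eq]; infer_instance
  have h0 : C e = Set.univ := Set.eq_univ_of_forall fun x => by
    obtain ⟨κ, v, h1, h2, h3, h4⟩ := ex_good' hC hw x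
    obtain ⟨u, hu⟩ := (recSeq hw hew κ v).total hew
    exact ⟨κ, v, u, h1, h2, h4, hu, Seq.base hw hew hu (Or.inr rfl) ▸ (h4 x).2 h3⟩
  have step : ∀ n s, E n w → IsSuc E s n → (IMC E (C n) ∧ ∀ κ v u, Good E w κ → E w κ →
      (∀ z, E z v ↔ Rk E z κ) → Seq E w κ e v n u → ∀ x, E x u ↔ x ∈ C n ∧ Rk E x κ) →
      C s = Subtype.val '' CStar (Res E (C n)) ∧ ∀ κ v u, Good E w κ → E w κ →
      (∀ z, E z v ↔ Rk E z κ) → Seq E w κ e v s u →
        ∀ x, E x u ↔ x ∈ Subtype.val '' CStar (Res E (C n)) ∧ Rk E x κ := by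
    intro n s hn hs ⟨h1, h2⟩
    have key : ∀ κ v u, Good E w κ → E w κ → (∀ z, E z v ↔ Rk E z κ) → Seq E w κ e v s u →
        ∀ x, E x u ↔ x ∈ Subtype.val '' CStar (Res E (C n)) ∧ Rk E x κ := by
      intro κ v u k1 k2 k3 k4
      obtain ⟨u0, k5⟩ := (recSeq hw hew κ v).total hn
      exact cs_local h1 (fun t _ => dC (fun _ => n) t) hw k1 k2 (h2 κ v u0 k1 k2 k3 k5)
        (Seq.step hw hew k5 (he.le (hw.ord.mem hn)) hs k4)
    refine ⟨Set.ext fun x => ⟨?_, fun hx => ?_⟩, key⟩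
    · rintro ⟨κ, v, u, k1, k2, k3, k4, k5⟩
      exact ((key κ v u k1 k2 k3 k4 x).1 k5).1
    · obtain ⟨κ, v, k1, k2, k3, k4⟩ := ex_good' hC hw x
      obtain ⟨u, hu⟩ := (recSeq hw hew κ v).total (hw.suc hs hn)
      exact ⟨κ, v, u, k1, k2, k4, hu, (key κ v u k1 k2 k4 hu x).2 ⟨hx, k3⟩⟩
  have main : ∀ n, E n w → IMC E (C n) ∧ ∀ κ v u, Good E w κ → E w κ →
      (∀ z, E z v ↔ Rk E z κ) → Seq E w κ e v n u → ∀ x, E x u ↔ x ∈ C n ∧ Rk E x κ := by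
    refine hw.ind _ (fun e' he' => ?_) (fun n s hn hs H => ?_)
    · obtain rfl := he.uniq he'
      rw [h0]
      refine ⟨imc_univ hC, fun κ v u _ _ k3 k4 x => ?_⟩
      rw [Seq.base hw hew k4 (Or.inr rfl), k3]
      simp
    · obtain ⟨k1, k2⟩ := step n s hn hs H
      rw [k1]
      exact ⟨cs_imc H.1 (fun t _ => dC (fun _ => n) t), k2⟩
  refine ⟨C, ⟨fun z hz => ?_, fun n s hn hs => (step n s hn hs (main n hn)).1⟩, dC⟩
  exact he.uniq hz ▸ h0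

theorem iter_imc (hC : Choice E) {w : M} (hw : IsOmega E w) {C : M → Set M} (h : IsIter E w C)
    (dC : D2 E (fun n x => x ∈ C n)) (n : M) (hn : E n w) : IMC E (C n) := by
  refine hw.ind (fun n => IMC E (C n)) (fun e he => ?_) (fun n s hn hs H => ?_) n hn
  · rw [h.1 e he]; exact imc_univ hC
  · rw [h.2 n s hn hs]; exact cs_imc H (fun t _ => dC (fun _ => n) t)

theorem iter_mono {w : M} (hw : IsOmega E w) {C : M → Set M} (h : IsIter E w C)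
    (dC : D2 E (fun n x => x ∈ C n)) {n m : M} (hm : E m w) (hn : Le E n m) {x : M}
    (hx : x ∈ C m) : x ∈ C n := by
  refine hw.ind (fun m => Le E n m → x ∈ C m → x ∈ C n) (fun e he h1 h2 => ?_)
    (fun m s hm hs H h1 h2 => ?_) m hm hn hx
  · rcases h1 with h1 | rfl
    · exact (he _ h1).elim
    · exact h2
  · rcases h1 with h1 | rfl
    · rw [h.2 m s hm hs] at h2
      obtain ⟨x, -, rfl⟩ := h2
      exact H ((hs n).1 h1) x.2
    · exact h2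

theorem limit_im (hC : Choice E) {w : M} (hw : IsOmega E w) {C : M → Set M} (h : IsIter E w C)
    (dC : D2 E (fun n x => x ∈ C n)) : IM E {x | ∀ n, E n w → x ∈ C n} := by
  have H := iter_imc hC hw h dC
  refine ⟨fun x y hx hy n hn => (H n hn).1.tr (hx n hn) hy, fun y hy => ?_,
    fun a b c ha hb hc n hn => (H n hn).1.2.2.1 a b c (ha n hn) (hb n hn) hc,
    fun k a b c d y ha hb hc hd hy n hn =>
      (H n hn).1.2.2.2 k a b c d y (ha n hn) (hb n hn) (hc n hn) (hd n hn) hy⟩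
  obtain ⟨κ, v, k1, k2, k3, k4⟩ := ex_good' hC hw y
  obtain ⟨B, hB⟩ := sep E v (fun x => ∀ n, E n w → x ∈ C n)
  refine ⟨B, fun m hm => ?_, fun z hz => (hB z).2 ⟨(k4 z).2 (k3.mem hz), hy z hz⟩⟩
  have hW := H m hm
  have dW : D1 E (fun x => x ∈ C m) := fun t _ => dC (fun _ => m) t
  have := hW.1.temb
  have := hW.1.zf dW
  let w' : C m := ⟨w, hW.1.ord dW hw.ord⟩
  let κ' : C m := ⟨κ, hW.1.ord dW k1.1⟩
  let m' : C m := ⟨m, hW.1.ord dW (hw.ord.mem hm)⟩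
  have hw' : IsOmega (Res E (C m)) w' := omega_dn (j := Subtype.val) hw
  have hm' : Res E (C m) m' w' := hm
  obtain ⟨u0, hu0⟩ := ex_V
    (dn Subtype.val (Res E (C m)) E (q := IsOrd E κ'.1) (p := IsOrd (Res E (C m)) κ') k1.1)
  have hu0' : ∀ x, E x u0.1 ↔ x ∈ C m ∧ Rk E x κ := fun x => ⟨fun hx =>
    ⟨hW.1.tr u0.2 hx, rk_up (j := Subtype.val) ((hu0 ⟨x, hW.1.tr u0.2 hx⟩).1 hx)⟩,
    fun hx => (hu0 ⟨x, hx.1⟩).2 (rk_dn (j := Subtype.val) hx.2)⟩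
  obtain ⟨F, -, hF⟩ := ex_fun (Res E (C m)) w' (fun n y => Seq (Res E (C m)) w' κ' m' u0 n y)
    (fun _ _ _ _ h1 h2 => (recSeq hw' hm' κ' u0).fn h1 h2)
  have hF' : ∀ n u, App E F.1 n u → ∃ n' u' : C m, n'.1 = n ∧ u'.1 = u ∧
      Seq (Res E (C m)) w' κ' m' u0 n' u' := fun n u hu => by
    obtain ⟨n, rfl⟩ : ∃ b : C m, b.1 = n := bd Subtype.val (Res E (C m)) E hu
    obtain ⟨u, rfl⟩ : ∃ b : C m, b.1 = u := bd Subtype.val (Res E (C m)) E hu
    exact ⟨n, u, rfl, rfl, ((hF n u).1 (dn Subtype.val (Res E (C m)) E hu)).2⟩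
  have htot : ∀ n, E n w → ∃ u, App E F.1 n u := fun n hn => by
    let n' : C m := ⟨n, hW.1.tr w'.2 hn⟩
    obtain ⟨u, hu⟩ := (recSeq hw' hm' κ' u0).total (x := n') hn
    exact ⟨u.1, up Subtype.val (Res E (C m)) E (q := App E F.1 n'.1 u.1) ((hF n' u).2 ⟨hn, hu⟩)⟩
  have hbase : ∀ n u, App E F.1 n u → Le E n m → u = u0.1 := fun n u hu hn => by
    obtain ⟨n, u, rfl, rfl, h1⟩ := hF' n u hu
    rw [h1.base hw' hm' (dn Subtype.val (Res E (C m)) E (q := Le E n.1 m'.1) hn)]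
  have key : ∀ n, E n w → ∀ u, App E F.1 n u → Le E m n → ∀ x, E x u ↔ x ∈ C n ∧ Rk E x κ := by
    refine hw.ind _ (fun e he u h1 h2 => ?_) (fun n s hn hs IH u h1 h2 => ?_)
    · rcases h2 with h2 | rfl
      · exact (he _ h2).elim
      · rw [hbase _ u h1 (Or.inr rfl)]; exact hu0'
    · rcases h2 with h2 | rfl
      · obtain ⟨u1, h3⟩ := htot n hn
        have h4 := IH u1 h3 ((hs m).1 h2)
        obtain ⟨s, u, rfl, rfl, h5⟩ := hF' s u h1
        obtain ⟨n, u1, rfl, rfl, h6⟩ := hF' n u1 h3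
        have h7 := phi_up (j := Subtype.val) (E := E) (h6.step hw' hm'
          (dn Subtype.val (Res E (C m)) E (q := Le E m'.1 n.1) ((hs m).1 h2))
          (dn Subtype.val (Res E (C m)) E hs) h5)
        rw [h.2 _ _ hn hs]
        exact cs_local (H _ hn) (fun t _ => dC (fun _ => n.1) t) hw k1 k2 h4 h7
      · rw [hbase _ u h1 (Or.inr rfl)]; exact hu0'
  obtain ⟨B', hB'⟩ := sep (Res E (C m)) u0
    (fun x => ∀ n u, App (Res E (C m)) F n u → Res E (C m) x u)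
  have hB'' : ∀ x, E x B'.1 ↔ E x u0.1 ∧ ∀ n u, App E F.1 n u → E x u :=
    up Subtype.val (Res E (C m)) E hB'
  have : B'.1 = B := ext' E fun x => by
    rw [hB'', hB, hu0', k4]
    constructor
    · rintro ⟨⟨h1, h2⟩, h3⟩
      refine ⟨h2, fun n hn => ?_⟩
      by_cases hmn : E m n
      · obtain ⟨u, hu⟩ := htot n hn
        exact ((key n hn u hu (Or.inl hmn) x).1 (h3 n u hu)).1
      · exact iter_mono hw h dC hm ((hw.ord.mem hn).le_of_not (hw.ord.mem hm) hmn) h1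
    · rintro ⟨h1, h2⟩
      refine ⟨⟨h2 m hm, h1⟩, fun n u hu => ?_⟩
      have hn : E n w := by
        obtain ⟨n, u, rfl, rfl, h3⟩ := hF' n u hu
        exact h3.dom
      by_cases hmn : E m n
      · exact (key n hn u hu (Or.inl hmn) x).2 ⟨h2 n hn, h1⟩
      · rw [hbase n u hu ((hw.ord.mem hn).le_of_not (hw.ord.mem hm) hmn)]
        exact (hu0' x).2 ⟨h2 m hm, h1⟩
  exact this ▸ B'.2

theorem limit_zf (hC : Choice E) {w : M} (hw : IsOmega E w) {C : M → Set M} (h : IsIter E w C)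
    (dC : D2 E (fun n x => x ∈ C n)) : IsZF (Res E {x | ∀ n, E n w → x ∈ C n}) :=
  ((limit_im hC hw h dC).zf (fun _ _ => by
    simp only [Set.mem_ofPred_eq]; infer_instance)).out

theorem iter_agree {w : M} (hw : IsOmega E w) {C C' : M → Set M} (h : IsIter E w C)
    (h' : IsIter E w C') (hwf : WellFounded fun a b : {n // E n w} => E a.1 b.1) (n : M)
    (hn : E n w) : C n = C' n := by
  refine hwf.induction (C := fun a => C a.1 = C' a.1) ⟨n, hn⟩ fun a IH => ?_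
  rcases hw.cases a.2 with h0 | ⟨m, hm, hs⟩
  · rw [h.1 _ h0, h'.1 _ h0]
  · rw [h.2 m _ hm hs, h'.2 m _ hm hs]
    have : C m = C' m := IH ⟨m, hm⟩ hs.self
    rw [this]

theorem iter_agree' {w : M} (hw : IsOmega E w) {C C' : M → Set M} (h : IsIter E w C)
    (h' : IsIter E w C') (dC : D2 E (fun n x => x ∈ C n)) (dC' : D2 E (fun n x => x ∈ C' n))
    (n : M) (hn : E n w) : C n = C' n := by
  refine Set.ext (hw.ind (fun n => ∀ x, x ∈ C n ↔ x ∈ C' n) (fun e he x => ?_)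
    (fun m s hm hs H x => ?_) n hn)
  · rw [h.1 _ he, h'.1 _ he]
  · rw [h.2 m _ hm hs, h'.2 m _ hm hs]
    have : C m = C' m := Set.ext H
    rw [this]

end Pool.Agent.Lib.MP_1d770b_lc
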