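import Pool.Agent.Lib.MP_1d770b_lc.Gam

/-! An enumeration, by the ordinals, of the least inner model amenable to a class `q`. -/

set_option synthInstance.maxSize 100000

namespace Pool.Agent.Lib.MP_1d770b_lc

universe u
variable {M N : Type u} {E : M → M → Prop} {E' : N → N → Prop} {j : N → M}

def Gd (E : M → M → Prop) (ξ a b c d : M) : Prop := E a ξ ∧ E b ξ ∧ E c ξ ∧ E d ξ

def VS (E : M → M → Prop) (q : M → Prop) (F : M → M → Prop) (ξ y : M) : Prop :=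
  ∃ k a b c d, Dec E ξ k a b c d ∧
    ((Gd E ξ a b c d ∧ IsNum E 6 k ∧ ∃ va vb, F a va ∧ F b vb ∧ IsUPair E y va vb) ∨
     (∃ i : Fin 6, Gd E ξ a b c d ∧ IsNum E i k ∧ ∃ va vb vc vd, F a va ∧ F b vb ∧ F c vc ∧
        F d vd ∧ ∀ s, E s y ↔ E s va ∧ Op E q vb vc vd s i) ∨
     ((¬ Gd E ξ a b c d ∨ (¬ IsNum E 6 k ∧ ∀ i : Fin 6, ¬ IsNum E i k)) ∧
        ∀ z, E z y ↔ ∃ η, E η ξ ∧ F η z))

def Val (E : M → M → Prop) (q : M → Prop) (ξ y : M) : Prop :=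
  Rec E (IsOrd E) E (fun f => VS E q (App E f)) ξ y

def KK (E : M → M → Prop) (q : M → Prop) : Set M := {y | ∃ ξ, Val E q ξ y}

section
variable (a b c d e : (ℕ → M) → M) [IsT a] [IsT b] [IsT c] [IsT d] [IsT e]
  (q : (ℕ → M) → M → Prop) [hq : DQ E q]
omit hq in
instance : Df E fun v => Gd E (a v) (b v) (c v) (d v) (e v) := by unfold Gd; infer_instance
instance : Df E fun v => VS E (q v) (App E (a v)) (b v) (c v) := by
  have := hq.dv
  unfold VS; infer_instance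
instance : Df E fun v => Val E (q v) (a v) (b v) := by
  have := hq.dv
  unfold Val Rec Ap; infer_instance
instance : Df E fun v => a v ∈ KK E (q v) := by
  have := hq.dv
  unfold KK; simp only [Set.mem_ofPred_eq]; infer_instance
end

instance UD.exFin (n : ℕ) (P : Fin n → ∀ (M : Type u), (M → M → Prop) → (ℕ → M) → Prop)
    [h : ∀ k, UD (P k)] : UD (fun M E v => ∃ k, P k M E v) :=
  UD.congr (P := fun M E v => ¬ ∀ k, ¬ P k M E v) inferInstance (fun _ _ _ => by simp)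

section
variable (i k l m n o : ℕ)
instance : UD.{u} fun _ E v => Gd E (v i) (v k) (v l) (v m) (v n) := by unfold Gd; infer_instance
instance (r : Fin 6) : UD.{u} fun _ E v => Op E (Cof E (v o)) (v i) (v k) (v l) (v m) r := by
  fin_cases r <;> (simp only [Op]; infer_instance)
instance : UD.{u} fun _ E v => VS E (Cof E (v o)) (App E (v i)) (v k) (v l) := by
  unfold VS; infer_instance
instance : UD.{u} fun _ E v => Val E (Cof E (v o)) (v i) (v k) := by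
  unfold Val Rec Ap; infer_instance
end

theorem VS.congr {q : M → Prop} {F F' : M → M → Prop} {ξ y : M}
    (H : ∀ η, E η ξ → ∀ z, F η z ↔ F' η z) (h : VS E q F ξ y) : VS E q F' ξ y := by
  obtain ⟨k, a, b, c, d, hD, h⟩ := h
  refine ⟨k, a, b, c, d, hD, ?_⟩
  rcases h with ⟨hg, hk, va, vb, h1, h2, h3⟩ | ⟨i, hg, hk, va, vb, vc, vd, h1, h2, h3, h4, h5⟩ |
    ⟨hg, h⟩
  · exact Or.inl ⟨hg, hk, va, vb, (H a hg.1 _).1 h1, (H b hg.2.1 _).1 h2, h3⟩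
  · exact Or.inr (Or.inl ⟨i, hg, hk, va, vb, vc, vd, (H a hg.1 _).1 h1, (H b hg.2.1 _).1 h2,
      (H c hg.2.2.1 _).1 h3, (H d hg.2.2.2 _).1 h4, h5⟩)
  · exact Or.inr (Or.inr ⟨hg, fun z => (h z).trans
      (exists_congr fun η => and_congr_right fun hη => H η hη z)⟩)

variable [hZ : ZF E] {q : M → Prop}

theorem VS.pair {F : M → M → Prop} {ξ y k a b c d : M} (h : VS E q F ξ y)
    (hD : Dec E ξ k a b c d) (hg : Gd E ξ a b c d) (hk : IsNum E 6 k) :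
    ∃ va vb, F a va ∧ F b vb ∧ IsUPair E y va vb := by
  obtain ⟨k', a', b', c', d', hD', h⟩ := h
  obtain ⟨rfl, rfl, rfl, rfl, rfl⟩ := hD.fn hD'
  rcases h with ⟨-, -, h⟩ | ⟨i, -, hk', -⟩ | ⟨h | h, -⟩
  · exact h
  · have := hk.inj hk'; omega
  · exact (h hg).elim
  · exact (h.1 hk).elim

theorem VS.op {F : M → M → Prop} {ξ y k a b c d : M} (h : VS E q F ξ y)
    (hD : Dec E ξ k a b c d) (hg : Gd E ξ a b c d) {i : Fin 6} (hk : IsNum E i k) :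
    ∃ va vb vc vd, F a va ∧ F b vb ∧ F c vc ∧ F d vd ∧
      ∀ s, E s y ↔ E s va ∧ Op E q vb vc vd s i := by
  obtain ⟨k', a', b', c', d', hD', h⟩ := h
  obtain ⟨rfl, rfl, rfl, rfl, rfl⟩ := hD.fn hD'
  rcases h with ⟨-, hk', -⟩ | ⟨i', -, hk', h⟩ | ⟨h | h, -⟩
  · have := hk.inj hk'; omega
  · obtain rfl : i = i' := Fin.ext (hk.inj hk')
    exact h
  · exact (h hg).elim
  · exact (h.2 i hk).elim

theorem VS.rng {F : M → M → Prop} {ξ y k a b c d : M} (h : VS E q F ξ y)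
    (hD : Dec E ξ k a b c d)
    (hg : ¬ Gd E ξ a b c d ∨ (¬ IsNum E 6 k ∧ ∀ i : Fin 6, ¬ IsNum E i k)) :
    ∀ z, E z y ↔ ∃ η, E η ξ ∧ F η z := by
  obtain ⟨k', a', b', c', d', hD', h⟩ := h
  obtain ⟨rfl, rfl, rfl, rfl, rfl⟩ := hD.fn hD'
  rcases h with ⟨h1, h2, -⟩ | ⟨i', h1, h2, -⟩ | ⟨-, h⟩
  · exact (hg.elim (fun h => h h1) (fun h => h.1 h2)).elim
  · exact (hg.elim (fun h => h h1) (fun h => h.2 i' h2)).elim
  · exact h

theorem recVal (dq : D1 E q) : RecOK E (IsOrd E) E (fun f => VS E q (App E f)) :=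
  { wfOrd E with
    dS := fun _ _ _ _ _ _ => inferInstance
    inv := fun f g x y _ H hS => hS.congr H
    ex := fun f x hx H => by
      obtain ⟨k, a, b, c, d, hD⟩ := Dec.total hx
      by_cases h1 : Gd E x a b c d ∧ IsNum E 6 k
      · obtain ⟨va, ha, -⟩ := H a h1.1.1
        obtain ⟨vb, hb, -⟩ := H b h1.1.2.1
        obtain ⟨y, hy⟩ := ex_upair E va vb
        exact ⟨y, k, a, b, c, d, hD, Or.inl ⟨h1.1, h1.2, va, vb, ha, hb, hy⟩⟩
      by_cases h2 : ∃ i : Fin 6, Gd E x a b c d ∧ IsNum E i k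
      · obtain ⟨i, hg, hk⟩ := h2
        obtain ⟨va, ha, -⟩ := H a hg.1
        obtain ⟨vb, hb, -⟩ := H b hg.2.1
        obtain ⟨vc, hc, -⟩ := H c hg.2.2.1
        obtain ⟨vd, hd, -⟩ := H d hg.2.2.2
        obtain ⟨y, hy⟩ := sep E va (fun s => Op E q vb vc vd s i)
        exact ⟨y, k, a, b, c, d, hD,
          Or.inr (Or.inl ⟨i, hg, hk, va, vb, vc, vd, ha, hb, hc, hd, hy⟩)⟩
      obtain ⟨D, hD'⟩ := ex_fld E f
      obtain ⟨y, hy⟩ := sep E D (fun z => ∃ η, E η x ∧ App E f η z)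
      refine ⟨y, k, a, b, c, d, hD, Or.inr (Or.inr ⟨?_, fun z => (hy z).trans
        ⟨fun h => h.2, fun ⟨η, h3, h4⟩ => ⟨(hD' η z h4).2, η, h3, h4⟩⟩⟩)⟩
      by_cases hg : Gd E x a b c d
      · exact Or.inr ⟨fun h => h1 ⟨hg, h⟩, fun i h => h2 ⟨i, hg, h⟩⟩
      · exact Or.inl hg
    uniq := fun f x y y' _ H h h' => by
      obtain ⟨k, a, b, c, d, hD, h⟩ := h
      rcases h with ⟨hg, hk, va, vb, h1, h2, h3⟩ |
        ⟨i, hg, hk, va, vb, vc, vd, h1, h2, h3, h4, h5⟩ | ⟨hg, h⟩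
      · obtain ⟨wa, wb, k1, k2, k3⟩ := h'.pair hD hg hk
        obtain rfl := (H a hg.1).unique h1 k1
        obtain rfl := (H b hg.2.1).unique h2 k2
        exact h3.uniq k3
      · obtain ⟨wa, wb, wc, wd, k1, k2, k3, k4, k5⟩ := h'.op hD hg hk
        obtain rfl := (H a hg.1).unique h1 k1
        obtain rfl := (H b hg.2.1).unique h2 k2
        obtain rfl := (H c hg.2.2.1).unique h3 k3
        obtain rfl := (H d hg.2.2.2).unique h4 k4
        exact ext' E fun s => (h5 s).trans (k5 s).symm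
      · exact ext' E fun s => (h s).trans (h'.rng hD hg s).symm }

omit hZ in
theorem Val.ord {ξ y : M} (h : Val E q ξ y) : IsOrd E ξ := Rec.dom h

theorem Val.elim (dq : D1 E q) {ξ y : M} (h : Val E q ξ y) : VS E q (Val E q) ξ y := by
  obtain ⟨f, hf, hS⟩ := (recVal dq).elim h
  exact hS.congr hf

theorem Val.fn (dq : D1 E q) {ξ y y' : M} (h : Val E q ξ y) (h' : Val E q ξ y') : y = y' :=
  (recVal dq).fn h h'

theorem Val.total (dq : D1 E q) {ξ : M} (h : IsOrd E ξ) : ∃ y, Val E q ξ y := (recVal dq).total h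

theorem Val.mem (dq : D1 E q) {ξ y z : M} (h : Val E q ξ y) (hz : E z y) :
    ∃ η, E η ξ ∧ Val E q η z := by
  refine ord_ind (fun ξ => ∀ y z, Val E q ξ y → E z y → ∃ η, E η ξ ∧ Val E q η z) ?_ ξ h.ord
    y z h hz
  clear h hz ξ y z
  intro ξ hξ IH y z h hz
  obtain ⟨k, a, b, c, d, -, h⟩ := h.elim dq
  rcases h with ⟨hg, -, va, vb, h1, h2, h3⟩ | ⟨i, hg, -, va, vb, vc, vd, h1, -, -, -, h5⟩ | ⟨-, h⟩
  · rcases (h3 z).1 hz with rfl | rfl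
    · exact ⟨a, hg.1, h1⟩
    · exact ⟨b, hg.2.1, h2⟩
  · obtain ⟨η, h6, h7⟩ := IH a hg.1 va z h1 ((h5 z).1 hz).1
    exact ⟨η, hξ.tr hg.1 h6, h7⟩
  · exact (h z).1 hz

theorem Val.rk (dq : D1 E q) {ξ y κ : M} (h : Val E q ξ y) (hκ : IsOrd E κ) (hξ : E ξ κ) :
    Rk E y κ := by
  refine ord_ind (fun ξ => ∀ y κ, Val E q ξ y → IsOrd E κ → E ξ κ → Rk E y κ) ?_ ξ h.ord
    y κ h hκ hξ
  clear h hκ hξ ξ y κ
  intro ξ ho IH y κ h hκ hξ
  refine Rk.intro hκ hξ fun z hz => ?_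
  obtain ⟨η, h1, h2⟩ := h.mem dq hz
  exact IH η h1 z ξ h2 ho h1

theorem KK.imq (dq : D1 E q) : IMq E q (KK E q) := by
  refine ⟨fun x y ⟨ξ, h⟩ hy => ?_, fun y hy => ?_, ?_, ?_⟩
  · obtain ⟨η, -, h⟩ := h.mem dq hy
    exact ⟨η, h⟩
  · obtain ⟨c, hc, H⟩ := ord_coll E y (fun z a => Val E q a z)
    have h7 := num_spec (E := E) 7
    obtain ⟨ξ, hξ, hcξ, hD⟩ := Dec.big h7.ord hc hc hc hc hc
    obtain ⟨a, ha⟩ := Val.total dq hξ
    refine ⟨a, ⟨ξ, ha⟩, fun z hz => ((ha.elim dq).rng hD (Or.inr ⟨fun h => ?_, fun i h => ?_⟩)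
      z).2 ?_⟩
    · have := h7.inj h; omega
    · have := h7.inj h; omega
    · obtain ⟨η, hη⟩ := hy z hz
      obtain ⟨η, h1, h2⟩ := H z hz ⟨η, hη.ord, hη⟩
      exact ⟨η, hξ.tr hcξ h1, h2⟩
  · rintro va vb y ⟨a, ha⟩ ⟨b, hb⟩ hy
    obtain ⟨β, hβ, h1, h2⟩ := ord_bound2 ha.ord hb.ord
    have h6 := num_spec (E := E) 6
    obtain ⟨ξ, hξ, hβξ, hD⟩ := Dec.big h6.ord ha.ord hb.ord ha.ord ha.ord hβ
    obtain ⟨y', hy'⟩ := Val.total dq hξ
    have k1 := hξ.tr hβξ h1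
    obtain ⟨wa, wb, k3, k4, k5⟩ := (hy'.elim dq).pair hD ⟨k1, hξ.tr hβξ h2, k1, k1⟩ h6
    obtain rfl := ha.fn dq k3
    obtain rfl := hb.fn dq k4
    exact ⟨ξ, k5.uniq hy ▸ hy'⟩
  · rintro i va vb vc vd y ⟨a, ha⟩ ⟨b, hb⟩ ⟨c, hc⟩ ⟨d, hd⟩ hy
    obtain ⟨β1, hβ1, h1, h2⟩ := ord_bound2 ha.ord hb.ord
    obtain ⟨β2, hβ2, h3, h4⟩ := ord_bound2 hc.ord hd.ord
    obtain ⟨β, hβ, h5, h6⟩ := ord_bound2 hβ1 hβ2
    have hi := num_spec (E := E) i
    obtain ⟨ξ, hξ, hβξ, hD⟩ := Dec.big hi.ord ha.ord hb.ord hc.ord hd.ord hβ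
    obtain ⟨y', hy'⟩ := Val.total dq hξ
    obtain ⟨wa, wb, wc, wd, k1, k2, k3, k4, k5⟩ := (hy'.elim dq).op hD
      ⟨hξ.tr hβξ (hβ.tr h5 h1), hξ.tr hβξ (hβ.tr h5 h2), hξ.tr hβξ (hβ.tr h6 h3),
        hξ.tr hβξ (hβ.tr h6 h4)⟩ hi
    obtain rfl := ha.fn dq k1
    obtain rfl := hb.fn dq k2
    obtain rfl := hc.fn dq k3
    obtain rfl := hd.fn dq k4
    have : y' = y := ext' E fun s => (k5 s).trans (hy s).symm
    exact ⟨ξ, this ▸ hy'⟩

section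
variable {n : ℕ} (P' P : Fin n → Prop)
omit hZ
instance Up.allFin [h : ∀ i, Up j E' E (P' i) (P i)] : Up j E' E (∀ i, P' i) (∀ i, P i) :=
  ⟨fun H i => (h i).out (H i)⟩
end

instance [TEmb j E' E] (a b c d e : N) :
    Up j E' E (Gd E' a b c d e) (Gd E (j a) (j b) (j c) (j d) (j e)) := by
  unfold Gd; infer_instance
instance [TEmb j E' E] (a b c d e : N) :
    Dn j E' E (Gd E' a b c d e) (Gd E (j a) (j b) (j c) (j d) (j e)) := by
  unfold Gd; infer_instance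

theorem Val.up [hj : PEmb j E' E] (dq : D1 E q) {q' : N → Prop} {ξ y : N}
    (hq : ∀ s η z, E η (j ξ) → Val E q η z → E (j s) z → (q' s ↔ q (j s)))
    (h : Val E' q' ξ y) : Val E q (j ξ) (j y) := by
  obtain ⟨f, hf, hy⟩ := h
  have hξ : IsOrd E (j ξ) := MP_1d770b_lc.up j E' E (hf _ _ hy).1
  refine (recVal dq).of_local (j f) (fun x => Le E x (j ξ)) ?_ _ _ (Or.inr rfl)
    (MP_1d770b_lc.up j E' E hy)
  intro x z hx hz
  obtain ⟨x, rfl⟩ : ∃ b, j b = x := bd j E' E hz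
  obtain ⟨z, rfl⟩ : ∃ b, j b = z := bd j E' E hz
  obtain ⟨h1, h2, k, a, b, c, d, hD, h3⟩ := hf x z (dn j E' E hz)
  refine ⟨MP_1d770b_lc.up j E' E h1, fun x' hx' => ⟨Or.inl (hx.sub hξ x' hx'), ?_⟩,
    fun H => ⟨j k, j a, j b, j c, j d, MP_1d770b_lc.up j E' E hD, ?_⟩⟩
  · exact (MP_1d770b_lc.up j E' E h2 : ∀ x', E x' (j x) → ∃ y', App E (j f) x' y') x' hx'
  rcases h3 with h3 | ⟨i, hg, hk, va, vb, vc, vd, k1, k2, k3, k4, k5⟩ | h3
  · exact Or.inl (MP_1d770b_lc.up j E' E h3)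
  · have hg' : Gd E (j x) (j a) (j b) (j c) (j d) := MP_1d770b_lc.up j E' E hg
    have k1' : App E (j f) (j a) (j va) := MP_1d770b_lc.up j E' E k1
    refine Or.inr (Or.inl ⟨i, hg', MP_1d770b_lc.up j E' E hk, j va, j vb, j vc, j vd, k1',
      MP_1d770b_lc.up j E' E k2, MP_1d770b_lc.up j E' E k3, MP_1d770b_lc.up j E' E k4,
      fun s => ?_⟩)
    have key : ∀ s, E (j s) (j z) ↔ E (j s) (j va) ∧ Op E q (j vb) (j vc) (j vd) (j s) i :=
      fun s => by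
        rw [← hj.mem, k5, hj.mem]
        exact and_congr_right fun hs => op_abs _ _ _ _ _ fun _ =>
          hq s _ _ (hx.sub hξ _ hg'.1) (H _ hg'.1 _ k1') hs
    constructor
    · intro hs
      obtain ⟨s, rfl⟩ := hj.tr _ _ hs
      exact (key s).1 hs
    · intro hs
      obtain ⟨s, rfl⟩ := hj.tr _ _ hs.1
      exact (key s).2 hs
  · exact Or.inr (Or.inr (MP_1d770b_lc.up j E' E h3))

theorem Val.abs [TEmb j E' E] [ZF E'] (dq : D1 E q) {q' : N → Prop} (dq' : D1 E' q') {ξ : N}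
    (hq : ∀ s η z, E η (j ξ) → Val E q η z → E (j s) z → (q' s ↔ q (j s)))
    {y : M} (h : Val E q (j ξ) y) : ∃ y', j y' = y ∧ Val E' q' ξ y' := by
  obtain ⟨y', hy'⟩ := Val.total dq' (dn j E' E h.ord : IsOrd E' ξ)
  exact ⟨y', (hy'.up dq hq).fn dq h, hy'⟩

end Pool.Agent.Lib.MP_1d770b_lc
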