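import Pool.Agent.Lib.MP_1d770b_lc.Def

/-! The hierarchy, `C*` is an inner model of ZFC and coincides with the enumerated model. -/

set_option synthInstance.maxSize 100000

namespace Pool.Agent.Lib.MP_1d770b_lc

universe u
variable {M N : Type u} {E : M → M → Prop} {E' : N → N → Prop} {j : N → M}

def LS (E : M → M → Prop) (w : M) (q : M → Prop) (f α y : M) : Prop :=
  (∀ β y', IsSuc E α β → App E f β y' → IsDef E w q y y') ∧
    ((¬ ∃ β, IsSuc E α β) → ∀ z, E z y ↔ ∃ β y', E β α ∧ App E f β y' ∧ E z y')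

def Lev (E : M → M → Prop) (w : M) (q : M → Prop) (α y : M) : Prop :=
  Rec E (IsOrd E) E (LS E w q) α y

section
variable [hZ : ZF E] {w : M} {q : M → Prop}

theorem recL (dq : D1 E q) (w : M) : RecOK E (IsOrd E) E (LS E w q) :=
  { wfOrd E with
    dS := fun _ _ _ _ _ _ => by unfold LS; infer_instance
    inv := fun f g x y _ H hS => ⟨fun β y' h1 h2 => hS.1 β y' h1 ((H β h1.self y').2 h2),
      fun h z => (hS.2 h z).trans (exists_congr fun β => exists_congr fun y' =>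
        and_congr_right fun hβ => by rw [H β hβ])⟩
    ex := fun f x _ H => by
      by_cases h : ∃ β, IsSuc E x β
      · obtain ⟨β, hβ⟩ := h
        obtain ⟨y', hy', hu⟩ := H β hβ.self
        obtain ⟨y, hy⟩ := ex_def dq w y'
        refine ⟨y, fun β' y'' h1 h2 => ?_, fun h => (h ⟨β, hβ⟩).elim⟩
        obtain rfl := hβ.inj h1
        exact hu y'' h2 ▸ hy
      · obtain ⟨d, hd⟩ := ex_fld E f
        obtain ⟨d1, hd1⟩ := ex_sUnion E d
        obtain ⟨y, hy⟩ := sep E d1 (fun z => ∃ β y', E β x ∧ App E f β y' ∧ E z y')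
        exact ⟨y, fun β _ h1 => (h ⟨β, h1⟩).elim, fun _ z => (hy z).trans ⟨fun h => h.2,
          fun ⟨β, y', h1, h2, h3⟩ => ⟨(hd1 z).2 ⟨y', (hd β y' h2).2, h3⟩, β, y', h1, h2, h3⟩⟩⟩
    uniq := fun f x y y' _ H h1 h2 => by
      by_cases h : ∃ β, IsSuc E x β
      · obtain ⟨β, hβ⟩ := h
        obtain ⟨z, hz, -⟩ := H β hβ.self
        exact ext' E fun a => (h1.1 β z hβ hz a).trans (h2.1 β z hβ hz a).symm
      · exact ext' E fun a => (h1.2 h a).trans (h2.2 h a).symm }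

theorem Lev.suc (dq : D1 E q) {α s y y' : M} (h : Lev E w q α y) (hs : IsSuc E s α)
    (h' : Lev E w q s y') : IsDef E w q y' y := by
  obtain ⟨f, hf, hS⟩ := (recL dq w).elim h'
  exact hS.1 α y hs ((hf α hs.self y).2 h)

theorem Lev.mono (hw : IsOmega E w) (dq : D1 E q) {α y : M} (h : Lev E w q α y) :
    Trans E y ∧ ∀ β y', E β α → Lev E w q β y' → Sub E y' y := by
  have := (recL dq w).dRec
  refine ord_ind (fun α => ∀ y, Rec E (IsOrd E) E (LS E w q) α y → Trans E y ∧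
    ∀ β y', E β α → Rec E (IsOrd E) E (LS E w q) β y' → Sub E y' y) ?_ α (Rec.dom h) y h
  clear h α y
  intro α hα IH y h
  by_cases hs : ∃ β, IsSuc E α β
  · obtain ⟨γ, hγ⟩ := hs
    obtain ⟨x, hx⟩ := (recL dq w).total (hα.mem hγ.self)
    have hD := Lev.suc dq hx hγ h
    obtain ⟨h1, h2⟩ := IH γ hγ.self x hx
    have h3 := hD.sup hw h1
    refine ⟨fun a b ha hb => h3 b (hD.sub ha b hb), fun β y' hβ hy' => ?_⟩
    rcases (hγ β).1 hβ with hβ | rfl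
    · exact fun z hz => h3 z (h2 β y' hβ hy' z hz)
    · exact (recL dq w).fn hx hy' ▸ h3
  · obtain ⟨f, hf, hS⟩ := (recL dq w).elim h
    refine ⟨fun a b ha hb => ?_, fun β y' hβ hy' z hz =>
      (hS.2 hs z).2 ⟨β, y', hβ, (hf β hβ y').2 hy', hz⟩⟩
    obtain ⟨β, y', h1, h2, h3⟩ := (hS.2 hs a).1 ha
    exact (hS.2 hs b).2 ⟨β, y', h1, h2, (IH β h1 y' ((hf β h1 y').1 h2)).1 _ _ h3 hb⟩

theorem mem_cstar (hw : IsOmega E w) {x : M} :
    x ∈ CStar E ↔ ∃ α y, Lev E w (Cof E w) α y ∧ E x y := by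
  constructor
  · rintro ⟨w', f, α, y, hw', h1, h2, h3⟩
    obtain rfl := hw.uniq hw'
    exact ⟨α, y, ⟨f, h1, h2⟩, h3⟩
  · rintro ⟨α, y, ⟨f, h1, h2⟩, h3⟩
    exact ⟨w, f, α, y, hw, h1, h2, h3⟩

omit hZ in
theorem dCof (w : M) : D1 E (Cof E w) := fun _ _ => inferInstance

theorem cstar_bound (hw : IsOmega E w) {s : M} (hs : ∀ z, E z s → z ∈ CStar E) :
    ∃ x y, Trans E x ∧ Sub E s x ∧ IsDef E w (Cof E w) y x ∧ ∀ z, E z y → z ∈ CStar E := by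
  have := (recL (dCof (E := E) w) w).dRec
  obtain ⟨c, hc, H⟩ := ord_coll E s
    (fun z α => ∃ y, Rec E (IsOrd E) E (LS E w (Cof E w)) α y ∧ E z y)
  obtain ⟨x, hx⟩ := (recL (dCof w) w).total hc
  obtain ⟨c', hc'⟩ := ex_suc E c
  obtain ⟨y, hy⟩ := (recL (dCof w) w).total (hc'.ord hc)
  obtain ⟨h1, h2⟩ := Lev.mono hw (dCof w) hx
  refine ⟨x, y, h1, fun z hz => ?_, Lev.suc (dCof w) hx hc' hy,
    fun z hz => (mem_cstar hw).2 ⟨c', y, hy, hz⟩⟩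
  obtain ⟨α, y', h3, h4⟩ := (mem_cstar hw).1 (hs z hz)
  obtain ⟨α, h5, y', h6, h7⟩ := H z hz ⟨α, Rec.dom h3, y', h3, h4⟩
  exact h2 α y' h5 h6 z h7

theorem cstar_bound4 (hw : IsOmega E w) {a b c d : M} (ha : a ∈ CStar E) (hb : b ∈ CStar E)
    (hc : c ∈ CStar E) (hd : d ∈ CStar E) : ∃ x y, Trans E x ∧ E a x ∧ E b x ∧ E c x ∧ E d x ∧
      IsDef E w (Cof E w) y x ∧ ∀ z, E z y → z ∈ CStar E := by
  obtain ⟨p1, h1⟩ := ex_upair E a b
  obtain ⟨p2, h2⟩ := ex_upair E c d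
  obtain ⟨s, hs⟩ := ex_union E p1 p2
  obtain ⟨x, y, k1, k2, k3, k4⟩ := cstar_bound hw (s := s) (fun z hz => by
    rcases (hs z).1 hz with h | h
    · rcases (h1 z).1 h with rfl | rfl <;> assumption
    · rcases (h2 z).1 h with rfl | rfl <;> assumption)
  exact ⟨x, y, k1, k2 _ ((hs _).2 (Or.inl ((h1 _).2 (Or.inl rfl)))),
    k2 _ ((hs _).2 (Or.inl ((h1 _).2 (Or.inr rfl)))),
    k2 _ ((hs _).2 (Or.inr ((h2 _).2 (Or.inl rfl)))),
    k2 _ ((hs _).2 (Or.inr ((h2 _).2 (Or.inr rfl)))), k3, k4⟩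

variable (E) in
theorem cstar_im : IM E (CStar E) := by
  obtain ⟨w, hw⟩ := ex_omega E
  refine ⟨fun x y hx hy => ?_, fun s hs => ?_, fun a b c ha hb hc => ?_,
    fun k a b c d z ha hb hc hd hz => ?_⟩
  · obtain ⟨α, z, h1, h2⟩ := (mem_cstar hw).1 hx
    exact (mem_cstar hw).2 ⟨α, z, h1, (h1.mono hw (dCof w)).1 _ _ h2 hy⟩
  · obtain ⟨x, y, -, h2, h3, h4⟩ := cstar_bound hw hs
    exact ⟨x, h4 x (h3.self hw), h2⟩
  · obtain ⟨x, y, -, h1, h2, -, -, h3, h4⟩ := cstar_bound4 hw ha hb ha ha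
    refine h4 c (h3.of_df hw h1 (fun u => u = ⟨a, h1⟩ ∨ u = ⟨b, h2⟩) (fun u hu => ?_) fun u => ?_)
    · rcases (hc u).1 hu with rfl | rfl <;> assumption
    · rw [hc u.1, Subtype.ext_iff, Subtype.ext_iff]
  · obtain ⟨x, y, ht, h1, h2, h3, h4, h5, h6⟩ := cstar_bound4 hw ha hb hc hd
    have := TEmb.val (E := E) (W := {y | E y x}) ht
    refine h6 z (h5.of_df hw h1 (fun u => Res E {y | E y x} u ⟨a, h1⟩ ∧
      Op (Res E {y | E y x}) (fun _ => True) ⟨b, h2⟩ ⟨c, h3⟩ ⟨d, h4⟩ u k)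
      (fun u hu => ht _ _ h1 ((hz u).1 hu).1) fun u => ?_)
    rw [hz u.1, op_abs (j := Subtype.val) (E := E) (q := fun _ => True) _ _ _ _ _
      (fun _ => Iff.rfl)]
    rfl

theorem cstar_imq (hw : IsOmega E w) : IMq E (Cof E w) (CStar E) := by
  have h := cstar_im E
  refine ⟨h.1, h.2.1, h.2.2.1, fun k a b c d z ha hb hc hd hz => ?_⟩
  by_cases hk : k = 5
  · subst hk
    obtain ⟨x, y, ht, h1, -, -, -, h5, h6⟩ := cstar_bound4 hw ha ha ha ha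
    obtain ⟨u, hu⟩ := sep E x (fun r => Cof E w r)
    obtain ⟨y1, hy1, k1⟩ := h.diff ha (h6 u (h5.cof hw ht hu))
    obtain ⟨y2, hy2, k2⟩ := h.diff ha hy1
    have : y2 = z := ext' E fun s => by
      have := ht a s h1
      rw [k2, k1, hu, hz]
      simp only [Op]
      tauto
    exact this ▸ hy2
  · exact h.2.2.2 k a b c d z ha hb hc hd fun s => (hz s).trans
      (and_congr_right fun _ => op_congr fun h => (hk h).elim)

theorem IMq.loc {W : Set M} (h : IMq E q W) (dq : D1 E q) (dW : D1 E (fun x => x ∈ W)) (B : M) :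
    ∃ c, c ∈ W ∧ ∀ r, r ∈ W → E r B → (E r c ↔ q r) := by
  obtain ⟨a, ha, H⟩ := h.im.cover dW B
  obtain ⟨c, hc⟩ := sep E a q
  exact ⟨c, h.2.2.2 5 a a a a c ha ha ha ha hc, fun r h1 h2 => (hc r).trans
    ⟨fun h => h.2, fun h => ⟨H r h2 h1, h⟩⟩⟩

theorem IMq.val {W : Set M} (h : IMq E q W) (dq : D1 E q) (dW : D1 E (fun x => x ∈ W)) (c : W)
    (hc : IsOrd E c.1) : ∃ cq : W, ∀ (ξ : W) y, E ξ.1 c.1 → Val E q ξ.1 y →
      ∃ y' : W, y'.1 = y ∧ Val (Res E W) (fun r => Res E W r cq) ξ y' := by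
  have := h.temb
  have := h.im.zf dW
  obtain ⟨B, hB⟩ := ex_V hc
  obtain ⟨cq, h1, h2⟩ := h.loc dq dW B
  refine ⟨⟨cq, h1⟩, fun ξ y hξ hy => Val.abs dq (fun _ _ => inferInstance) ?_ hy⟩
  intro s η z k1 k2 k3
  exact h2 s.1 s.2 ((hB _).2 ((k2.rk dq hc (hc.tr hξ k1)).mem k3))

theorem IMq.kk {W : Set M} (h : IMq E q W) (dq : D1 E q) (dW : D1 E (fun x => x ∈ W)) {x : M}
    (hx : x ∈ KK E q) : x ∈ W := by
  obtain ⟨ξ, hξ⟩ := hx
  obtain ⟨s, hs⟩ := ex_suc E ξ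
  have ho := hs.ord hξ.ord
  obtain ⟨cq, H⟩ := h.val dq dW ⟨s, h.im.ord dW ho⟩ ho
  obtain ⟨y, hy, -⟩ := H ⟨ξ, h.im.ord dW hξ.ord⟩ x hs.self hξ
  exact hy ▸ y.2

theorem sel_of_val (dq : D1 E q) (a : M) (h : ∀ x, E x a → ∃ η, ∃ z, E z x ∧ Val E q η z)
    (hd : ∀ x x' y, E x a → E x' a → E y x → E y x' → x = x') :
    ∃ c, ∀ x, E x a → ∃! y, E y x ∧ E y c := by
  obtain ⟨u, hu⟩ := ex_sUnion E a
  obtain ⟨c, hc⟩ := sep E u (fun z => ∃ x η, E x a ∧ E z x ∧ Val E q η z ∧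
    ∀ η', E η' η → ¬ ∃ z', E z' x ∧ Val E q η' z')
  refine ⟨c, fun x hx => ?_⟩
  obtain ⟨η, z, h1, h2⟩ := h x hx
  obtain ⟨η, ho, ⟨z, h1, h2⟩, h3⟩ := ord_min (fun η => ∃ z, E z x ∧ Val E q η z) h2.ord ⟨z, h1, h2⟩
  refine ⟨z, ⟨h1, (hc z).2 ⟨(hu z).2 ⟨x, hx, h1⟩, x, η, hx, h1, h2, h3⟩⟩, fun z' ⟨h4, h5⟩ => ?_⟩
  obtain ⟨-, x', η', k1, k2, k3, k4⟩ := (hc z').1 h5
  obtain rfl := hd x x' z' hx k1 h4 k2
  rcases ho.tri k3.ord with k | rfl | k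
  · exact (k4 η k ⟨z, h1, h2⟩).elim
  · exact k3.fn dq h2
  · exact (h3 η' k ⟨z', h4, k3⟩).elim

theorem kk_choice (dq : D1 E q) : Choice (Res E (KK E q)) := by
  have h := KK.imq dq
  have dW : D1 E (fun x => x ∈ KK E q) := fun _ _ => inferInstance
  have := h.im.zf dW
  intro a h1 h2
  obtain ⟨u, hu⟩ := ex_sUnion E a.1
  obtain ⟨c, hc, H⟩ := ord_coll E u (fun z η => Val E q η z)
  obtain ⟨cq, H'⟩ := h.val dq dW ⟨c, h.im.ord dW hc⟩ hc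
  refine sel_of_val (q := fun r => Res E (KK E q) r cq) (fun _ _ => inferInstance) a
    (fun x hx => ?_) h2
  obtain ⟨z, hz⟩ := h1 x hx
  obtain ⟨η, hη⟩ := z.2
  obtain ⟨η, h3, h4⟩ := H z.1 ((hu _).2 ⟨x.1, hx, hz⟩) ⟨η, hη.ord, hη⟩
  obtain ⟨y, h5, h6⟩ := H' ⟨η, h.im.ord dW h4.ord⟩ z.1 h3 h4
  exact ⟨_, z, hz, Subtype.ext h5 ▸ h6⟩

end

theorem lev_up [ZF E] [ZF E'] [hj : TEmb j E' E] {w α y : N} {q : M → Prop} {q' : N → Prop}
    (hw : IsOmega E' w) (dq : D1 E q) (dq' : D1 E' q')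
    (hq : ∀ β y0 r, E β (j α) → Lev E (j w) q β y0 →
      (∀ p, E p (j r) → ∃ a b, E a y0 ∧ E b y0 ∧ IsOPair E p a b) → (q' r ↔ q (j r)))
    (h : Lev E' w q' α y) : Lev E (j w) q (j α) (j y) := by
  obtain ⟨f, hf, hy⟩ := h
  have hα : IsOrd E (j α) := up j E' E (hf _ _ hy).1
  refine (recL dq (j w)).of_local (j f) (fun x => Le E x (j α)) ?_ _ _ (Or.inr rfl)
    (up j E' E hy)
  intro x z hx hz
  obtain ⟨x, rfl⟩ : ∃ b, j b = x := bd j E' E hz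
  obtain ⟨z, rfl⟩ : ∃ b, j b = z := bd j E' E hz
  obtain ⟨h1, h2, h3, h4⟩ := hf x z (dn j E' E hz)
  refine ⟨up j E' E h1, fun x' hx' => ⟨Or.inl (hx.sub hα x' hx'), ?_⟩,
    fun H => ⟨fun β y0 k1 k2 => ?_, up j E' E h4⟩⟩
  · exact (up j E' E h2 : ∀ x', E x' (j x) → ∃ y', App E (j f) x' y') x' hx'
  · obtain ⟨β, rfl⟩ : ∃ b, j b = β := bd j E' E k2
    obtain ⟨y0, rfl⟩ : ∃ b, j b = y0 := bd j E' E k2
    exact def_up hw dq dq' (fun r hr => hq _ _ r (hx.sub hα _ k1.self) (H _ k1.self _ k2)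
      (up j E' E hr)) (h3 β y0 (dn j E' E k1) (dn j E' E k2))

section
variable [hZ : ZF E] {w : M}

theorem cstar_eq (hw : IsOmega E w) : CStar E = KK E (Cof E w) := by
  refine Set.Subset.antisymm (fun x hx => ?_)
    (fun x hx => (cstar_imq hw).kk (dCof w) (fun _ _ => inferInstance) hx)
  have h := KK.imq (dCof (E := E) w)
  have dW : D1 E (fun x => x ∈ KK E (Cof E w)) := fun _ _ => inferInstance
  have := h.temb
  have := h.im.zf dW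
  obtain ⟨α, y, h1, h2⟩ := (mem_cstar hw).1 hx
  obtain ⟨r0, hr0, -⟩ := ex_rel E y y (fun _ _ => True)
  obtain ⟨B, hB⟩ := ex_pow E r0
  obtain ⟨c, hc, H⟩ := h.loc (dCof w) dW B
  let w' : KK E (Cof E w) := ⟨w, h.im.ord dW hw.ord⟩
  let α' : KK E (Cof E w) := ⟨α, h.im.ord dW (Rec.dom h1)⟩
  have hw' : IsOmega (Res E _) w' := omega_dn (j := Subtype.val) hw
  have dq' : D1 (Res E (KK E (Cof E w))) (fun r => Res E _ r ⟨c, hc⟩) := fun _ _ => inferInstance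
  obtain ⟨y', hy'⟩ := (recL dq' w').total
    (dn Subtype.val (Res E (KK E (Cof E w))) E (q := IsOrd E α'.1) (p := IsOrd _ α') (Rec.dom h1))
  have := lev_up (j := Subtype.val) hw' (dCof w) dq' (fun β y0 r k1 k2 k3 => H r.1 r.2
    ((hB _).2 fun p hp => ?_)) hy'
  · exact h.tr y'.2 ((recL (dCof w) w).fn h1 this ▸ h2)
  · obtain ⟨a, b, k4, k5, k6⟩ := k3 p hp
    have := (h1.mono hw (dCof w)).2 β y0 k1 k2
    exact (hr0 p).2 ⟨a, b, this a k4, this b k5, k6, trivial⟩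

variable (E) in
theorem cstar_choice : Choice (Res E (CStar E)) := by
  obtain ⟨w, hw⟩ := ex_omega E
  rw [cstar_eq hw]
  exact kk_choice (dCof w)

end

end Pool.Agent.Lib.MP_1d770b_lc
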