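import Pool.Agent.Lib.MP_1d770b_lc.Basic

/-! Recursion, the cumulative hierarchy, collection, closure points. -/

set_option synthInstance.maxSize 100000

namespace Pool.Agent.Lib.MP_1d770b_lc

universe u
variable {M : Type u} {E : M → M → Prop}

def Ap (E : M → M → Prop) (A : M → Prop) (R : M → M → Prop) (S : M → M → M → Prop) (f : M) :
    Prop :=
  ∀ x y, App E f x y → A x ∧ (∀ x', R x' x → ∃ y', App E f x' y') ∧ S f x y

def Rec (E : M → M → Prop) (A : M → Prop) (R : M → M → Prop) (S : M → M → M → Prop) (x y : M) :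
    Prop :=
  ∃ f, Ap E A R S f ∧ App E f x y

structure WfOK (E : M → M → Prop) (A : M → Prop) (R : M → M → Prop) : Prop where
  dA : D1 E A
  dR : D2 E R
  sub : ∀ x x', A x → R x' x → A x'
  trans : ∀ x x' x'', A x → R x' x → R x'' x' → R x'' x
  setlike : ∀ x, A x → ∃ p, ∀ x', R x' x → E x' p
  wf : ∀ P : M → Prop, D1 E P → (∀ x, A x → (∀ x', R x' x → P x') → P x) → ∀ x, A x → P x

structure RecOK (E : M → M → Prop) (A : M → Prop) (R : M → M → Prop) (S : M → M → M → Prop) :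
    Prop extends WfOK E A R where
  dS : D3 E S
  inv : ∀ f g x y, A x → (∀ x', R x' x → ∀ y, App E f x' y ↔ App E g x' y) → S f x y → S g x y
  ex : ∀ f x, A x → (∀ x', R x' x → ∃! y, App E f x' y) → ∃ y, S f x y
  uniq : ∀ f x y y', A x → (∀ x', R x' x → ∃! y, App E f x' y) → S f x y → S f x y' → y = y'

section
variable {A : M → Prop} {R : M → M → Prop} {S : M → M → M → Prop}

theorem WfOK.ind (h : WfOK E A R) (P : M → Prop) [hP : Df E (fun v => P (v 0))]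
    (H : ∀ x, A x → (∀ x', R x' x → P x') → P x) (x : M) (hx : A x) : P x :=
  h.wf P hP.d1 H x hx

theorem WfOK.irrefl (h : WfOK E A R) {x : M} (hx : A x) : ¬ R x x := by
  have := h.dR
  exact h.ind (fun x => ¬ R x x) (fun x _ H hR => H x hR hR) x hx

theorem RecOK.dAp (h : RecOK E A R S) : D1 E (Ap E A R S) := by
  have := h.dA; have := h.dR; have := h.dS
  intro t _; unfold Ap; infer_instance

theorem RecOK.dRec (h : RecOK E A R S) : D2 E (Rec E A R S) := by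
  have := h.dAp
  intro s t _ _; unfold Rec; infer_instance

theorem Rec.dom {x y : M} (h : Rec E A R S x y) : A x :=
  let ⟨_, hf, hx⟩ := h; (hf x y hx).1

theorem RecOK.fn (h : RecOK E A R S) {x y y' : M} (h1 : Rec E A R S x y)
    (h2 : Rec E A R S x y') : y = y' := by
  have := h.dRec
  refine h.ind (fun x => ∀ y y', Rec E A R S x y → Rec E A R S x y' → y = y') ?_ x h1.dom
    y y' h1 h2
  clear h1 h2 x y y'
  rintro x hx H y y' ⟨f, hf, hfx⟩ ⟨g, hg, hgx⟩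
  obtain ⟨-, hf1, hf2⟩ := hf x y hfx
  obtain ⟨-, hg1, hg2⟩ := hg x y' hgx
  refine h.uniq g x y y' hx (fun x' hx' => ?_) (h.inv f g x y hx (fun x' hx' z => ?_) hf2) hg2
  · obtain ⟨z, hz⟩ := hg1 x' hx'
    exact ⟨z, hz, fun z' hz' => H x' hx' _ _ ⟨g, hg, hz'⟩ ⟨g, hg, hz⟩⟩
  · obtain ⟨z1, hz1⟩ := hf1 x' hx'
    obtain ⟨z2, hz2⟩ := hg1 x' hx'
    constructor
    · intro hz; rwa [H x' hx' _ _ ⟨f, hf, hz⟩ ⟨g, hg, hz2⟩]
    · intro hz; rwa [H x' hx' _ _ ⟨g, hg, hz⟩ ⟨f, hf, hz1⟩]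

theorem RecOK.elim (h : RecOK E A R S) {x y : M} (h1 : Rec E A R S x y) :
    ∃ f, (∀ x', R x' x → ∀ y', App E f x' y' ↔ Rec E A R S x' y') ∧ S f x y := by
  obtain ⟨f, hf, hfx⟩ := h1
  obtain ⟨-, hf1, hf2⟩ := hf x y hfx
  refine ⟨f, fun x' hx' y' => ⟨fun hy => ⟨f, hf, hy⟩, fun hy => ?_⟩, hf2⟩
  obtain ⟨z, hz⟩ := hf1 x' hx'
  rwa [h.fn hy ⟨f, hf, hz⟩]

variable [ZF E]

theorem RecOK.intro (h : RecOK E A R S) {f x y : M} (hx : A x)
    (h1 : ∀ x', R x' x → ∃ y', App E f x' y')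
    (h2 : ∀ x', R x' x → ∀ y', App E f x' y' → Rec E A R S x' y') (h3 : S f x y) :
    Rec E A R S x y := by
  have := h.dRec; have := h.dR
  obtain ⟨p, hp⟩ := h.setlike x hx
  obtain ⟨p', hp'⟩ := ex_ins E p x
  obtain ⟨g, -, hg⟩ := ex_fun E p' (fun u z => (R u x ∧ Rec E A R S u z) ∨ (u = x ∧ z = y))
    (fun u z z' _ h1 h2 => by
      rcases h1 with h1 | ⟨rfl, rfl⟩ <;> rcases h2 with h2 | ⟨h2, rfl⟩
      · exact h.fn h1.2 h2.2
      · exact (h.irrefl hx (h2 ▸ h1.1)).elim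
      · exact (h.irrefl hx h2.1).elim
      · rfl)
  have hg' : ∀ u z, R u x → (App E g u z ↔ Rec E A R S u z) := fun u z hu => by
    rw [hg]
    constructor
    · rintro ⟨-, h1 | ⟨rfl, -⟩⟩
      · exact h1.2
      · exact (h.irrefl hx hu).elim
    · exact fun h1 => ⟨(hp' u).2 (Or.inl (hp u hu)), Or.inl ⟨hu, h1⟩⟩
  refine ⟨g, fun u z huz => ?_, (hg x y).2 ⟨(hp' x).2 (Or.inr rfl), Or.inr ⟨rfl, rfl⟩⟩⟩
  obtain ⟨-, ⟨hu, hz⟩ | ⟨rfl, rfl⟩⟩ := (hg u z).1 huz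
  · obtain ⟨k, hk, hS⟩ := h.elim hz
    refine ⟨hz.dom, fun u' hu' => ?_, h.inv k g u z hz.dom (fun u' hu' t => ?_) hS⟩
    · obtain ⟨k, hk, hku⟩ := hz
      obtain ⟨t, ht⟩ := (hk u z hku).2.1 u' hu'
      exact ⟨t, (hg' u' t (h.trans _ _ _ hx hu hu')).2 ⟨k, hk, ht⟩⟩
    · rw [hk u' hu', hg' u' t (h.trans _ _ _ hx hu hu')]
  · refine ⟨hx, fun u' hu' => ?_, h.inv f g u z hx (fun u' hu' t => ?_) h3⟩
    · obtain ⟨t, ht⟩ := h1 u' hu'
      exact ⟨t, (hg' u' t hu').2 (h2 u' hu' t ht)⟩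
    · rw [hg' u' t hu']
      refine ⟨h2 u' hu' t, fun ht => ?_⟩
      obtain ⟨t', ht'⟩ := h1 u' hu'
      rwa [h.fn ht (h2 u' hu' t' ht')]

theorem RecOK.total (h : RecOK E A R S) {x : M} (hx : A x) : ∃ y, Rec E A R S x y := by
  have := h.dRec; have := h.dR
  refine h.ind (fun x => ∃ y, Rec E A R S x y) ?_ x hx
  intro x hx H
  obtain ⟨p, hp⟩ := h.setlike x hx
  obtain ⟨f, -, hf⟩ := ex_fun E p (fun u z => Rec E A R S u z) (fun u z z' _ h1 h2 => h.fn h1 h2)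
  obtain ⟨y, hy⟩ := h.ex f x hx (fun u hu => by
    obtain ⟨z, hz⟩ := H u hu
    exact ⟨z, (hf u z).2 ⟨hp u hu, hz⟩, fun z' hz' => h.fn ((hf u z').1 hz').2 hz⟩)
  refine ⟨y, h.intro hx (fun u hu => ?_) (fun u _ z hz => ((hf u z).1 hz).2) hy⟩
  obtain ⟨z, hz⟩ := H u hu
  exact ⟨z, (hf u z).2 ⟨hp u hu, hz⟩⟩

theorem RecOK.of_local (h : RecOK E A R S) (f : M) (D : M → Prop) [hD : Df E (fun v => D (v 0))]
    (H : ∀ x y, D x → App E f x y → A x ∧ (∀ x', R x' x → D x' ∧ ∃ y', App E f x' y') ∧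
      ((∀ x', R x' x → ∀ y', App E f x' y' → Rec E A R S x' y') → S f x y))
    (x y : M) (hx : D x) (hy : App E f x y) : Rec E A R S x y := by
  have := h.dRec; have := hD.d1
  have hA := (H x y hx hy).1
  revert y
  revert hx
  refine h.ind (fun x => D x → ∀ y, App E f x y → Rec E A R S x y) ?_ x hA
  intro x hA IH hx y hy
  obtain ⟨-, h1, h2⟩ := H x y hx hy
  have h3 : ∀ x', R x' x → ∀ y', App E f x' y' → Rec E A R S x' y' :=
    fun x' hx' => IH x' hx' (h1 x' hx').1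
  exact h.intro hA (fun x' hx' => (h1 x' hx').2) h3 (h2 h3)

end

variable [hZ : ZF E]

variable (E) in
theorem wfOrd : WfOK E (IsOrd E) E where
  dA := fun _ _ => inferInstance
  dR := fun _ _ _ _ => inferInstance
  sub := fun _ _ h h' => h.mem h'
  trans := fun _ _ _ h h1 h2 => h.tr h1 h2
  setlike := fun x _ => ⟨x, fun _ h => h⟩
  wf := fun P _ H x hx => ord_ind P H x hx

variable (E) in
theorem ex_trans (a : M) : ∃ t, Trans E t ∧ E a t := by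
  let S : M → M → M → Prop := fun f n y =>
    ∀ z, E z y ↔ z = a ∨ ∃ m y' u, E m n ∧ App E f m y' ∧ E u y' ∧ E z u
  have h : RecOK E (IsOrd E) E S :=
    { wfOrd E with
      dS := fun _ _ _ _ _ _ => by simp only [S]; infer_instance
      inv := fun f g x y _ H hS z => by
        rw [hS z]
        refine or_congr Iff.rfl (exists_congr fun m => exists_congr fun y' =>
          exists_congr fun u => and_congr_right fun hm => by rw [H m hm])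
      ex := fun f x _ _ => by
        obtain ⟨d, hd⟩ := ex_fld E f
        obtain ⟨d1, hd1⟩ := ex_sUnion E d
        obtain ⟨d2, hd2⟩ := ex_sUnion E d1
        obtain ⟨d3, hd3⟩ := ex_ins E d2 a
        obtain ⟨y, hy⟩ := sep E d3
          (fun z => z = a ∨ ∃ m y' u, E m x ∧ App E f m y' ∧ E u y' ∧ E z u)
        refine ⟨y, fun z => (hy z).trans ⟨fun h => h.2, fun h => ⟨(hd3 z).2 ?_, h⟩⟩⟩
        rcases h with h | ⟨m, y', u, -, h1, h2, h3⟩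
        · exact Or.inr h
        · exact Or.inl ((hd2 z).2 ⟨u, (hd1 u).2 ⟨y', (hd m y' h1).2, h2⟩, h3⟩)
      uniq := fun f x y y' _ _ h1 h2 => ext' E fun z => (h1 z).trans (h2 z).symm }
  have := h.dRec
  obtain ⟨w, hw⟩ := ex_omega E
  obtain ⟨b, hb⟩ := repl E w (Rec E (IsOrd E) E S) (fun x y y' _ h1 h2 => h.fn h1 h2)
  obtain ⟨t, ht⟩ := ex_sUnion E b
  refine ⟨t, fun u z hu hz => ?_, ?_⟩
  · obtain ⟨y, hy, hu⟩ := (ht u).1 hu
    obtain ⟨n, hn, hy⟩ := (hb y).1 hy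
    obtain ⟨s, hs⟩ := ex_suc E n
    obtain ⟨y', hy'⟩ := h.total (hs.ord (hw.ord.mem hn))
    obtain ⟨f, hf, hS⟩ := h.elim hy'
    exact (ht z).2 ⟨y', (hb y').2 ⟨s, hw.suc hs hn, hy'⟩,
      (hS z).2 (Or.inr ⟨n, y, u, hs.self, (hf n hs.self y).2 hy, hu, hz⟩)⟩
  · obtain ⟨e, he⟩ := ex_emp E
    obtain ⟨y', hy'⟩ := h.total he.ord
    obtain ⟨f, -, hS⟩ := h.elim hy'
    exact (ht a).2 ⟨y', (hb y').2 ⟨e, hw.emp he, hy'⟩, (hS a).2 (Or.inl rfl)⟩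

variable (E) in
theorem mem_ind (P : M → Prop) [h : Df E (fun v => P (v 0))]
    (H : ∀ a, (∀ b, E b a → P b) → P a) (a : M) : P a := by
  have h1 := h.d1
  obtain ⟨t, ht, hat⟩ := ex_trans E a
  by_contra hP
  obtain ⟨s, hs⟩ := sep E t (fun x => ¬ P x)
  obtain ⟨x, hx, hm⟩ := found s a ((hs a).2 ⟨hat, hP⟩)
  obtain ⟨hxa, hxP⟩ := (hs x).1 hx
  refine hxP (H x fun y hy => ?_)
  by_contra hy'
  exact hm y hy ((hs y).2 ⟨ht _ _ hxa hy, hy'⟩)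

/-! ### The cumulative hierarchy -/

def VStep (E : M → M → Prop) (f α y : M) : Prop :=
  ∀ z, E z y ↔ ∃ β y', E β α ∧ App E f β y' ∧ Sub E z y'

/-- `x ∈ V_α` -/
def Rk (E : M → M → Prop) (x α : M) : Prop :=
  ∃ v, Rec E (IsOrd E) E (VStep E) α v ∧ E x v

omit hZ in
instance (a b c : (ℕ → M) → M) [IsT a] [IsT b] [IsT c] :
    Df E fun v => VStep E (a v) (b v) (c v) := by unfold VStep; infer_instance
omit hZ in
instance (a b : (ℕ → M) → M) [IsT a] [IsT b] : Df E fun v => Rk E (a v) (b v) := by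
  unfold Rk Rec Ap; infer_instance

variable (E) in
theorem recV : RecOK E (IsOrd E) E (VStep E) :=
  { wfOrd E with
    dS := fun _ _ _ _ _ _ => inferInstance
    inv := fun f g x y _ H hS z => by
      rw [hS z]
      exact exists_congr fun m => exists_congr fun y' => and_congr_right fun hm => by rw [H m hm]
    ex := fun f x _ _ => by
      obtain ⟨d, hd⟩ := ex_fld E f
      obtain ⟨d1, hd1⟩ := ex_sUnion E d
      obtain ⟨d2, hd2⟩ := ex_pow E d1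
      obtain ⟨y, hy⟩ := sep E d2 (fun z => ∃ β y', E β x ∧ App E f β y' ∧ Sub E z y')
      refine ⟨y, fun z => (hy z).trans ⟨fun h => h.2, fun h => ⟨(hd2 z).2 ?_, h⟩⟩⟩
      obtain ⟨m, y', -, h1, h2⟩ := h
      exact fun u hu => (hd1 u).2 ⟨y', (hd m y' h1).2, h2 u hu⟩
    uniq := fun f x y y' _ _ h1 h2 => ext' E fun z => (h1 z).trans (h2 z).symm }

omit hZ in
theorem Rk.ord {x α : M} (h : Rk E x α) : IsOrd E α := let ⟨_, h, _⟩ := h; h.dom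

theorem ex_V {α : M} (h : IsOrd E α) : ∃ v, ∀ x, E x v ↔ Rk E x α := by
  obtain ⟨v, hv⟩ := (recV E).total h
  exact ⟨v, fun x => ⟨fun hx => ⟨v, hv, hx⟩, fun ⟨v', hv', hx⟩ => (recV E).fn hv' hv ▸ hx⟩⟩

theorem Rk.elim {x α : M} (h : Rk E x α) : ∃ β, E β α ∧ ∀ z, E z x → Rk E z β := by
  obtain ⟨v, hv, hx⟩ := h
  obtain ⟨f, hf, hS⟩ := (recV E).elim hv
  obtain ⟨β, y, hβ, h1, h2⟩ := (hS x).1 hx
  exact ⟨β, hβ, fun z hz => ⟨y, (hf β hβ y).1 h1, h2 z hz⟩⟩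

theorem Rk.intro {x α β : M} (hα : IsOrd E α) (hβ : E β α) (h : ∀ z, E z x → Rk E z β) :
    Rk E x α := by
  obtain ⟨v, hv⟩ := (recV E).total hα
  obtain ⟨f, hf, hS⟩ := (recV E).elim hv
  obtain ⟨y, hy⟩ := (recV E).total (hα.mem hβ)
  refine ⟨v, hv, (hS x).2 ⟨β, y, hβ, (hf β hβ y).2 hy, fun z hz => ?_⟩⟩
  obtain ⟨y', hy', hz⟩ := h z hz
  exact (recV E).fn hy' hy ▸ hz

theorem Rk.mono {x α β : M} (h : Rk E x α) (hβ : IsOrd E β) (hle : Le E α β) : Rk E x β := by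
  obtain ⟨γ, hγ, H⟩ := h.elim
  exact Rk.intro hβ (hle.sub hβ γ hγ) H

theorem Rk.lt {x α β : M} (h : Rk E x α) (hβ : IsOrd E β) (hle : E α β) : Rk E x β :=
  h.mono hβ (Or.inl hle)

theorem Rk.mem {x y α : M} (h : Rk E x α) (hy : E y x) : Rk E y α := by
  obtain ⟨γ, hγ, H⟩ := h.elim
  exact (H y hy).lt h.ord hγ

theorem Rk.sub {x y α : M} (h : Rk E x α) (hy : Sub E y x) : Rk E y α := by
  obtain ⟨γ, hγ, H⟩ := h.elim
  exact Rk.intro h.ord hγ fun z hz => H z (hy z hz)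

theorem IsOrd.rk {α β : M} (hα : IsOrd E α) (hβ : E β α) : Rk E β α := by
  refine ord_ind (fun β => ∀ α, IsOrd E α → E β α → Rk E β α) ?_ β (hα.mem hβ) α hα hβ
  clear hα hβ α β
  intro β hb H α hα hβ
  exact Rk.intro hα hβ fun z hz => H z hz β hb hz

theorem Rk.ord_mem {α β : M} (h : Rk E β α) (hβ : IsOrd E β) : E β α := by
  refine ord_ind (fun α => ∀ β, Rk E β α → IsOrd E β → E β α) ?_ α h.ord β h hβ
  clear h hβ α β
  intro α ha H β h hβ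
  obtain ⟨γ, hγ, H'⟩ := h.elim
  exact (hβ.le_of_sub (ha.mem hγ) fun z hz => H γ hγ z (H' z hz) (hβ.mem hz)).lt ha hγ

variable (E) in
theorem ex_rk (x : M) : ∃ α, Rk E x α := by
  refine mem_ind E (fun x => ∃ α, Rk E x α) ?_ x
  intro x H
  obtain ⟨c, hc, h⟩ := ord_coll E x (fun z a => Rk E z a)
  obtain ⟨s, hs⟩ := ex_suc E c
  refine ⟨s, Rk.intro (hs.ord hc) hs.self fun z hz => ?_⟩
  obtain ⟨a, ha⟩ := H z hz
  obtain ⟨a, ha, h⟩ := h z hz ⟨a, ha.ord, ha⟩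
  exact h.lt hc ha

variable (E) in
theorem coll (s : M) (P : M → M → Prop) [h : Df E (fun v => P (v 0) (v 1))] :
    ∃ b, ∀ x, E x s → (∃ y, P x y) → ∃ y, E y b ∧ P x y := by
  have h2 := h.d2
  obtain ⟨c, hc, H⟩ := ord_coll E s (fun x a => ∃ y, Rk E y a ∧ P x y)
  obtain ⟨v, hv⟩ := ex_V hc
  refine ⟨v, fun x hx ⟨y, hy⟩ => ?_⟩
  obtain ⟨a, ha⟩ := ex_rk E y
  obtain ⟨a, ha, y, h1, h2⟩ := H x hx ⟨a, ha.ord, y, ha, hy⟩
  exact ⟨y, (hv y).2 (h1.lt hc ha), h2⟩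

def Lim (E : M → M → Prop) (l : M) : Prop := IsOrd E l ∧ ∀ α, E α l → ∃ β, E β l ∧ E α β

omit hZ in
instance (a : (ℕ → M) → M) [IsT a] : Df E fun v => Lim E (a v) := by unfold Lim; infer_instance

theorem Lim.two {l a b : M} (h : Lim E l) (ha : E a l) (hb : E b l) :
    ∃ c, E c l ∧ E a c ∧ E b c := by
  rcases (h.1.mem ha).tri (h.1.mem hb) with h1 | rfl | h1
  · obtain ⟨c, hc, h2⟩ := h.2 b hb
    exact ⟨c, hc, (h.1.mem hc).tr h2 h1, h2⟩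
  · obtain ⟨c, hc, h2⟩ := h.2 a hb
    exact ⟨c, hc, h2, h2⟩
  · obtain ⟨c, hc, h2⟩ := h.2 a ha
    exact ⟨c, hc, h2, (h.1.mem hc).tr h2 h1⟩

theorem Lim.suc {l a s : M} (h : Lim E l) (ha : E a l) (hs : IsSuc E s a) : E s l := by
  obtain ⟨c, hc, h2⟩ := h.2 a ha
  exact (hs.le (h.1.mem hc) h2).lt h.1 hc

theorem Lim.rk {l x : M} (h : Lim E l) (hx : Rk E x l) : ∃ β, E β l ∧ Rk E x β := by
  obtain ⟨β, hβ, H⟩ := hx.elim
  obtain ⟨c, hc, h2⟩ := h.2 β hβ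
  exact ⟨c, hc, Rk.intro (h.1.mem hc) h2 H⟩

theorem Lim.rk2 {l x y : M} (h : Lim E l) (hx : Rk E x l) (hy : Rk E y l) :
    ∃ β, E β l ∧ Rk E x β ∧ Rk E y β := by
  obtain ⟨a, ha, hx⟩ := h.rk hx
  obtain ⟨b, hb, hy⟩ := h.rk hy
  obtain ⟨c, hc, h1, h2⟩ := h.two ha hb
  exact ⟨c, hc, hx.lt (h.1.mem hc) h1, hy.lt (h.1.mem hc) h2⟩

theorem Lim.upair {l x y c : M} (h : Lim E l) (hx : Rk E x l) (hy : Rk E y l)
    (hc : IsUPair E c x y) : Rk E c l := by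
  obtain ⟨β, hβ, hx, hy⟩ := h.rk2 hx hy
  refine Rk.intro h.1 hβ fun z hz => ?_
  rcases (hc z).1 hz with rfl | rfl <;> assumption

theorem Lim.opair {l x y p : M} (h : Lim E l) (hx : Rk E x l) (hy : Rk E y l)
    (hp : IsOPair E p x y) : Rk E p l := by
  obtain ⟨s, t, hs, ht, hp⟩ := hp
  exact h.upair (h.upair hx hx hs) (h.upair hx hy ht) hp

/-- a set of pairs from `V_β` lies in `V_l` -/
theorem Lim.rel {l β r : M} (h : Lim E l) (hβ : E β l)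
    (hr : ∀ p, E p r → ∃ x y, IsOPair E p x y ∧ Rk E x β ∧ Rk E y β) : Rk E r l := by
  obtain ⟨b1, h1, k1⟩ := h.2 β hβ
  obtain ⟨b2, h2, k2⟩ := h.2 b1 h1
  refine Rk.intro h.1 h2 fun p hp => ?_
  obtain ⟨x, y, ⟨s, t, hs, ht, hp⟩, hx, hy⟩ := hr p hp
  refine Rk.intro (h.1.mem h2) k2 fun z hz => Rk.intro (h.1.mem h1) k1 fun u hu => ?_
  rcases (hp z).1 hz with rfl | rfl
  · rcases (hs u).1 hu with rfl | rfl <;> exact hx
  · rcases (ht u).1 hu with rfl | rfl <;> assumption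

theorem Rk.app {f x y α : M} (h : Rk E f α) (ha : App E f x y) : Rk E x α ∧ Rk E y α := by
  obtain ⟨p, ⟨s, t, _, ht, hp⟩, hf⟩ := ha
  have := (h.mem hf).mem ((hp t).2 (Or.inr rfl))
  exact ⟨this.mem ((ht x).2 (Or.inl rfl)), this.mem ((ht y).2 (Or.inr rfl))⟩

theorem IsOmega.lim {w : M} (hw : IsOmega E w) : Lim E w :=
  ⟨hw.ord, fun a ha => let ⟨s, hs⟩ := ex_suc E a; ⟨s, hw.suc hs ha, hs.self⟩⟩

/-- smaller rank -/
def RkLt (E : M → M → Prop) (x' x : M) : Prop := ∃ β, Rk E x' β ∧ ¬ Rk E x β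

omit hZ in
instance (a b : (ℕ → M) → M) [IsT a] [IsT b] : Df E fun v => RkLt E (a v) (b v) := by
  unfold RkLt; infer_instance

theorem RkLt.of_mem {x y : M} (h : E y x) : RkLt E y x := by
  obtain ⟨a, ha⟩ := ex_rk E x
  obtain ⟨a, -, ha, hm⟩ := ord_min (fun a => Rk E x a) ha.ord ha
  obtain ⟨β, hβ, H⟩ := ha.elim
  exact ⟨β, H y h, hm β hβ⟩

theorem RkLt.trans {x y z : M} (h : RkLt E x y) (h' : RkLt E y z) : RkLt E x z := by
  obtain ⟨a, h1, h2⟩ := h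
  obtain ⟨b, h3, h4⟩ := h'
  refine ⟨b, h1.mono h3.ord (h1.ord.le_of_not h3.ord fun hb => h2 (h3.lt h1.ord hb)), h4⟩

theorem RkLt.of_app {f x y : M} (h : App E f x y) : RkLt E x f ∧ RkLt E y f := by
  obtain ⟨p, ⟨s, t, _, ht, hp⟩, hf⟩ := h
  have := (RkLt.of_mem ((hp t).2 (Or.inr rfl))).trans (RkLt.of_mem hf)
  exact ⟨(RkLt.of_mem ((ht x).2 (Or.inl rfl))).trans this,
    (RkLt.of_mem ((ht y).2 (Or.inr rfl))).trans this⟩

theorem RkLt.of_opair {p x y : M} (h : IsOPair E p x y) : RkLt E x p ∧ RkLt E y p := by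
  obtain ⟨s, t, _, ht, hp⟩ := h
  have := RkLt.of_mem ((hp t).2 (Or.inr rfl))
  exact ⟨(RkLt.of_mem ((ht x).2 (Or.inl rfl))).trans this,
    (RkLt.of_mem ((ht y).2 (Or.inr rfl))).trans this⟩

variable (E) in
theorem wfRk (d : M) : WfOK E (fun x => E x d) (fun x' x => E x' d ∧ RkLt E x' x) where
  dA := fun _ _ => inferInstance
  dR := fun _ _ _ _ => inferInstance
  sub := fun _ _ _ h' => h'.1
  trans := fun _ _ _ _ h1 h2 => ⟨h2.1, h2.2.trans h1.2⟩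
  setlike := fun _ _ => ⟨d, fun _ h => h.1⟩
  wf := fun P hP H x hx => by
    obtain ⟨a, ha⟩ := ex_rk E x
    have hao := ha.ord
    revert x
    refine ord_ind (fun a => ∀ x, E x d → Rk E x a → P x) ?_ a hao
    intro a hao IH x hx ha
    obtain ⟨β, hβ, H'⟩ := ha.elim
    refine H x hx fun x' ⟨hx', δ, h1, h2⟩ => IH β hβ x' hx' (h1.mono (hao.mem hβ) ?_)
    exact h1.ord.le_of_not (hao.mem hβ) fun h => h2 (Rk.intro h1.ord h H')

variable (E) in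
/-- closure points -/
theorem clos (G : M → M → Prop) [h : Df E (fun v => G (v 0) (v 1))]
    (hG : ∀ α, IsOrd E α → ∃ γ, IsOrd E γ ∧ G α γ) (a : M) (ha : IsOrd E a) :
    ∃ κ, Lim E κ ∧ E a κ ∧ ∀ α, E α κ → ∃ γ, E γ κ ∧ G α γ := by
  have h2 := h.d2
  let Φ : M → M → M → Prop := fun f n y => E a y ∧ ∀ m y', E m n → App E f m y' → IsOrd E y' →
    E y' y ∧ ∀ β, E β y' → ∃ δ, E δ y ∧ G β δ
  have dΦ : D3 E Φ := fun _ _ _ _ _ _ => by simp only [Φ]; infer_instance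
  let S : M → M → M → Prop := fun f n y => IsOrd E y ∧ Φ f n y ∧ ∀ y', E y' y → ¬ Φ f n y'
  have hΦ : ∀ f g n y, (∀ x', E x' n → ∀ y, App E f x' y ↔ App E g x' y) → Φ f n y → Φ g n y :=
    fun f g n y H h => ⟨h.1, fun m y' hm hy => h.2 m y' hm ((H m hm y').2 hy)⟩
  have h : RecOK E (IsOrd E) E S :=
    { wfOrd E with
      dS := fun _ _ _ _ _ _ => by simp only [S]; infer_instance
      inv := fun f g x y _ H hS => ⟨hS.1, hΦ f g x y H hS.2.1, fun y' hy' h =>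
        hS.2.2 y' hy' (hΦ g f x y' (fun x' hx' y => (H x' hx' y).symm) h)⟩
      ex := fun f x _ _ => by
        obtain ⟨d, hd⟩ := ex_fld E f
        obtain ⟨c, hc, hcd⟩ := ord_bound E d
        obtain ⟨c', hc', H⟩ := ord_coll E c G
        obtain ⟨c1, hc1, k1, k2⟩ := ord_bound2 hc hc'
        obtain ⟨c2, hc2, k3, k4⟩ := ord_bound2 hc1 ha
        refine ord_min (fun y => Φ f x y) hc2 ⟨k4, fun m y' _ hy ho => ?_⟩
        have hyc := hcd y' (hd m y' hy).2 ho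
        refine ⟨hc2.tr k3 (hc1.tr k1 hyc), fun β hβ => ?_⟩
        obtain ⟨δ, hδ, hG⟩ := H β (hc.tr hyc hβ) (hG β (ho.mem hβ))
        exact ⟨δ, hc2.tr k3 (hc1.tr k2 hδ), hG⟩
      uniq := fun f x y y' _ _ h1 h2 => by
        rcases h1.1.tri h2.1 with h | h | h
        · exact (h2.2.2 y h h1.2.1).elim
        · exact h
        · exact (h1.2.2 y' h h2.2.1).elim }
  have := h.dRec
  obtain ⟨w, hw⟩ := ex_omega E
  obtain ⟨b, hb⟩ := repl E w (Rec E (IsOrd E) E S) (fun x y y' _ h1 h2 => h.fn h1 h2)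
  obtain ⟨t, ht⟩ := ex_sUnion E b
  have hbo : ∀ y, E y b → IsOrd E y := fun y hy => by
    obtain ⟨n, -, hy⟩ := (hb y).1 hy
    obtain ⟨f, -, hS⟩ := h.elim hy
    exact hS.1
  have key : ∀ y, E y b → E y t ∧ ∀ β, E β y → ∃ δ, E δ t ∧ G β δ := fun y hy => by
    obtain ⟨n, hn, hy'⟩ := (hb y).1 hy
    obtain ⟨s, hs⟩ := ex_suc E n
    obtain ⟨y', hy''⟩ := h.total (hs.ord (hw.ord.mem hn))
    obtain ⟨f, hf, hS⟩ := h.elim hy''
    have hy'b := (hb y').2 ⟨s, hw.suc hs hn, hy''⟩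
    obtain ⟨k1, k2⟩ := hS.2.1.2 n y hs.self ((hf n hs.self y).2 hy') (hbo y hy)
    refine ⟨(ht y).2 ⟨y', hy'b, k1⟩, fun β hβ => ?_⟩
    obtain ⟨δ, hδ, hG⟩ := k2 β hβ
    exact ⟨δ, (ht δ).2 ⟨y', hy'b, hδ⟩, hG⟩
  refine ⟨t, ⟨ord_of_trans (fun x y hx hy => ?_) (fun x hx => ?_), fun α hα => ?_⟩, ?_,
    fun α hα => ?_⟩
  · obtain ⟨z, hz, hx⟩ := (ht x).1 hx
    exact (ht y).2 ⟨z, hz, (hbo z hz).tr hx hy⟩
  · obtain ⟨z, hz, hx⟩ := (ht x).1 hx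
    exact (hbo z hz).mem hx
  · obtain ⟨z, hz, hx⟩ := (ht α).1 hα
    exact ⟨z, (key z hz).1, hx⟩
  · obtain ⟨e, he⟩ := ex_emp E
    obtain ⟨y', hy'⟩ := h.total he.ord
    obtain ⟨f, -, hS⟩ := h.elim hy'
    exact (ht a).2 ⟨y', (hb y').2 ⟨e, hw.emp he, hy'⟩, hS.2.1.1⟩
  · obtain ⟨z, hz, hx⟩ := (ht α).1 hα
    exact (key z hz).2 α hx

end Pool.Agent.Lib.MP_1d770b_lc
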