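import Pool.Agent.Lib.MP_1d770b_lc.Abs

/-! Satisfaction through internal assignments; relativisation. -/

set_option synthInstance.maxSize 100000

namespace Pool.Agent.Lib.MP_1d770b_lc

universe u
variable {M N : Type u} {E : M → M → Prop} {E' : N → N → Prop} {j : N → M}

def Fm.fv : Fm → ℕ
  | .mem i j => max i j + 1
  | .eq i j => max i j + 1
  | .neg φ => φ.fv
  | .and φ ψ => max φ.fv ψ.fv
  | .ex φ => φ.fv

theorem sat_congr (φ : Fm) : ∀ (v v' : ℕ → M), (∀ i, i < φ.fv → v i = v' i) →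
    (Sat E φ v ↔ Sat E φ v') := by
  induction φ with
  | mem i j =>
    intro v v' h
    simp only [Sat]
    rw [h i (by simp only [Fm.fv]; omega), h j (by simp only [Fm.fv]; omega)]
  | eq i j =>
    intro v v' h
    simp only [Sat]
    rw [h i (by simp only [Fm.fv]; omega), h j (by simp only [Fm.fv]; omega)]
  | neg φ ih => intro v v' h; simp only [Sat]; rw [ih v v' h]
  | and φ ψ ih1 ih2 =>
    intro v v' h
    simp only [Sat]
    rw [ih1 v v' (fun i hi => h i (by simp only [Fm.fv]; omega)),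
      ih2 v v' (fun i hi => h i (by simp only [Fm.fv]; omega))]
  | ex φ ih =>
    intro v v' h
    simp only [Sat]
    refine exists_congr fun a => ih _ _ fun i hi => ?_
    cases i with
    | zero => rfl
    | succ i => exact h i (by simp only [Fm.fv]; omega)

theorem comp_scons (j : N → M) (b : N) (v : ℕ → N) :
    (fun i => j (scons b v i)) = scons (j b) (fun i => j (v i)) := by
  funext i; cases i <;> rfl

def SatW (E : M → M → Prop) (W : M → Prop) : Fm → (ℕ → M) → Prop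
  | .mem i j, v => E (v i) (v j)
  | .eq i j, v => v i = v j
  | .neg φ, v => ¬ SatW E W φ v
  | .and φ ψ, v => SatW E W φ v ∧ SatW E W ψ v
  | .ex φ, v => ∃ a, W a ∧ SatW E W φ (scons a v)

theorem SatW.df {W : M → Prop} (hW : D1 E W) (φ : Fm) : Df E (SatW E W φ) := by
  induction φ with
  | mem i j => exact inferInstanceAs (Df E fun v => E (v i) (v j))
  | eq i j => exact inferInstanceAs (Df E fun v => v i = v j)
  | neg φ ih => exact inferInstanceAs (Df E fun v => ¬ SatW E W φ v)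
  | and φ ψ ih1 ih2 => exact inferInstanceAs (Df E fun v => SatW E W φ v ∧ SatW E W ψ v)
  | ex φ ih =>
    have : Df E (fun w => SatW E W φ (scons (w 0) (tl w))) := ih.congr fun w => by
      have : scons (w 0) (tl w) = w := by funext i; cases i <;> rfl
      rw [this]
    exact inferInstanceAs (Df E fun v => ∃ a, W a ∧ SatW E W φ (scons a v))

theorem satW_iff [hj : Emb j E' E] {W : M → Prop} (hW : ∀ x, W x ↔ ∃ b, j b = x) (φ : Fm) :
    ∀ v : ℕ → N, SatW E W φ (fun i => j (v i)) ↔ Sat E' φ v := by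
  induction φ with
  | mem i k => intro v; exact (hj.mem _ _).symm
  | eq i k => intro v; exact ⟨hj.inj _ _, congrArg j⟩
  | neg φ ih => intro v; simp only [SatW, Sat, ih]
  | and φ ψ ih1 ih2 => intro v; simp only [SatW, Sat, ih1, ih2]
  | ex φ ih =>
    intro v
    simp only [SatW, Sat]
    constructor
    · rintro ⟨a, ha, h⟩
      obtain ⟨b, rfl⟩ := (hW a).1 ha
      exact ⟨b, (ih _).1 (by rwa [comp_scons])⟩
    · rintro ⟨b, h⟩
      exact ⟨j b, (hW _).2 ⟨b, rfl⟩, by rw [← comp_scons]; exact (ih _).2 h⟩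

variable [hZ : ZF E]

variable (E) in
noncomputable def num (k : ℕ) : M := (ex_num E k).choose

theorem num_spec (k : ℕ) : IsNum E k (num E k) := (ex_num E k).choose_spec

theorem num_ne {k l : ℕ} (h : k ≠ l) : num E k ≠ num E l := fun h' =>
  h ((num_spec (E := E) k).inj (h' ▸ num_spec l))

theorem num_mem {w : M} (hw : IsOmega E w) (k : ℕ) : E (num E k) w := (num_spec k).mem hw

theorem num_suc (k : ℕ) : IsSuc E (num E (k + 1)) (num E k) := by
  obtain ⟨y, h1, h2⟩ := num_spec (E := E) (k + 1)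
  rwa [(num_spec k).uniq h1]

variable (E) in
def SatA (W T : M → Prop) : Fm → (ℕ → ℕ) → ℕ → M → Prop
  | .mem i j, ρ, _, s => ∃ a b, App E s (num E (ρ i)) a ∧ App E s (num E (ρ j)) b ∧ E a b
  | .eq i j, ρ, _, s => ∃ a, App E s (num E (ρ i)) a ∧ App E s (num E (ρ j)) a
  | .neg φ, ρ, n, s => ¬ SatA W T φ ρ n s
  | .and φ ψ, ρ, n, s => SatA W T φ ρ n s ∧ SatA W T ψ ρ n s
  | .ex φ, ρ, n, s => ∃ a t, W a ∧ Upd E s (num E n) a t ∧ T t ∧ SatA W T φ (scons n ρ) (n + 1) t

theorem SatA.df {W T : M → Prop} (hW : D1 E W) (hT : D1 E T) (φ : Fm) :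
    ∀ ρ n, D1 E (SatA E W T φ ρ n) := by
  induction φ with
  | mem i j => intro ρ n t _; simp only [SatA]; infer_instance
  | eq i j => intro ρ n t _; simp only [SatA]; infer_instance
  | neg φ ih => intro ρ n t _; have := ih ρ n; simp only [SatA]; infer_instance
  | and φ ψ ih1 ih2 =>
    intro ρ n t _; have := ih1 ρ n; have := ih2 ρ n; simp only [SatA]; infer_instance
  | ex φ ih => intro ρ n t _; have := ih (scons n ρ) (n + 1); simp only [SatA]; infer_instance

/-- an admissible class of assignments with values in the range of `j` -/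
structure Adm (j : N → M) (E : M → M → Prop) [ZF E] (W T : M → Prop) : Prop where
  rng : ∀ x, W x ↔ ∃ b, j b = x
  fn : ∀ t, T t → Fn E t
  emp : ∀ e, IsEmp E e → T e
  upd : ∀ s n a, T s → W a → (∀ c, ¬ App E s (num E n) c) → ∃ t, T t ∧ Upd E s (num E n) a t

theorem satA_iff [hj : Emb j E' E] {W T : M → Prop} (h : Adm j E W T) (φ : Fm) :
    ∀ (ρ : ℕ → ℕ) (n : ℕ) (s : M) (v : ℕ → N), (∀ i, ρ i < n) → T s →
      (∀ i, App E s (num E (ρ i)) (j (v i))) → (∀ m c, n ≤ m → ¬ App E s (num E m) c) →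
      (SatA E W T φ ρ n s ↔ Sat E' φ v) := by
  induction φ with
  | mem i k =>
    intro ρ n s v _ hs hv _
    constructor
    · rintro ⟨a, b, ha, hb, hab⟩
      rw [h.fn s hs _ _ _ ha (hv i), h.fn s hs _ _ _ hb (hv k)] at hab
      exact (hj.mem _ _).2 hab
    · exact fun hab => ⟨_, _, hv i, hv k, (hj.mem _ _).1 hab⟩
  | eq i k =>
    intro ρ n s v _ hs hv _
    constructor
    · rintro ⟨a, ha, hb⟩
      exact hj.inj _ _ ((h.fn s hs _ _ _ ha (hv i)).symm.trans (h.fn s hs _ _ _ hb (hv k)))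
    · intro hab
      exact ⟨_, hv i, (show v i = v k from hab) ▸ hv k⟩
  | neg φ ih => intro ρ n s v h1 h2 h3 h4; simp only [SatA, Sat, ih ρ n s v h1 h2 h3 h4]
  | and φ ψ ih1 ih2 =>
    intro ρ n s v h1 h2 h3 h4
    simp only [SatA, Sat, ih1 ρ n s v h1 h2 h3 h4, ih2 ρ n s v h1 h2 h3 h4]
  | ex φ ih =>
    intro ρ n s v h1 h2 h3 h4
    have key : ∀ b t, T t → Upd E s (num E n) (j b) t →
        (SatA E W T φ (scons n ρ) (n + 1) t ↔ Sat E' φ (scons b v)) := fun b t ht hu => by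
      refine ih _ _ _ _ (fun i => ?_) ht (fun i => ?_) (fun m c hm hc => ?_)
      · cases i with
        | zero => exact Nat.lt_succ_self n
        | succ i => exact Nat.lt_succ_of_lt (h1 i)
      · cases i with
        | zero => exact hu.1
        | succ i => exact (hu.2 _ _ (num_ne (h1 i).ne)).2 (h3 i)
      · exact h4 m c (by omega) ((hu.2 _ _ (num_ne (by omega))).1 hc)
    constructor
    · rintro ⟨a, t, ha, hu, ht, hs⟩
      obtain ⟨b, rfl⟩ := (h.rng a).1 ha
      exact ⟨b, (key b t ht hu).1 hs⟩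
    · rintro ⟨b, hb⟩
      have hW := (h.rng _).2 ⟨b, rfl⟩
      obtain ⟨t, ht, hu⟩ := h.upd s n _ h2 hW (fun c => h4 n c le_rfl)
      exact ⟨_, t, hW, hu, ht, (key b t ht hu).2 hb⟩

theorem Adm.init {W T : M → Prop} (h : Adm j E W T) (v : ℕ → N) (n : ℕ) :
    ∃ s, T s ∧ (∀ i, i < n → App E s (num E i) (j (v i))) ∧
      ∀ k c, App E s k c → ∃ i, i < n ∧ k = num E i ∧ c = j (v i) := by
  induction n with
  | zero =>
    obtain ⟨e, he⟩ := ex_emp E
    exact ⟨e, h.emp e he, fun i hi => absurd hi (by omega), fun k c ⟨p, _, hp⟩ => (he p hp).elim⟩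
  | succ n ih =>
    obtain ⟨s, hs, h1, h2⟩ := ih
    obtain ⟨t, ht, hu⟩ := h.upd s n _ hs ((h.rng _).2 ⟨v n, rfl⟩) (fun c hc => by
      obtain ⟨i, hi, he, -⟩ := h2 _ _ hc
      exact num_ne hi.ne' he)
    refine ⟨t, ht, fun i hi => ?_, fun k c hc => ?_⟩
    · rcases Nat.lt_succ_iff_lt_or_eq.1 hi with hi | rfl
      · exact (hu.2 _ _ (num_ne hi.ne)).2 (h1 i hi)
      · exact hu.1
    · by_cases hk : k = num E n
      · subst hk
        exact ⟨n, by omega, rfl, h.fn t ht _ _ _ hc hu.1⟩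
      · obtain ⟨i, hi, h3⟩ := h2 _ _ ((hu.2 _ _ hk).1 hc)
        exact ⟨i, by omega, h3⟩

def Fm.nm (φ : Fm) : ℕ → ℕ := scons (φ.fv + 1) (fun i => if i < φ.fv + 1 then i else 0)

/-- sections of truth sets -/
theorem Adm.sect [Emb j E' E] {W T : M → Prop} (h : Adm j E W T) (φ : Fm) (v : ℕ → N) :
    ∃ s, T s ∧ (∀ k c, App E s k c → ∃ i, i < φ.fv + 1 ∧ k = num E i ∧ c = j (v i)) ∧
      (∀ b, ∃ t, T t ∧ Upd E s (num E (φ.fv + 1)) (j b) t) ∧
      ∀ b t, T t → Upd E s (num E (φ.fv + 1)) (j b) t →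
        (SatA E W T φ φ.nm (φ.fv + 2) t ↔ Sat E' φ (scons b v)) := by
  obtain ⟨s, hs, h1, h2⟩ := h.init v (φ.fv + 1)
  refine ⟨s, hs, h2, fun b => h.upd s _ _ hs ((h.rng _).2 ⟨b, rfl⟩) (fun c hc => ?_),
    fun b t ht hu => ?_⟩
  · obtain ⟨i, hi, he, -⟩ := h2 _ _ hc
    exact num_ne hi.ne' he
  rw [satA_iff (E' := E') h φ φ.nm _ t (scons b (fun i => v (if i < φ.fv + 1 then i else 0)))
    (fun i => ?_) ht (fun i => ?_) (fun m c hm hc => ?_)]
  · refine sat_congr φ _ _ fun i hi => ?_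
    cases i with
    | zero => rfl
    | succ i => simp only [scons_succ]; rw [if_pos (by omega)]
  · cases i with
    | zero => exact Nat.lt_succ_self _
    | succ i => simp only [Fm.nm, scons_succ]; split_ifs <;> omega
  · cases i with
    | zero => exact hu.1
    | succ i =>
      have : (if i < φ.fv + 1 then i else 0) < φ.fv + 1 := by split_ifs <;> omega
      exact (hu.2 _ _ (num_ne this.ne)).2 (h1 _ this)
  · obtain ⟨i, hi, he, -⟩ := h2 _ _ ((hu.2 _ _ (num_ne (by omega))).1 hc)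
    exact num_ne (by omega) he

omit hZ in
theorem upd_ins {s i a p t : M} (hp : IsOPair E p i a) (ht : ∀ x, E x t ↔ E x s ∨ x = p)
    (hs : Fn E s) (hi : ∀ c, ¬ App E s i c) : Fn E t ∧ Upd E s i a t := by
  have := app_ins hp ht
  refine ⟨fun k b c hb hc => ?_, (this _ _).2 (Or.inr ⟨rfl, rfl⟩), fun k c hk => ?_⟩
  · rcases (this _ _).1 hb with hb | ⟨rfl, rfl⟩ <;> rcases (this _ _).1 hc with hc | ⟨h1, rfl⟩
    · exact hs _ _ _ hb hc
    · exact (hi _ (h1 ▸ hb)).elim
    · exact (hi _ hc).elim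
    · rfl
  · rw [this]; simp [hk]

end Pool.Agent.Lib.MP_1d770b_lc
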