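import Pool.Agent.Lib.MP_1d770b_lc.Defs

/-! Definability calculus (by instance search), relativisation and embeddings. -/

set_option synthInstance.maxSize 100000

namespace Pool.Agent.Lib.MP_1d770b_lc

universe u
variable {M : Type u} {E : M → M → Prop}

@[reducible] def tl (v : ℕ → M) : ℕ → M := fun n => v (n + 1)

@[simp] theorem scons_zero (a : M) (v : ℕ → M) : scons a v 0 = a := rfl
@[simp] theorem scons_succ (a : M) (v : ℕ → M) (n : ℕ) : scons a v (n + 1) = v n := rfl

def lift (ρ : ℕ → ℕ) : ℕ → ℕ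
  | 0 => 0
  | n + 1 => ρ n + 1

def Fm.ren : Fm → (ℕ → ℕ) → Fm
  | .mem i j, ρ => .mem (ρ i) (ρ j)
  | .eq i j, ρ => .eq (ρ i) (ρ j)
  | .neg φ, ρ => .neg (φ.ren ρ)
  | .and φ ψ, ρ => .and (φ.ren ρ) (ψ.ren ρ)
  | .ex φ, ρ => .ex (φ.ren (lift ρ))

theorem sat_ren (φ : Fm) : ∀ (ρ : ℕ → ℕ) (v : ℕ → M),
    Sat E (φ.ren ρ) v ↔ Sat E φ (fun n => v (ρ n)) := by
  induction φ with
  | mem i j => intro ρ v; rfl
  | eq i j => intro ρ v; rfl
  | neg φ ih => intro ρ v; simp only [Fm.ren, Sat, ih]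
  | and φ ψ ih1 ih2 => intro ρ v; simp only [Fm.ren, Sat, ih1, ih2]
  | ex φ ih =>
    intro ρ v
    simp only [Fm.ren, Sat, ih]
    refine exists_congr fun a => ?_
    have : (fun n => scons a v (lift ρ n)) = scons a (fun n => v (ρ n)) := by
      funext n; cases n <;> rfl
    rw [this]

class IsT (t : (ℕ → M) → M) : Prop where
  out : (∃ i, ∀ v, t v = v i) ∨ (∃ c, ∀ v, t v = c)

class IsSh (σ : (ℕ → M) → (ℕ → M)) : Prop where
  out : ∃ k, ∀ v i, σ v i = v (i + k)

instance IsSh.id : IsSh (fun v : ℕ → M => v) := ⟨⟨0, fun _ _ => rfl⟩⟩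
instance IsSh.tl (σ : (ℕ → M) → (ℕ → M)) [h : IsSh σ] : IsSh (fun v => tl (σ v)) := by
  obtain ⟨k, hk⟩ := h.out
  exact ⟨⟨k + 1, fun v i => by simp only [MP_1d770b_lc.tl, hk]; congr 1; omega⟩⟩

instance (priority := 100) IsT.comp (t : (ℕ → M) → M) (σ : (ℕ → M) → (ℕ → M)) [h : IsT t]
    [h' : IsSh σ] : IsT (fun v => t (σ v)) := by
  obtain ⟨k, hk⟩ := h'.out
  rcases h.out with ⟨i, hi⟩ | ⟨c, hc⟩
  · exact ⟨Or.inl ⟨i + k, fun v => by rw [hi, hk]⟩⟩
  · exact ⟨Or.inr ⟨c, fun v => hc _⟩⟩
instance (priority := 2000) IsT.var (i : ℕ) : IsT (fun v : ℕ → M => v i) := ⟨Or.inl ⟨i, fun _ => rfl⟩⟩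
instance (priority := 3000) IsT.const (c : M) : IsT (fun _ : ℕ → M => c) :=
  ⟨Or.inr ⟨c, fun _ => rfl⟩⟩

class Df (E : M → M → Prop) (P : (ℕ → M) → Prop) : Prop where
  out : ∃ (φ : Fm) (τ : ℕ → ℕ ⊕ M), ∀ v, P v ↔ Sat E φ (fun n => Sum.elim v id (τ n))

theorem IsT.exists_sum (t : (ℕ → M) → M) [h : IsT t] :
    ∃ x : ℕ ⊕ M, ∀ v, t v = Sum.elim v id x := by
  rcases h.out with ⟨i, hi⟩ | ⟨c, hc⟩
  · exact ⟨Sum.inl i, hi⟩
  · exact ⟨Sum.inr c, hc⟩

theorem Df.congr {P Q : (ℕ → M) → Prop} (h : Df E P) (hPQ : ∀ v, P v ↔ Q v) : Df E Q := by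
  have : P = Q := funext fun v => propext (hPQ v)
  exact this ▸ h

theorem Df.sat (φ : Fm) (t : ℕ → (ℕ → M) → M) (ht : ∀ i, IsT (t i)) :
    Df E (fun v => Sat E φ (fun i => t i v)) := by
  choose τ hτ using fun i => @IsT.exists_sum _ (t i) (ht i)
  exact ⟨φ, τ, fun v => by simp only [hτ]⟩

theorem Df.subst {P : (ℕ → M) → Prop} (h : Df E P) (t : ℕ → (ℕ → M) → M) (ht : ∀ i, IsT (t i)) :
    Df E (fun v => P (fun i => t i v)) := by
  obtain ⟨φ, τ, hφ⟩ := h.out
  choose σ hσ using fun i => @IsT.exists_sum _ (t i) (ht i)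
  refine ⟨φ, fun n => Sum.elim σ Sum.inr (τ n), fun v => ?_⟩
  rw [hφ]
  have : (fun n => Sum.elim (fun i => t i v) id (τ n)) =
      fun n => Sum.elim v id (Sum.elim σ Sum.inr (τ n)) := by
    funext n; cases τ n with
    | inl i => exact hσ i v
    | inr c => rfl
  rw [this]

instance Df.mem (s t : (ℕ → M) → M) [IsT s] [IsT t] : Df E (fun v => E (s v) (t v)) :=
  Df.sat (.mem 0 1) (fun i => match i with | 0 => s | _ + 1 => t)
    (fun i => by cases i <;> infer_instance)

instance Df.eq (s t : (ℕ → M) → M) [IsT s] [IsT t] : Df E (fun v => s v = t v) :=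
  Df.sat (.eq 0 1) (fun i => match i with | 0 => s | _ + 1 => t)
    (fun i => by cases i <;> infer_instance)

instance Df.not (P : (ℕ → M) → Prop) [h : Df E P] : Df E (fun v => ¬ P v) := by
  obtain ⟨φ, τ, hφ⟩ := h.out
  exact ⟨.neg φ, τ, fun v => by simp only [Sat, hφ]⟩

instance Df.and (P Q : (ℕ → M) → Prop) [h : Df E P] [h' : Df E Q] :
    Df E (fun v => P v ∧ Q v) := by
  obtain ⟨φ, τ, hφ⟩ := h.out
  obtain ⟨ψ, σ, hψ⟩ := h'.out
  refine ⟨.and (φ.ren (fun n => 2 * n)) (ψ.ren (fun n => 2 * n + 1)),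
    fun n => if n % 2 = 0 then τ (n / 2) else σ (n / 2), fun v => ?_⟩
  simp only [Sat, sat_ren, hφ, hψ]
  have h1 : ∀ n, (2 * n) % 2 = 0 := fun n => by omega
  have h2 : ∀ n, ¬ (2 * n + 1) % 2 = 0 := fun n => by omega
  have h3 : ∀ n, (2 * n) / 2 = n := fun n => by omega
  have h4 : ∀ n, (2 * n + 1) / 2 = n := fun n => by omega
  simp only [h1, h2, h3, h4, if_true, if_false]

instance Df.ex (P : (ℕ → M) → M → Prop) [h : Df E (fun w => P (tl w) (w 0))] :
    Df E (fun v => ∃ a, P v a) := by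
  classical
  obtain ⟨φ, τ, hφ⟩ := h.out
  refine ⟨.ex (φ.ren (fun n => if τ n = Sum.inl 0 then 0 else n + 1)),
    fun n => Sum.map Nat.pred id (τ n), fun v => ?_⟩
  simp only [Sat, sat_ren]
  refine exists_congr fun a => ?_
  have := hφ (scons a v)
  have e : (fun n => scons a (fun n => Sum.elim v id (Sum.map Nat.pred id (τ n)))
      (if τ n = Sum.inl 0 then 0 else n + 1)) = fun n => Sum.elim (scons a v) id (τ n) := by
    funext n
    rcases hn : τ n with (_ | i) | c <;> simp [hn]
  rw [e]; exact this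

instance (priority := 3000) Df.const (p : Prop) : Df E (fun _ => p) := by
  by_cases hp : p
  · exact ⟨.eq 0 0, fun _ => Sum.inl 0, fun v => by simp [Sat, hp]⟩
  · exact ⟨.neg (.eq 0 0), fun _ => Sum.inl 0, fun v => by simp [Sat, hp]⟩

instance Df.or (P Q : (ℕ → M) → Prop) [Df E P] [Df E Q] : Df E (fun v => P v ∨ Q v) :=
  Df.congr (P := fun v => ¬ (¬ P v ∧ ¬ Q v)) inferInstance (fun v => by tauto)

instance Df.imp (P Q : (ℕ → M) → Prop) [Df E P] [Df E Q] : Df E (fun v => P v → Q v) :=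
  Df.congr (P := fun v => ¬ (P v ∧ ¬ Q v)) inferInstance (fun v => by tauto)

instance Df.iff (P Q : (ℕ → M) → Prop) [Df E P] [Df E Q] : Df E (fun v => P v ↔ Q v) :=
  Df.congr (P := fun v => (P v → Q v) ∧ (Q v → P v)) inferInstance (fun v => by tauto)

instance Df.all (P : (ℕ → M) → M → Prop) [Df E (fun w => P (tl w) (w 0))] :
    Df E (fun v => ∀ a, P v a) :=
  Df.congr (P := fun v => ¬ ∃ a, ¬ P v a) inferInstance (fun v => by simp)

instance Df.ne (s t : (ℕ → M) → M) [IsT s] [IsT t] : Df E (fun v => s v ≠ t v) :=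
  inferInstanceAs (Df E (fun v => ¬ s v = t v))

instance Df.exu (P : (ℕ → M) → M → Prop) [h : Df E (fun w => P (tl w) (w 0))] :
    Df E (fun v => ∃! a, P v a) := by
  have h2 : Df E (fun w => P (tl (tl w)) (w 0)) :=
    h.subst (fun i w => match i with | 0 => w 0 | i + 1 => w (i + 2))
      (fun i => by cases i <;> infer_instance)
  exact inferInstanceAs (Df E (fun v => ∃ a, P v a ∧ ∀ b, P v b → b = a))

theorem Df.allLt (n : ℕ) (P : ℕ → (ℕ → M) → Prop) (h : ∀ k, k < n → Df E (P k)) :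
    Df E (fun v => ∀ k, k < n → P k v) := by
  induction n with
  | zero => exact Df.congr (P := fun _ => True) inferInstance (fun v => by simp)
  | succ n ih =>
    have := ih (fun k hk => h k (by omega))
    have := h n (by omega)
    refine Df.congr (P := fun v => (∀ k, k < n → P k v) ∧ P n v) inferInstance (fun v => ?_)
    constructor
    · rintro ⟨h1, h2⟩ k hk
      rcases Nat.lt_succ_iff_lt_or_eq.1 hk with hk | rfl
      · exact h1 k hk
      · exact h2
    · exact fun h' => ⟨fun k hk => h' k (by omega), h' n (by omega)⟩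

instance Df.allFin (n : ℕ) (P : Fin n → (ℕ → M) → Prop) [h : ∀ k, Df E (P k)] :
    Df E (fun v => ∀ k, P k v) := by
  have := Df.allLt (E := E) n (fun k v => ∀ hk : k < n, P ⟨k, hk⟩ v)
    (fun k hk => Df.congr (h ⟨k, hk⟩) (fun v => ⟨fun h' _ => h', fun h' => h' hk⟩))
  exact this.congr fun v => ⟨fun h' k => h' k k.2 k.2, fun h' k _ hk => h' ⟨k, hk⟩⟩

instance Df.exFin (n : ℕ) (P : Fin n → (ℕ → M) → Prop) [h : ∀ k, Df E (P k)] :
    Df E (fun v => ∃ k, P k v) :=
  Df.congr (P := fun v => ¬ ∀ k, ¬ P k v) inferInstance (fun v => by simp)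

/-- definable unary, binary, ternary predicates -/
abbrev D1 (E : M → M → Prop) (S : M → Prop) : Prop :=
  ∀ (t : (ℕ → M) → M) [IsT t], Df E (fun v => S (t v))
abbrev D2 (E : M → M → Prop) (S : M → M → Prop) : Prop :=
  ∀ (s t : (ℕ → M) → M) [IsT s] [IsT t], Df E (fun v => S (s v) (t v))
abbrev D3 (E : M → M → Prop) (S : M → M → M → Prop) : Prop :=
  ∀ (r s t : (ℕ → M) → M) [IsT r] [IsT s] [IsT t], Df E (fun v => S (r v) (s v) (t v))

theorem D2.of_definable {S : M → M → Prop} (h : Definable E S) : D2 E S := by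
  obtain ⟨φ, u, hφ⟩ := h
  intro s t _ _
  refine (Df.sat (E := E) φ
    (fun i => match i with | 0 => s | 1 => t | i + 2 => fun _ => u i) ?_).congr ?_
  · intro i
    match i with
    | 0 => infer_instance
    | 1 => infer_instance
    | i + 2 => infer_instance
  · intro v
    rw [hφ]
    have : (fun i => (match i with | 0 => s | 1 => t | i + 2 => fun _ => u i) v) =
        scons (s v) (scons (t v) u) := by
      funext i
      match i with
      | 0 => rfl
      | 1 => rfl
      | i + 2 => rfl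
    rw [this]

theorem D2.definable [Nonempty M] {S : M → M → Prop} (h : D2 E S) : Definable E S := by
  classical
  obtain ⟨φ, τ, hφ⟩ := (h (fun v => v 0) (fun v => v 1)).out
  refine ⟨φ.ren (fun n => if τ n = Sum.inl 0 then 0 else if (τ n).isLeft then 1 else n + 2),
    fun n => Sum.elim (fun _ => Classical.arbitrary M) id (τ n), fun a b => ?_⟩
  rw [sat_ren]
  have := hφ (scons a (fun _ => b))
  have e : (fun n => scons a (scons b fun n => Sum.elim (fun _ => Classical.arbitrary M) id (τ n))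
      (if τ n = Sum.inl 0 then 0 else if (τ n).isLeft then 1 else n + 2)) =
      fun n => Sum.elim (scons a (fun _ => b)) id (τ n) := by
    funext n
    rcases hn : τ n with (_ | i) | c <;> simp [hn, scons]
  rw [e]; exact this

/-- Uniform definability without parameters, by one formula in all structures. -/
class UD (P : ∀ (M : Type u), (M → M → Prop) → (ℕ → M) → Prop) : Prop where
  out : ∃ φ : Fm, ∀ M E v, P M E v ↔ Sat E φ v

section
variable (P Q : ∀ (M : Type u), (M → M → Prop) → (ℕ → M) → Prop)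
  (R : ∀ (M : Type u), (M → M → Prop) → (ℕ → M) → M → Prop)

theorem UD.congr {P Q : ∀ (M : Type u), (M → M → Prop) → (ℕ → M) → Prop} (h : UD P)
    (hPQ : ∀ M E v, P M E v ↔ Q M E v) : UD Q := by
  obtain ⟨φ, hφ⟩ := h.out
  exact ⟨φ, fun M E v => (hPQ M E v).symm.trans (hφ M E v)⟩

instance UD.mem (i j : ℕ) : UD.{u} (fun _ E v => E (v i) (v j)) := ⟨.mem i j, fun _ _ _ => Iff.rfl⟩
instance UD.eq (i j : ℕ) : UD.{u} (fun _ _ v => v i = v j) := ⟨.eq i j, fun _ _ _ => Iff.rfl⟩
instance UD.not [h : UD P] : UD (fun M E v => ¬ P M E v) := by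
  obtain ⟨φ, hφ⟩ := h.out
  exact ⟨.neg φ, fun M E v => by simp only [Sat, hφ]⟩
instance UD.and [h : UD P] [h' : UD Q] : UD (fun M E v => P M E v ∧ Q M E v) := by
  obtain ⟨φ, hφ⟩ := h.out
  obtain ⟨ψ, hψ⟩ := h'.out
  exact ⟨.and φ ψ, fun M E v => by simp only [Sat, hφ, hψ]⟩
instance UD.ex [h : UD (fun M E w => R M E (tl w) (w 0))] : UD (fun M E v => ∃ a, R M E v a) := by
  obtain ⟨φ, hφ⟩ := h.out
  exact ⟨.ex φ, fun M E v => exists_congr fun a => hφ M E (scons a v)⟩
instance (priority := 3000) UD.const (p : Prop) : UD.{u} (fun _ _ _ => p) := by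
  by_cases hp : p
  · exact ⟨.eq 0 0, fun _ _ v => by simp [Sat, hp]⟩
  · exact ⟨.neg (.eq 0 0), fun _ _ v => by simp [Sat, hp]⟩
instance UD.or [UD P] [UD Q] : UD (fun M E v => P M E v ∨ Q M E v) :=
  UD.congr (P := fun M E v => ¬ (¬ P M E v ∧ ¬ Q M E v)) inferInstance (fun _ _ _ => by tauto)
instance UD.imp [UD P] [UD Q] : UD (fun M E v => P M E v → Q M E v) :=
  UD.congr (P := fun M E v => ¬ (P M E v ∧ ¬ Q M E v)) inferInstance (fun _ _ _ => by tauto)
instance UD.iff [UD P] [UD Q] : UD (fun M E v => P M E v ↔ Q M E v) :=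
  UD.congr (P := fun M E v => (P M E v → Q M E v) ∧ (Q M E v → P M E v)) inferInstance
    (fun _ _ _ => by tauto)
instance UD.all [UD (fun M E w => R M E (tl w) (w 0))] : UD (fun M E v => ∀ a, R M E v a) :=
  UD.congr (P := fun M E v => ¬ ∃ a, ¬ R M E v a) inferInstance (fun _ _ _ => by simp)
instance UD.ne (i j : ℕ) : UD.{u} (fun _ _ v => v i ≠ v j) :=
  inferInstanceAs (UD (fun _ _ v => ¬ v i = v j))
theorem UD.ren {P : ∀ (M : Type u), (M → M → Prop) → (ℕ → M) → Prop} (h : UD P) (ρ : ℕ → ℕ) :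
    UD (fun M E v => P M E (fun n => v (ρ n))) := by
  obtain ⟨φ, hφ⟩ := h.out
  exact ⟨φ.ren ρ, fun M E v => by rw [sat_ren, hφ]⟩
instance UD.exu [h : UD (fun M E w => R M E (tl w) (w 0))] :
    UD (fun M E v => ∃! a, R M E v a) := by
  have h2 : UD (fun M E w => R M E (tl (tl w)) (w 0)) :=
    h.ren (fun i => match i with | 0 => 0 | i + 1 => i + 2)
  exact inferInstanceAs (UD (fun M E v => ∃ a, R M E v a ∧ ∀ b, R M E v b → b = a))
end

instance UD.allFin (n : ℕ) (P : Fin n → ∀ (M : Type u), (M → M → Prop) → (ℕ → M) → Prop)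
    [h : ∀ k, UD (P k)] : UD (fun M E v => ∀ k, P k M E v) := by
  induction n with
  | zero => exact UD.congr (P := fun _ _ _ => True) inferInstance (fun _ _ _ => by simp)
  | succ n ih =>
    have := ih (fun k => P k.succ)
    exact UD.congr (P := fun M E v => P 0 M E v ∧ ∀ k : Fin n, P k.succ M E v) inferInstance
      (fun M E v => (Fin.forall_fin_succ (P := fun k => P k M E v)).symm)

/-! instances for the defined notions -/
section
variable (a b c d e f g : (ℕ → M) → M) [IsT a] [IsT b] [IsT c] [IsT d] [IsT e] [IsT f] [IsT g]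
  (i j k l m n o : ℕ)

instance : Df E fun v => IsEmp E (a v) := by unfold IsEmp; infer_instance
instance : UD.{u} fun _ E v => IsEmp E (v i) := by unfold IsEmp; infer_instance
instance : Df E fun v => IsSuc E (a v) (b v) := by unfold IsSuc; infer_instance
instance : UD.{u} fun _ E v => IsSuc E (v i) (v j) := by unfold IsSuc; infer_instance
instance : Df E fun v => IsInd E (a v) := by unfold IsInd; infer_instance
instance : UD.{u} fun _ E v => IsInd E (v i) := by unfold IsInd; infer_instance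
instance : Df E fun v => IsOmega E (a v) := by unfold IsOmega; infer_instance
instance : UD.{u} fun _ E v => IsOmega E (v i) := by unfold IsOmega; infer_instance
instance : Df E fun v => IsUPair E (a v) (b v) (c v) := by unfold IsUPair; infer_instance
instance : UD.{u} fun _ E v => IsUPair E (v i) (v j) (v k) := by unfold IsUPair; infer_instance
instance : Df E fun v => IsOPair E (a v) (b v) (c v) := by unfold IsOPair; infer_instance
instance : UD.{u} fun _ E v => IsOPair E (v i) (v j) (v k) := by unfold IsOPair; infer_instance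
instance : Df E fun v => App E (a v) (b v) (c v) := by unfold App; infer_instance
instance : UD.{u} fun _ E v => App E (v i) (v j) (v k) := by unfold App; infer_instance
instance : Df E fun v => PFun E (a v) (b v) (c v) := by unfold PFun; infer_instance
instance : UD.{u} fun _ E v => PFun E (v i) (v j) (v k) := by unfold PFun; infer_instance
instance : Df E fun v => IsOrd E (a v) := by unfold IsOrd; infer_instance
instance : UD.{u} fun _ E v => IsOrd E (v i) := by unfold IsOrd; infer_instance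
instance : Df E fun v => Fld E (a v) (b v) := by unfold Fld; infer_instance
instance : UD.{u} fun _ E v => Fld E (v i) (v j) := by unfold Fld; infer_instance
instance : Df E fun v => Cof E (a v) (b v) := by unfold Cof; infer_instance
instance : UD.{u} fun _ E v => Cof E (v i) (v j) := by unfold Cof; infer_instance
instance : Df E fun v => Asg E (a v) (b v) (c v) := by unfold Asg; infer_instance
instance : UD.{u} fun _ E v => Asg E (v i) (v j) (v k) := by unfold Asg; infer_instance
instance : Df E fun v => Upd E (a v) (b v) (c v) (d v) := by unfold Upd; infer_instance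
instance : UD.{u} fun _ E v => Upd E (v i) (v j) (v k) (v l) := by unfold Upd; infer_instance
end

/-- a definable family of classes, depending on the valuation -/
abbrev DQ (E : M → M → Prop) (q : (ℕ → M) → M → Prop) : Prop :=
  Df E (fun w => q (tl w) (w 0))

theorem DQ.dv {q : (ℕ → M) → M → Prop} (h : DQ E q) (σ : (ℕ → M) → ℕ → M) [hσ : IsSh σ]
    (t : (ℕ → M) → M) [IsT t] : Df E (fun v => q (σ v) (t v)) := by
  obtain ⟨k, hk⟩ := hσ.out
  refine (Df.subst h (fun i => match i with | 0 => t | i + 1 => fun v => v (i + k))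
    (fun i => by cases i <;> infer_instance)).congr fun v => ?_
  have : σ v = fun i => v (i + k) := funext (hk v)
  rw [this]

section
variable (a b c d e f g : (ℕ → M) → M) [IsT a] [IsT b] [IsT c] [IsT d] [IsT e] [IsT f] [IsT g]
  (q : (ℕ → M) → M → Prop) [hq : DQ E q]

instance (r : Fin 6) : Df E fun v => Clause E (q v) (a v) (b v) (c v) (d v) (e v) (f v) r := by
  have := hq.dv
  fin_cases r <;> (simp only [Clause]; infer_instance)
instance : Df E fun v => Closed E (a v) (q v) (b v) (c v) := by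
  have := hq.dv
  unfold Closed; refine @Df.allFin _ _ 6 _ (fun k => ?_); infer_instance
instance : Df E fun v => IsDef E (a v) (q v) (b v) (c v) := by
  have := hq.dv
  unfold IsDef; infer_instance
instance : Df E fun v => Hier E (a v) (q v) (b v) := by
  have := hq.dv
  unfold Hier; infer_instance
instance : Df E fun v => a v ∈ CStar E := by
  unfold CStar; simp only [Set.mem_ofPred_eq]; infer_instance
end

theorem UD.df {P : ∀ (M : Type u), (M → M → Prop) → (ℕ → M) → Prop} (h : UD P)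
    (t : ℕ → (ℕ → M) → M) (ht : ∀ i, IsT (t i)) : Df E (fun v => P M E (fun i => t i v)) := by
  obtain ⟨φ, hφ⟩ := h.out
  exact (Df.sat φ t ht).congr fun v => (hφ _ _ _).symm

end Pool.Agent.Lib.MP_1d770b_lc
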